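import Mathlib

set_option autoImplicit false

/-!
# Base definitions for the 3-profile of graphs (MP_096a05_co)
-/

namespace LibProf47

open Filter Topology

/-- Number of edges of `G` with both ends in `s`. -/
noncomputable def edgesIn {n : ℕ} (G : SimpleGraph (Fin n)) (s : Finset (Fin n)) : ℕ :=
  {e : Sym2 (Fin n) | e ∈ G.edgeSet ∧ ∀ v ∈ e, v ∈ s}.ncard

/-- Fraction of the 3-element vertex sets of `G` that span exactly `i` edges. -/
noncomputable def dens {n : ℕ} (G : SimpleGraph (Fin n)) (i : ℕ) : ℝ :=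
  ({s : Finset (Fin n) | s.card = 3 ∧ edgesIn G s = i}.ncard : ℝ) / (n.choose 3 : ℝ)

/-- The 3-profile: all limit points of `(d_0, d_1, d_2, d_3)` over sequences of graphs whose
number of vertices tends to infinity. -/
def Profile : Set (Fin 4 → ℝ) :=
  {d | ∃ (n : ℕ → ℕ) (G : ∀ k, SimpleGraph (Fin (n k))), Tendsto n atTop atTop ∧
    ∀ i : Fin 4, Tendsto (fun k => dens (G k) (i : ℕ)) atTop (𝓝 (d i))}

/-- 0/1 adjacency indicator. -/
noncomputable def ad {n : ℕ} (G : SimpleGraph (Fin n)) (x y : Fin n) : ℝ := by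
  classical exact if G.Adj x y then 1 else 0

/-- `2 |E|`. -/
noncomputable def S1 {n : ℕ} (G : SimpleGraph (Fin n)) : ℝ := ∑ x, ∑ y, ad G x y

/-- sum of the squared degrees. -/
noncomputable def S2 {n : ℕ} (G : SimpleGraph (Fin n)) : ℝ := ∑ x, (∑ y, ad G x y) ^ 2

/-- six times the number of triangles. -/
noncomputable def S3 {n : ℕ} (G : SimpleGraph (Fin n)) : ℝ :=
  ∑ x, ∑ y, ∑ z, ad G x y * ad G y z * ad G x z

/-- `(d_0, d_1, d_2, d_3)` in terms of the homomorphism densities `p` (edge), `q` (path with two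
edges) and `t` (triangle). -/
def pt (p q t : ℝ) : Fin 4 → ℝ := ![1 - 3 * p + 3 * q - t, 3 * (p - 2 * q + t), 3 * (q - t), t]

/-- Neighbourhoods are nested (threshold graph). -/
def Nested {n : ℕ} (G : SimpleGraph (Fin n)) : Prop :=
  ∀ i j, (∀ k, k ≠ j → G.Adj i k → G.Adj j k) ∨ (∀ k, k ≠ i → G.Adj j k → G.Adj i k)

/-- The graphon with a clique of measure `a` containing a set of measure `x` that is also joined to
all of the remaining independent set of measure `1 - a` has edge density `p` and triangle
density `t`. -/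
def F1 (p t x a : ℝ) : Prop :=
  0 ≤ x ∧ x ≤ a ∧ a ≤ 1 ∧ a ^ 2 + 2 * x * (1 - a) = p ∧ a ^ 3 + 3 * x ^ 2 * (1 - a) = t

/-- The graphon with a clique of measure `b` completely joined to an independent set of measure `z`
(the remaining points being isolated) has edge density `p` and triangle density `t`. -/
def F2 (p t b z : ℝ) : Prop :=
  0 ≤ b ∧ 0 ≤ z ∧ b + z ≤ 1 ∧ b ^ 2 + 2 * b * z = p ∧ b ^ 3 + 3 * b ^ 2 * z = t

/-- mean squared degree of the first graphon -/
def q1 (x a : ℝ) : ℝ := a ^ 3 + x * (1 - a) * (1 + a + x)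

/-- mean squared degree of the second graphon -/
def q2 (b z : ℝ) : ℝ := b ^ 3 + b * z * (3 * b + z)

/-- triangle density of the quasi-star of edge density `p` (a dominating clique of measure
`1 - √(1 - p)` and an independent set) -/
noncomputable def tstar (p : ℝ) : ℝ := 1 - 3 * (1 - p) + 2 * (1 - p) * √(1 - p)

/-- the upper bound for the cherry density `q` at edge density `p` and triangle density `t` -/
def Upp (p q t : ℝ) : Prop :=
  (t ≤ tstar p ∧ q ≤ (p + t) / 2) ∨
  (tstar p ≤ t ∧ ((∃ x a, F1 p t x a ∧ q ≤ q1 x a) ∨ (∃ b z, F2 p t b z ∧ q ≤ q2 b z)))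

/-- number of equal cliques in the tightest union of cliques of edge density `p` -/
noncomputable def kk (p : ℝ) : ℕ := ⌊1 / p⌋₊

/-- size of the `kk p` equal cliques -/
noncomputable def cc (p : ℝ) : ℝ :=
  (kk p + √(kk p * ((kk p + 1) * p - 1))) / (kk p * (kk p + 1))

/-- Triangle density of the disjoint union of `kk p` cliques of size `cc p` and one clique on the
remaining vertices (whose edge density is `p`). -/
noncomputable def hh (p : ℝ) : ℝ := kk p * cc p ^ 3 + (1 - kk p * cc p) ^ 3

/-- Razborov's minimal triangle density at edge density `p`: the triangle density of the complete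
multipartite graphon with `kk (1-p)` parts of size `cc (1-p)` and one smaller part. -/
noncomputable def razb (p : ℝ) : ℝ := 1 - 3 * (1 - p) + 2 * hh (1 - p)

end LibProf47
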