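import Mathlib
import Pool.Agent.LibProf47.Base

set_option autoImplicit false

/-!
# Task C5 (blow-ups) for MP_096a05_co
-/

namespace LibProf47

open Filter Topology

namespace Blow

variable {k : ℕ}

/-- the class of a vertex of the blow-up -/
def cls (m : Fin k → ℕ) (x : Fin (∑ i, m i)) : Fin k := (finSigmaFinEquiv.symm x).1

theorem sum_cls (m : Fin k → ℕ) (F : Fin k → ℝ) :
    ∑ x, F (cls m x) = ∑ i, (m i : ℝ) * F i := by
  rw [← Equiv.sum_comp (finSigmaFinEquiv (n := m))]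
  simp only [cls, Equiv.symm_apply_apply]
  rw [Fintype.sum_sigma]
  simp

/-- the blow-up graph -/
def blow (m : Fin k → ℕ) (B : Fin k → Fin k → ℝ) (hs : ∀ i j, B i j = B j i) :
    SimpleGraph (Fin (∑ i, m i)) where
  Adj x y := x ≠ y ∧ B (cls m x) (cls m y) = 1
  symm := ⟨fun x y h => ⟨h.1.symm, by rw [hs]; exact h.2⟩⟩
  loopless := ⟨fun x h => h.1 rfl⟩

variable (m : Fin k → ℕ) (B : Fin k → Fin k → ℝ) (hs : ∀ i j, B i j = B j i)

theorem ad_blow (hB : ∀ i j, B i j = 0 ∨ B i j = 1) (x y : Fin (∑ i, m i)) :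
    ad (blow m B hs) x y =
      B (cls m x) (cls m y) - if x = y then B (cls m x) (cls m x) else 0 := by
  unfold ad
  by_cases h : x = y
  · subst h
    simp
  · rcases hB (cls m x) (cls m y) with h0 | h0
    · simp [blow, h, h0]
    · simp [blow, h, h0]

theorem sum_ad (hB : ∀ i j, B i j = 0 ∨ B i j = 1) (x : Fin (∑ i, m i)) :
    ∑ y, ad (blow m B hs) x y =
      ∑ j, (m j : ℝ) * B (cls m x) j - B (cls m x) (cls m x) := by
  simp only [ad_blow m B hs hB, Finset.sum_sub_distrib]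
  rw [sum_cls m (fun j => B (cls m x) j)]
  simp

theorem S1_blow (hB : ∀ i j, B i j = 0 ∨ B i j = 1) :
    S1 (blow m B hs) = ∑ i, (m i : ℝ) * (∑ j, (m j : ℝ) * B i j - B i i) := by
  unfold S1
  simp only [sum_ad m B hs hB]
  exact sum_cls m (fun i => ∑ j, (m j : ℝ) * B i j - B i i)

theorem S2_blow (hB : ∀ i j, B i j = 0 ∨ B i j = 1) :
    S2 (blow m B hs) = ∑ i, (m i : ℝ) * (∑ j, (m j : ℝ) * B i j - B i i) ^ 2 := by
  unfold S2
  simp only [sum_ad m B hs hB]
  exact sum_cls m (fun i => (∑ j, (m j : ℝ) * B i j - B i i) ^ 2)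

theorem sum_ad_ad (hB : ∀ i j, B i j = 0 ∨ B i j = 1) (x y : Fin (∑ i, m i)) (h : x ≠ y) :
    ∑ z, ad (blow m B hs) y z * ad (blow m B hs) x z =
      ∑ j, (m j : ℝ) * (B (cls m y) j * B (cls m x) j)
        - B (cls m y) (cls m y) * B (cls m x) (cls m y)
        - B (cls m y) (cls m x) * B (cls m x) (cls m x) := by
  have hz : ∀ z, ad (blow m B hs) y z * ad (blow m B hs) x z =
      B (cls m y) (cls m z) * B (cls m x) (cls m z)
      - (if y = z then B (cls m y) (cls m y) * B (cls m x) (cls m y) else 0)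
      - (if x = z then B (cls m y) (cls m x) * B (cls m x) (cls m x) else 0) := by
    intro z
    rw [ad_blow m B hs hB, ad_blow m B hs hB]
    by_cases h1 : y = z
    · subst h1
      simp [h]
    · by_cases h2 : x = z
      · subst h2
        simp [h1]
      · simp [h1, h2]
  simp only [hz, Finset.sum_sub_distrib]
  rw [sum_cls m (fun j => B (cls m y) j * B (cls m x) j)]
  simp

theorem S3_blow (hB : ∀ i j, B i j = 0 ∨ B i j = 1) :
    S3 (blow m B hs) = ∑ i, (m i : ℝ) * (∑ j, (m j : ℝ) * (B i j *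
      (∑ l, (m l : ℝ) * (B j l * B i l) - B j j * B i j - B j i * B i i)) -
      B i i * (∑ l, (m l : ℝ) * (B i l * B i l) - B i i * B i i - B i i * B i i)) := by
  unfold S3
  have hx : ∀ x, ∑ y, ∑ z, ad (blow m B hs) x y * ad (blow m B hs) y z * ad (blow m B hs) x z
      = (fun i => ∑ j, (m j : ℝ) * (B i j *
      (∑ l, (m l : ℝ) * (B j l * B i l) - B j j * B i j - B j i * B i i)) -
      B i i * (∑ l, (m l : ℝ) * (B i l * B i l) - B i i * B i i - B i i * B i i)) (cls m x) := by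
    intro x
    have hy : ∀ y, ∑ z, ad (blow m B hs) x y * ad (blow m B hs) y z * ad (blow m B hs) x z
        = (fun j => B (cls m x) j *
          (∑ l, (m l : ℝ) * (B j l * B (cls m x) l) - B j j * B (cls m x) j
            - B j (cls m x) * B (cls m x) (cls m x))) (cls m y)
          - if x = y then B (cls m x) (cls m x) *
          (∑ l, (m l : ℝ) * (B (cls m x) l * B (cls m x) l)
            - B (cls m x) (cls m x) * B (cls m x) (cls m x)
            - B (cls m x) (cls m x) * B (cls m x) (cls m x)) else 0 := by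
      intro y
      by_cases h : x = y
      · subst h
        have h0 : ad (blow m B hs) x x = 0 := by
          rw [ad_blow m B hs hB]; simp
        simp [h0]
      · have := sum_ad_ad m B hs hB x y h
        simp only [mul_assoc]
        rw [← Finset.mul_sum, this, ad_blow m B hs hB]
        simp [h]
    simp only [hy, Finset.sum_sub_distrib]
    rw [sum_cls m (fun j => B (cls m x) j *
          (∑ l, (m l : ℝ) * (B j l * B (cls m x) l) - B j j * B (cls m x) j
            - B j (cls m x) * B (cls m x) (cls m x)))]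
    simp
  rw [Finset.sum_congr rfl (fun x _ => hx x)]
  exact sum_cls m (fun i => ∑ j, (m j : ℝ) * (B i j *
      (∑ l, (m l : ℝ) * (B j l * B i l) - B j j * B i j - B j i * B i i)) -
      B i i * (∑ l, (m l : ℝ) * (B i l * B i l) - B i i * B i i - B i i * B i i))

/-- normalised `S1` -/
def g1 (u : (Fin k → ℝ) × ℝ) : ℝ :=
  ∑ i, u.1 i * (∑ j, u.1 j * B i j - u.2 * B i i)

/-- normalised `S2` -/
def g2 (u : (Fin k → ℝ) × ℝ) : ℝ :=
  ∑ i, u.1 i * (∑ j, u.1 j * B i j - u.2 * B i i) ^ 2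

/-- normalised `S3` -/
def g3 (u : (Fin k → ℝ) × ℝ) : ℝ :=
  ∑ i, u.1 i * (∑ j, u.1 j * (B i j *
      (∑ l, u.1 l * (B j l * B i l) - u.2 * (B j j * B i j) - u.2 * (B j i * B i i))) -
      u.2 * B i i * (∑ l, u.1 l * (B i l * B i l) - u.2 * (B i i * B i i)
        - u.2 * (B i i * B i i)))

theorem continuous_g1 : Continuous (g1 B) := by unfold g1; fun_prop

theorem continuous_g2 : Continuous (g2 B) := by unfold g2; fun_prop

theorem continuous_g3 : Continuous (g3 B) := by unfold g3; fun_prop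

theorem g1_smul (c : ℝ) (u : (Fin k → ℝ) × ℝ) : g1 B (c • u) = c ^ 2 * g1 B u := by
  unfold g1
  rw [Finset.mul_sum]
  refine Finset.sum_congr rfl fun i _ => ?_
  have : ∑ j, (c • u).1 j * B i j = c * ∑ j, u.1 j * B i j := by
    rw [Finset.mul_sum]
    refine Finset.sum_congr rfl fun j _ => ?_
    simp [mul_assoc]
  rw [this]
  simp only [Prod.smul_fst, Prod.smul_snd, Pi.smul_apply, smul_eq_mul]
  ring

theorem g2_smul (c : ℝ) (u : (Fin k → ℝ) × ℝ) : g2 B (c • u) = c ^ 3 * g2 B u := by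
  unfold g2
  rw [Finset.mul_sum]
  refine Finset.sum_congr rfl fun i _ => ?_
  have : ∑ j, (c • u).1 j * B i j = c * ∑ j, u.1 j * B i j := by
    rw [Finset.mul_sum]
    refine Finset.sum_congr rfl fun j _ => ?_
    simp [mul_assoc]
  rw [this]
  simp only [Prod.smul_fst, Prod.smul_snd, Pi.smul_apply, smul_eq_mul]
  ring

theorem g3_smul (c : ℝ) (u : (Fin k → ℝ) × ℝ) : g3 B (c • u) = c ^ 3 * g3 B u := by
  unfold g3
  rw [Finset.mul_sum]
  refine Finset.sum_congr rfl fun i _ => ?_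
  have h1 : ∀ a b : Fin k → ℝ, ∑ j, (c • u).1 j * (a j * b j) = c * ∑ j, u.1 j * (a j * b j) := by
    intro a b
    rw [Finset.mul_sum]
    refine Finset.sum_congr rfl fun j _ => ?_
    simp [mul_assoc]
  have h2 : ∑ j, (c • u).1 j * (B i j *
      (∑ l, (c • u).1 l * (B j l * B i l) - (c • u).2 * (B j j * B i j)
        - (c • u).2 * (B j i * B i i))) =
      c ^ 2 * ∑ j, u.1 j * (B i j *
      (∑ l, u.1 l * (B j l * B i l) - u.2 * (B j j * B i j) - u.2 * (B j i * B i i))) := by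
    rw [Finset.mul_sum]
    refine Finset.sum_congr rfl fun j _ => ?_
    rw [h1 (B j) (B i)]
    simp only [Prod.smul_fst, Prod.smul_snd, Pi.smul_apply, smul_eq_mul]
    ring
  rw [h2, h1 (B i) (B i)]
  simp only [Prod.smul_fst, Prod.smul_snd, Pi.smul_apply, smul_eq_mul]
  ring

/-- the number of vertices of class `i` in the `N`-th blow-up -/
noncomputable def cnt (l : Fin k → ℝ) (N : ℕ) (i : Fin k) : ℕ := ⌊l i * N⌋₊

theorem tendsto_cnt (l : Fin k → ℝ) (hl : ∀ i, 0 ≤ l i) (i : Fin k) :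
    Tendsto (fun N : ℕ => (cnt l N i : ℝ) / N) atTop (𝓝 (l i)) := by
  unfold cnt
  exact (tendsto_nat_floor_mul_div_atTop (hl i)).comp tendsto_natCast_atTop_atTop

theorem tendsto_tot_div (l : Fin k → ℝ) (hl : ∀ i, 0 ≤ l i) (h1 : ∑ i, l i = 1) :
    Tendsto (fun N : ℕ => ((∑ i, cnt l N i : ℕ) : ℝ) / N) atTop (𝓝 1) := by
  rw [← h1]
  have := tendsto_finsetSum Finset.univ (fun i _ => tendsto_cnt l hl i)
  refine this.congr fun N => ?_
  rw [Nat.cast_sum, Finset.sum_div]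

theorem tendsto_tot (l : Fin k → ℝ) (hl : ∀ i, 0 ≤ l i) (h1 : ∑ i, l i = 1) :
    Tendsto (fun N : ℕ => ((∑ i, cnt l N i : ℕ) : ℝ)) atTop atTop := by
  have h2 := (tendsto_tot_div l hl h1).pos_mul_atTop one_pos
    (tendsto_natCast_atTop_atTop (R := ℝ))
  refine h2.congr' ?_
  filter_upwards [eventually_gt_atTop 0] with N hN
  have : (N : ℝ) ≠ 0 := by positivity
  field_simp

theorem tendsto_frac (l : Fin k → ℝ) (hl : ∀ i, 0 ≤ l i) (h1 : ∑ i, l i = 1) (i : Fin k) :
    Tendsto (fun N : ℕ => (cnt l N i : ℝ) / ((∑ i, cnt l N i : ℕ) : ℝ)) atTop (𝓝 (l i)) := by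
  have h2 := (tendsto_cnt l hl i).div (tendsto_tot_div l hl h1) one_ne_zero
  rw [div_one] at h2
  refine h2.congr' ?_
  filter_upwards [eventually_gt_atTop 0] with N hN
  have : (N : ℝ) ≠ 0 := by positivity
  simp only [Pi.div_apply]
  rw [div_div_div_cancel_right₀ this]

theorem tendsto_pair (l : Fin k → ℝ) (hl : ∀ i, 0 ≤ l i) (h1 : ∑ i, l i = 1) :
    Tendsto (fun N : ℕ => (((fun i => (cnt l N i : ℝ) / ((∑ i, cnt l N i : ℕ) : ℝ)),
      ((∑ i, cnt l N i : ℕ) : ℝ)⁻¹) : (Fin k → ℝ) × ℝ)) atTop (𝓝 (l, 0)) := by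
  refine Tendsto.prodMk_nhds ?_ ?_
  · exact tendsto_pi_nhds.2 (tendsto_frac l hl h1)
  · exact tendsto_inv_atTop_zero.comp (tendsto_tot l hl h1)

end Blow

open Blow in
theorem blow_mem_aux (k : ℕ) (B : Fin k → Fin k → ℝ) (hB : ∀ i j, B i j = 0 ∨ B i j = 1)
    (hs : ∀ i j, B i j = B j i) (l : Fin k → ℝ) (hl : ∀ i, 0 ≤ l i) (h1 : ∑ i, l i = 1)
    (D3 : ∀ {n : ℕ} (_ : 3 ≤ n) (G : SimpleGraph (Fin n)),
      dens G 3 = S3 G / (n * (n - 1) * (n - 2)))
    (D2 : ∀ {n : ℕ} (_ : 3 ≤ n) (G : SimpleGraph (Fin n)),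
      dens G 2 = 3 * (S2 G - S1 G - S3 G) / (n * (n - 1) * (n - 2)))
    (D1 : ∀ {n : ℕ} (_ : 3 ≤ n) (G : SimpleGraph (Fin n)),
      dens G 1 = 3 * ((n - 2) * S1 G - 2 * (S2 G - S1 G) + S3 G) / (n * (n - 1) * (n - 2)))
    (D0 : ∀ {n : ℕ} (_ : 3 ≤ n) (G : SimpleGraph (Fin n)),
      dens G 0 = 1 - dens G 1 - dens G 2 - dens G 3) :
    pt (∑ i, ∑ j, l i * l j * B i j) (∑ i, l i * (∑ j, l j * B i j) ^ 2)
      (∑ i, ∑ j, ∑ m, l i * l j * l m * (B i j * B j m * B i m)) ∈ Profile := by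
  set n : ℕ → ℕ := fun N => ∑ i, cnt l N i with hn
  set G : ∀ N, SimpleGraph (Fin (n N)) := fun N => blow (cnt l N) B hs with hG
  set u : ℕ → (Fin k → ℝ) × ℝ := fun N => ((fun i => (cnt l N i : ℝ) / (n N : ℝ)),
    (n N : ℝ)⁻¹) with hu
  have hut : Tendsto u atTop (𝓝 (l, 0)) := tendsto_pair l hl h1
  have hnR : Tendsto (fun N => (n N : ℝ)) atTop atTop := tendsto_tot l hl h1
  have hnN : Tendsto n atTop atTop := by
    exact tendsto_natCast_atTop_iff.1 hnR
  have hn3 : ∀ᶠ N in atTop, 3 ≤ n N := hnN.eventually_ge_atTop 3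
  have hε : Tendsto (fun N => (u N).2) atTop (𝓝 0) :=
    (continuous_snd.tendsto (l, (0 : ℝ))).comp hut
  have hg1 : Tendsto (fun N => g1 B (u N)) atTop (𝓝 (g1 B (l, 0))) :=
    ((continuous_g1 B).tendsto _).comp hut
  have hg2 : Tendsto (fun N => g2 B (u N)) atTop (𝓝 (g2 B (l, 0))) :=
    ((continuous_g2 B).tendsto _).comp hut
  have hg3 : Tendsto (fun N => g3 B (u N)) atTop (𝓝 (g3 B (l, 0))) :=
    ((continuous_g3 B).tendsto _).comp hut
  have hscale : ∀ N, 3 ≤ n N → (n N : ℝ) • u N = ((fun i => (cnt l N i : ℝ)), 1) := by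
    intro N hN
    have : (n N : ℝ) ≠ 0 := by positivity
    ext i
    · simp only [hu, Prod.smul_fst, Pi.smul_apply, smul_eq_mul]
      field_simp
    · simp only [hu, Prod.smul_snd, smul_eq_mul]
      field_simp
  have hS1 : ∀ N, 3 ≤ n N → S1 (G N) = (n N : ℝ) ^ 2 * g1 B (u N) := by
    intro N hN
    rw [← g1_smul, hscale N hN, S1_blow _ B hs hB]
    simp [g1]
  have hS2 : ∀ N, 3 ≤ n N → S2 (G N) = (n N : ℝ) ^ 3 * g2 B (u N) := by
    intro N hN
    rw [← g2_smul, hscale N hN, S2_blow _ B hs hB]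
    simp [g2]
  have hS3 : ∀ N, 3 ≤ n N → S3 (G N) = (n N : ℝ) ^ 3 * g3 B (u N) := by
    intro N hN
    rw [← g3_smul, hscale N hN, S3_blow _ B hs hB]
    simp [g3]
  have hden : ∀ N, 3 ≤ n N → ((n N : ℝ) * (n N - 1) * (n N - 2)) =
      (n N : ℝ) ^ 3 * ((1 - (u N).2) * (1 - 2 * (u N).2)) := by
    intro N hN
    have : (n N : ℝ) ≠ 0 := by positivity
    simp only [hu]
    field_simp
  have hdlim : Tendsto (fun N => (1 - (u N).2) * (1 - 2 * (u N).2)) atTop (𝓝 1) := by
    have := ((tendsto_const_nhds (x := (1 : ℝ))).sub hε).mul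
      ((tendsto_const_nhds (x := (1 : ℝ))).sub ((tendsto_const_nhds (x := (2 : ℝ))).mul hε))
    simpa using this
  set p := ∑ i, ∑ j, l i * l j * B i j with hp
  set q := ∑ i, l i * (∑ j, l j * B i j) ^ 2 with hq
  set t := ∑ i, ∑ j, ∑ m, l i * l j * l m * (B i j * B j m * B i m) with ht
  have e1 : g1 B (l, 0) = p := by
    simp only [g1, hp, zero_mul, sub_zero, Finset.mul_sum, mul_assoc]
  have e2 : g2 B (l, 0) = q := by
    simp only [g2, hq, zero_mul, sub_zero]
  have e3 : g3 B (l, 0) = t := by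
    simp only [g3, ht, zero_mul, sub_zero, Finset.mul_sum, Finset.sum_const_zero]
    refine Finset.sum_congr rfl fun i _ => Finset.sum_congr rfl fun j _ =>
      Finset.sum_congr rfl fun m _ => by ring
  rw [e1] at hg1
  rw [e2] at hg2
  rw [e3] at hg3
  have L3 : Tendsto (fun N => dens (G N) 3) atTop (𝓝 t) := by
    have := hg3.div hdlim one_ne_zero
    rw [div_one] at this
    refine this.congr' ?_
    filter_upwards [hn3] with N hN
    have h0 : (n N : ℝ) ^ 3 ≠ 0 := by positivity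
    rw [D3 hN, hS3 N hN, hden N hN, mul_div_mul_left _ _ h0]
    rfl
  have L2 : Tendsto (fun N => dens (G N) 2) atTop (𝓝 (3 * (q - t))) := by
    have := ((tendsto_const_nhds (x := (3 : ℝ))).mul
      ((hg2.sub (hε.mul hg1)).sub hg3)).div hdlim one_ne_zero
    rw [div_one, zero_mul, sub_zero] at this
    refine this.congr' ?_
    filter_upwards [hn3] with N hN
    have h0 : (n N : ℝ) ^ 3 ≠ 0 := by positivity
    have h00 : (n N : ℝ) ≠ 0 := by positivity
    rw [D2 hN, hS3 N hN, hS2 N hN, hS1 N hN, hden N hN]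
    have : 3 * ((n N : ℝ) ^ 3 * g2 B (u N) - (n N : ℝ) ^ 2 * g1 B (u N)
        - (n N : ℝ) ^ 3 * g3 B (u N)) =
        (n N : ℝ) ^ 3 * (3 * (g2 B (u N) - (u N).2 * g1 B (u N) - g3 B (u N))) := by
      simp only [hu]
      field_simp
    rw [this, mul_div_mul_left _ _ h0]
    rfl
  have L1 : Tendsto (fun N => dens (G N) 1) atTop (𝓝 (3 * (p - 2 * q + t))) := by
    have := ((tendsto_const_nhds (x := (3 : ℝ))).mul
      (((((tendsto_const_nhds (x := (1 : ℝ))).sub
        ((tendsto_const_nhds (x := (2 : ℝ))).mul hε)).mul hg1).sub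
        ((tendsto_const_nhds (x := (2 : ℝ))).mul (hg2.sub (hε.mul hg1)))).add hg3)).div
        hdlim one_ne_zero
    rw [div_one, zero_mul, sub_zero, mul_zero, sub_zero, one_mul] at this
    refine this.congr' ?_
    filter_upwards [hn3] with N hN
    have h0 : (n N : ℝ) ^ 3 ≠ 0 := by positivity
    have h00 : (n N : ℝ) ≠ 0 := by positivity
    rw [D1 hN, hS3 N hN, hS2 N hN, hS1 N hN, hden N hN]
    have : 3 * (((n N : ℝ) - 2) * ((n N : ℝ) ^ 2 * g1 B (u N)) -
        2 * ((n N : ℝ) ^ 3 * g2 B (u N) - (n N : ℝ) ^ 2 * g1 B (u N))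
        + (n N : ℝ) ^ 3 * g3 B (u N)) =
        (n N : ℝ) ^ 3 * (3 * ((1 - 2 * (u N).2) * g1 B (u N)
          - 2 * (g2 B (u N) - (u N).2 * g1 B (u N)) + g3 B (u N))) := by
      simp only [hu]
      field_simp
    rw [this, mul_div_mul_left _ _ h0]
    rfl
  have L0 : Tendsto (fun N => dens (G N) 0) atTop (𝓝 (1 - 3 * p + 3 * q - t)) := by
    have := (((tendsto_const_nhds (x := (1 : ℝ))).sub L1).sub L2).sub L3
    have e : 1 - 3 * (p - 2 * q + t) - 3 * (q - t) - t = 1 - 3 * p + 3 * q - t := by ring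
    rw [e] at this
    refine this.congr' ?_
    filter_upwards [hn3] with N hN
    rw [D0 hN]
  refine ⟨n, G, hnN, ?_⟩
  intro i
  fin_cases i
  · simpa [pt] using L0
  · simpa [pt] using L1
  · simpa [pt] using L2
  · simpa [pt] using L3

end LibProf47
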