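import Mathlib
import Pool.Agent.LibProf47.Base

set_option autoImplicit false

namespace LibProf47

open Filter Topology

namespace Cnt

open Finset

variable {n : ℕ}

lemma ad_symm (G : SimpleGraph (Fin n)) (x y : Fin n) : ad G x y = ad G y x := by
  unfold ad
  by_cases h : G.Adj x y
  · rw [if_pos h, if_pos h.symm]
  · rw [if_neg h, if_neg (fun h' => h h'.symm)]

lemma ad_self (G : SimpleGraph (Fin n)) (x : Fin n) : ad G x x = 0 := by
  unfold ad; simp

lemma ad_of_adj {G : SimpleGraph (Fin n)} {x y : Fin n} (h : G.Adj x y) : ad G x y = 1 := by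
  unfold ad; simp [h]

lemma ad_of_not_adj {G : SimpleGraph (Fin n)} {x y : Fin n} (h : ¬ G.Adj x y) :
    ad G x y = 0 := by
  unfold ad; simp [h]

lemma ad_sq (G : SimpleGraph (Fin n)) (x y : Fin n) : ad G x y * ad G x y = ad G x y := by
  by_cases h : G.Adj x y
  · rw [ad_of_adj h]; norm_num
  · rw [ad_of_not_adj h]; norm_num

/-- The number of edges inside three distinct vertices. -/
lemma edgesIn_triple (G : SimpleGraph (Fin n)) {x y z : Fin n} (hxy : x ≠ y) (hyz : y ≠ z)
    (hxz : x ≠ z) :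
    (edgesIn G {x, y, z} : ℝ) = ad G x y + ad G y z + ad G x z := by
  classical
  have hset : {e : Sym2 (Fin n) | e ∈ G.edgeSet ∧ ∀ v ∈ e, v ∈ ({x, y, z} : Finset (Fin n))}
      = ((({s(x, y), s(y, z), s(x, z)} : Finset (Sym2 (Fin n))).filter
          (fun e => e ∈ G.edgeSet) : Finset (Sym2 (Fin n))) : Set (Sym2 (Fin n))) := by
    ext e
    induction e with
    | _ a b =>
      simp only [Set.mem_ofPred_eq, SimpleGraph.mem_edgeSet, Sym2.mem_iff, Finset.mem_insert,
        Finset.mem_singleton, Finset.coe_filter, forall_eq_or_imp, forall_eq]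
      constructor
      · rintro ⟨hab, ha, hb⟩
        refine ⟨?_, hab⟩
        have hne := hab.ne
        rcases ha with rfl | rfl | rfl <;> rcases hb with rfl | rfl | rfl <;>
          simp_all [Sym2.eq_swap]
      · rintro ⟨he, hab⟩
        refine ⟨hab, ?_⟩
        simp only [Sym2.eq_iff] at he
        rcases he with (⟨rfl, rfl⟩ | ⟨rfl, rfl⟩) | (⟨rfl, rfl⟩ | ⟨rfl, rfl⟩) |
          (⟨rfl, rfl⟩ | ⟨rfl, rfl⟩) <;> simp
  have h1 : s(x, y) ≠ s(y, z) := by
    intro h; rw [Sym2.eq_iff] at h; rcases h with ⟨h, _⟩ | ⟨h, _⟩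
    · exact hxy h
    · exact hxz h
  have h2 : s(x, y) ≠ s(x, z) := by
    intro h; rw [Sym2.eq_iff] at h; rcases h with ⟨_, h⟩ | ⟨h, _⟩
    · exact hyz h
    · exact hxz h
  have h3 : s(y, z) ≠ s(x, z) := by
    intro h; rw [Sym2.eq_iff] at h; rcases h with ⟨h, _⟩ | ⟨h, _⟩
    · exact hxy h.symm
    · exact hyz h
  unfold edgesIn
  rw [hset, Set.ncard_coe_finset, Finset.card_filter]
  rw [Finset.sum_insert (by simp [h1, h2]), Finset.sum_insert (by simp [h3]),
    Finset.sum_singleton]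
  unfold ad
  simp only [SimpleGraph.mem_edgeSet]
  push_cast
  ring_nf

/-- Sums over ordered triples of distinct vertices. -/
lemma sum_triples (F : Finset (Fin n) → ℝ) :
    ∑ x, ∑ y, ∑ z, (if x ≠ y ∧ y ≠ z ∧ x ≠ z then F {x, y, z} else 0)
      = 6 * ∑ s ∈ powersetCard 3 (univ : Finset (Fin n)), F s := by
  classical
  have h1 : ∑ x, ∑ y, ∑ z, (if x ≠ y ∧ y ≠ z ∧ x ≠ z then F {x, y, z} else 0)
      = ∑ t ∈ (univ : Finset (Fin n × Fin n × Fin n)).filter
          (fun t => t.1 ≠ t.2.1 ∧ t.2.1 ≠ t.2.2 ∧ t.1 ≠ t.2.2), F {t.1, t.2.1, t.2.2} := by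
    rw [Finset.sum_filter, Fintype.sum_prod_type]
    refine Finset.sum_congr rfl fun x _ => ?_
    rw [Fintype.sum_prod_type]
  rw [h1, ← Finset.sum_fiberwise_of_maps_to (s := (univ : Finset (Fin n × Fin n × Fin n)).filter
          (fun t => t.1 ≠ t.2.1 ∧ t.2.1 ≠ t.2.2 ∧ t.1 ≠ t.2.2))
        (t := powersetCard 3 (univ : Finset (Fin n)))
        (g := fun t => ({t.1, t.2.1, t.2.2} : Finset (Fin n))), Finset.mul_sum]
  · refine Finset.sum_congr rfl fun s hs => ?_
    rw [Finset.mem_powersetCard] at hs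
    obtain ⟨a, b, c, hab, hac, hbc, rfl⟩ := Finset.card_eq_three.mp hs.2
    have h2 : ∀ t ∈ ((univ : Finset (Fin n × Fin n × Fin n)).filter
          (fun t => t.1 ≠ t.2.1 ∧ t.2.1 ≠ t.2.2 ∧ t.1 ≠ t.2.2)).filter
          (fun t => ({t.1, t.2.1, t.2.2} : Finset (Fin n)) = {a, b, c}),
          F {t.1, t.2.1, t.2.2} = F {a, b, c} := by
      intro t ht
      rw [Finset.mem_filter] at ht
      rw [ht.2]
    rw [Finset.sum_congr rfl h2, Finset.sum_const, nsmul_eq_mul]
    congr 1
    have h3 : ((univ : Finset (Fin n × Fin n × Fin n)).filter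
          (fun t => t.1 ≠ t.2.1 ∧ t.2.1 ≠ t.2.2 ∧ t.1 ≠ t.2.2)).filter
          (fun t => ({t.1, t.2.1, t.2.2} : Finset (Fin n)) = {a, b, c})
        = {(a, b, c), (a, c, b), (b, a, c), (b, c, a), (c, a, b), (c, b, a)} := by
      ext ⟨x, y, z⟩
      simp only [Finset.mem_filter, Finset.mem_univ, true_and, Finset.mem_insert,
        Finset.mem_singleton, Prod.mk.injEq]
      constructor
      · rintro ⟨⟨hxy, hyz, hxz⟩, he⟩
        have hx : x ∈ ({a, b, c} : Finset (Fin n)) := by rw [← he]; simp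
        have hy : y ∈ ({a, b, c} : Finset (Fin n)) := by rw [← he]; simp
        have hz : z ∈ ({a, b, c} : Finset (Fin n)) := by rw [← he]; simp
        simp only [Finset.mem_insert, Finset.mem_singleton] at hx hy hz
        rcases hx with hx | hx | hx <;> rcases hy with hy | hy | hy <;>
          first
          | exact absurd (hx.trans hy.symm) hxy
          | (rcases hz with hz | hz | hz <;>
              first
              | exact absurd (hx.trans hz.symm) hxz
              | exact absurd (hy.trans hz.symm) hyz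
              | (rw [hx, hy, hz]; simp))
      · rintro (⟨rfl, rfl, rfl⟩ | ⟨rfl, rfl, rfl⟩ | ⟨rfl, rfl, rfl⟩ | ⟨rfl, rfl, rfl⟩ |
          ⟨rfl, rfl, rfl⟩ | ⟨rfl, rfl, rfl⟩)
        · exact ⟨⟨hab, hbc, hac⟩, rfl⟩
        · exact ⟨⟨hac, Ne.symm hbc, hab⟩, by
            ext r; simp only [Finset.mem_insert, Finset.mem_singleton]; tauto⟩
        · exact ⟨⟨Ne.symm hab, hac, hbc⟩, by
            ext r; simp only [Finset.mem_insert, Finset.mem_singleton]; tauto⟩
        · exact ⟨⟨hbc, Ne.symm hac, Ne.symm hab⟩, by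
            ext r; simp only [Finset.mem_insert, Finset.mem_singleton]; tauto⟩
        · exact ⟨⟨Ne.symm hac, hab, Ne.symm hbc⟩, by
            ext r; simp only [Finset.mem_insert, Finset.mem_singleton]; tauto⟩
        · exact ⟨⟨Ne.symm hbc, Ne.symm hab, Ne.symm hac⟩, by
            ext r; simp only [Finset.mem_insert, Finset.mem_singleton]; tauto⟩
    rw [h3]
    have n1 : ((a, b, c) : Fin n × Fin n × Fin n) ∉ ({(a, c, b), (b, a, c), (b, c, a), (c, a, b),
        (c, b, a)} : Finset (Fin n × Fin n × Fin n)) := by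
      simp only [Finset.mem_insert, Finset.mem_singleton, Prod.mk.injEq]
      rintro (⟨_, h, _⟩ | ⟨h, _, _⟩ | ⟨h, _, _⟩ | ⟨h, _, _⟩ | ⟨h, _, _⟩)
      · exact hbc h
      · exact hab h
      · exact hab h
      · exact hac h
      · exact hac h
    have n2 : ((a, c, b) : Fin n × Fin n × Fin n) ∉ ({(b, a, c), (b, c, a), (c, a, b),
        (c, b, a)} : Finset (Fin n × Fin n × Fin n)) := by
      simp only [Finset.mem_insert, Finset.mem_singleton, Prod.mk.injEq]
      rintro (⟨h, _, _⟩ | ⟨h, _, _⟩ | ⟨h, _, _⟩ | ⟨h, _, _⟩)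
      · exact hab h
      · exact hab h
      · exact hac h
      · exact hac h
    have n3 : ((b, a, c) : Fin n × Fin n × Fin n) ∉ ({(b, c, a), (c, a, b),
        (c, b, a)} : Finset (Fin n × Fin n × Fin n)) := by
      simp only [Finset.mem_insert, Finset.mem_singleton, Prod.mk.injEq]
      rintro (⟨_, h, _⟩ | ⟨h, _, _⟩ | ⟨h, _, _⟩)
      · exact hac h
      · exact hbc h
      · exact hbc h
    have n4 : ((b, c, a) : Fin n × Fin n × Fin n) ∉ ({(c, a, b),
        (c, b, a)} : Finset (Fin n × Fin n × Fin n)) := by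
      simp only [Finset.mem_insert, Finset.mem_singleton, Prod.mk.injEq]
      rintro (⟨h, _, _⟩ | ⟨h, _, _⟩)
      · exact hbc h
      · exact hbc h
    have n5 : ((c, a, b) : Fin n × Fin n × Fin n) ∉ ({(c, b, a)} :
        Finset (Fin n × Fin n × Fin n)) := by
      simp only [Finset.mem_singleton, Prod.mk.injEq]
      rintro ⟨_, h, _⟩
      exact hab h
    rw [Finset.card_insert_of_notMem n1, Finset.card_insert_of_notMem n2,
      Finset.card_insert_of_notMem n3, Finset.card_insert_of_notMem n4,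
      Finset.card_insert_of_notMem n5, Finset.card_singleton]
    norm_num
  · intro t ht
    rw [Finset.mem_filter] at ht
    rw [Finset.mem_powersetCard]
    exact ⟨Finset.subset_univ _, Finset.card_eq_three.mpr
      ⟨t.1, t.2.1, t.2.2, ht.2.1, ht.2.2.2, ht.2.2.1, rfl⟩⟩

lemma six_choose (hn : 3 ≤ n) : (6 : ℝ) * (n.choose 3 : ℝ) = n * (n - 1) * (n - 2) := by
  obtain ⟨m, rfl⟩ : ∃ m, n = m + 3 := ⟨n - 3, by omega⟩
  have h := Nat.descFactorial_eq_factorial_mul_choose (m + 3) 3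
  have h2 : (m + 3).descFactorial 3 = (m + 1) * ((m + 2) * (m + 3)) := by
    simp [Nat.descFactorial_succ]
  rw [h2] at h
  have h3 : (3 : ℕ).factorial = 6 := rfl
  rw [h3] at h
  have h4 : ((m : ℝ) + 1) * ((m + 2) * (m + 3)) = 6 * ((m + 3).choose 3 : ℝ) := by
    exact_mod_cast h
  push_cast
  rw [← h4]; ring

lemma choose_pos (hn : 3 ≤ n) : (0 : ℝ) < (n.choose 3 : ℝ) := by
  exact_mod_cast Nat.choose_pos hn

/-- Densities as sums over the 3-sets. -/
lemma dens_eq (G : SimpleGraph (Fin n)) (i : ℕ) :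
    dens G i = (∑ s ∈ powersetCard 3 (univ : Finset (Fin n)),
      (if edgesIn G s = i then (1 : ℝ) else 0)) / (n.choose 3 : ℝ) := by
  classical
  unfold dens
  congr 1
  rw [← Finset.sum_filter, Finset.sum_const, nsmul_eq_mul, mul_one]
  congr 1
  rw [← Set.ncard_coe_finset]
  congr 1
  ext s
  simp [Finset.mem_powersetCard]

lemma dens_eq' (hn : 3 ≤ n) (G : SimpleGraph (Fin n)) (i : ℕ) (V : ℝ)
    (hV : ∑ x, ∑ y, ∑ z, (if x ≠ y ∧ y ≠ z ∧ x ≠ z then
      (if edgesIn G {x, y, z} = i then (1 : ℝ) else 0) else 0) = V) :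
    dens G i = V / (n * (n - 1) * (n - 2)) := by
  have h := sum_triples (fun s : Finset (Fin n) => if edgesIn G s = i then (1 : ℝ) else 0)
  rw [hV] at h
  rw [dens_eq, h, ← six_choose hn]
  have := choose_pos hn
  field_simp

/-- Indicator of exactly `i` edges. -/
lemma ind_eq (G : SimpleGraph (Fin n)) {x y z : Fin n} (hxy : x ≠ y) (hyz : y ≠ z)
    (hxz : x ≠ z) (i : ℕ) :
    (if edgesIn G {x, y, z} = i then (1 : ℝ) else 0) =
      (if ad G x y + ad G y z + ad G x z = (i : ℝ) then (1 : ℝ) else 0) := by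
  have h := edgesIn_triple G hxy hyz hxz
  have h2 : edgesIn G {x, y, z} = i ↔ ad G x y + ad G y z + ad G x z = (i : ℝ) := by
    rw [← h]; exact_mod_cast Iff.rfl
  simp only [h2]

lemma ad_cases (G : SimpleGraph (Fin n)) (x y : Fin n) : ad G x y = 0 ∨ ad G x y = 1 := by
  by_cases h : G.Adj x y
  · right; exact ad_of_adj h
  · left; exact ad_of_not_adj h

/-- sum of the cherries. -/
lemma sum_cherry (G : SimpleGraph (Fin n)) :
    ∑ x, ∑ y, ∑ z, ad G x y * ad G y z = S2 G := by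
  unfold S2
  rw [Finset.sum_comm]
  refine Finset.sum_congr rfl fun y _ => ?_
  rw [sq, Finset.sum_mul_sum]
  refine Finset.sum_congr rfl fun x _ => ?_
  refine Finset.sum_congr rfl fun z _ => ?_
  rw [ad_symm G x y]

lemma sum_cherry' (G : SimpleGraph (Fin n)) :
    ∑ x, ∑ y, ∑ z, ad G x y * ad G x z = S2 G := by
  unfold S2
  refine Finset.sum_congr rfl fun x _ => ?_
  rw [sq, Finset.sum_mul_sum]

lemma sum_diag (G : SimpleGraph (Fin n)) :
    ∑ x, ∑ y, ∑ z, (if x = z then ad G x y * ad G y z else 0) = S1 G := by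
  unfold S1
  refine Finset.sum_congr rfl fun x _ => ?_
  refine Finset.sum_congr rfl fun y _ => ?_
  rw [Finset.sum_ite_eq]
  simp [ad_symm G y x, ad_sq]

/-- sum of the induced cherries with a given centre. -/
lemma sum_two (G : SimpleGraph (Fin n)) :
    ∑ x, ∑ y, ∑ z, (if x ≠ y ∧ y ≠ z ∧ x ≠ z then
      ad G x y * ad G y z * (1 - ad G x z) else 0) = S2 G - S1 G - S3 G := by
  have hp : ∀ x y z : Fin n, (if x ≠ y ∧ y ≠ z ∧ x ≠ z then
      ad G x y * ad G y z * (1 - ad G x z) else 0)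
      = ad G x y * ad G y z - (if x = z then ad G x y * ad G y z else 0)
        - ad G x y * ad G y z * ad G x z := by
    intro x y z
    by_cases hxy : x = y
    · subst hxy; simp [ad_self]
    by_cases hyz : y = z
    · subst hyz; simp [ad_self]
    by_cases hxz : x = z
    · subst hxz; simp [ad_self]
    rw [if_pos ⟨hxy, hyz, hxz⟩, if_neg hxz]; ring
  simp only [hp, Finset.sum_sub_distrib]
  rw [sum_cherry, sum_diag]; rfl

/-- the three positions of the centre contribute the same. -/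
lemma sum_perm1 (f : Fin n → Fin n → Fin n → ℝ) :
    ∑ x, ∑ y, ∑ z, f y x z = ∑ x, ∑ y, ∑ z, f x y z := by
  rw [Finset.sum_comm]

lemma sum_perm2 (f : Fin n → Fin n → Fin n → ℝ) :
    ∑ x, ∑ y, ∑ z, f x z y = ∑ x, ∑ y, ∑ z, f x y z := by
  refine Finset.sum_congr rfl fun x _ => ?_
  rw [Finset.sum_comm]

lemma sum_one (G : SimpleGraph (Fin n)) :
    ∑ x, ∑ y, ∑ z, (if x ≠ y ∧ y ≠ z ∧ x ≠ z then
      ad G x y * (1 - ad G y z) * (1 - ad G x z) else 0)
      = (n - 2) * S1 G - 2 * (S2 G - S1 G) + S3 G := by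
  have hp : ∀ x y z : Fin n, (if x ≠ y ∧ y ≠ z ∧ x ≠ z then
      ad G x y * (1 - ad G y z) * (1 - ad G x z) else 0)
      = ad G x y - ad G x y * ad G y z - ad G x y * ad G x z
        + ad G x y * ad G y z * ad G x z
        + (if y = z then ad G x y * ad G x z - ad G x y else 0)
        + (if x = z then ad G x y * ad G y z - ad G x y else 0) := by
    intro x y z
    by_cases hxy : x = y
    · subst hxy; simp [ad_self]
    by_cases hyz : y = z
    · subst hyz; simp [ad_self, hxy]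
    by_cases hxz : x = z
    · subst hxz; simp [ad_self, hyz]
    rw [if_pos ⟨hxy, hyz, hxz⟩, if_neg hxz, if_neg hyz]; ring
  simp only [hp, Finset.sum_add_distrib, Finset.sum_sub_distrib]
  rw [sum_cherry, sum_cherry']
  have h1 : ∑ x : Fin n, ∑ y, ∑ z : Fin n, ad G x y = n * S1 G := by
    unfold S1
    rw [Finset.mul_sum]
    refine Finset.sum_congr rfl fun x _ => ?_
    rw [Finset.mul_sum]
    refine Finset.sum_congr rfl fun y _ => ?_
    simp
  have h2 : ∑ x : Fin n, ∑ y, ∑ z, (if y = z then ad G x y * ad G x z - ad G x y else 0) = 0 := by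
    refine Finset.sum_eq_zero fun x _ => Finset.sum_eq_zero fun y _ => ?_
    rw [Finset.sum_ite_eq]; simp [ad_sq]
  have h3 : ∑ x : Fin n, ∑ y, ∑ z, (if x = z then ad G x y * ad G y z - ad G x y else 0) = 0 := by
    refine Finset.sum_eq_zero fun x _ => Finset.sum_eq_zero fun y _ => ?_
    rw [Finset.sum_ite_eq]; simp [ad_symm G y x, ad_sq]
  rw [h1, h2, h3]
  unfold S3
  ring

end Cnt

open Cnt

theorem dens_three {n : ℕ} (hn : 3 ≤ n) (G : SimpleGraph (Fin n)) :
    dens G 3 = S3 G / (n * (n - 1) * (n - 2)) := by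
  apply dens_eq' hn
  unfold S3
  refine Finset.sum_congr rfl fun x _ => ?_
  refine Finset.sum_congr rfl fun y _ => ?_
  refine Finset.sum_congr rfl fun z _ => ?_
  by_cases hxy : x = y
  · subst hxy; simp [ad_self]
  by_cases hyz : y = z
  · subst hyz; simp [ad_self]
  by_cases hxz : x = z
  · subst hxz; simp [ad_self]
  rw [if_pos ⟨hxy, hyz, hxz⟩, ind_eq G hxy hyz hxz]
  rcases ad_cases G x y with h1 | h1 <;> rcases ad_cases G y z with h2 | h2 <;>
    rcases ad_cases G x z with h3 | h3 <;> rw [h1, h2, h3] <;> norm_num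

theorem dens_two {n : ℕ} (hn : 3 ≤ n) (G : SimpleGraph (Fin n)) :
    dens G 2 = 3 * (S2 G - S1 G - S3 G) / (n * (n - 1) * (n - 2)) := by
  apply dens_eq' hn
  let f : Fin n → Fin n → Fin n → ℝ := fun x y z => if x ≠ y ∧ y ≠ z ∧ x ≠ z then
      ad G x y * ad G y z * (1 - ad G x z) else 0
  have hf : ∑ x, ∑ y, ∑ z, f x y z = S2 G - S1 G - S3 G := sum_two G
  have hp : ∀ x y z : Fin n, (if x ≠ y ∧ y ≠ z ∧ x ≠ z then
      (if edgesIn G {x, y, z} = 2 then (1 : ℝ) else 0) else 0)
      = f x y z + f y x z + f x z y := by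
    intro x y z
    simp only [f]
    by_cases hxy : x = y
    · subst hxy; simp
    by_cases hyz : y = z
    · subst hyz; simp
    by_cases hxz : x = z
    · subst hxz; simp
    have c1 : x ≠ y ∧ y ≠ z ∧ x ≠ z := ⟨hxy, hyz, hxz⟩
    have c2 : y ≠ x ∧ x ≠ z ∧ y ≠ z := ⟨Ne.symm hxy, hxz, hyz⟩
    have c3 : x ≠ z ∧ z ≠ y ∧ x ≠ y := ⟨hxz, Ne.symm hyz, hxy⟩
    simp only [if_pos c1, if_pos c2, if_pos c3]
    rw [ind_eq G hxy hyz hxz, ad_symm G y x, ad_symm G z y]
    rcases ad_cases G x y with h1 | h1 <;> rcases ad_cases G y z with h2 | h2 <;>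
      rcases ad_cases G x z with h3 | h3 <;> rw [h1, h2, h3] <;> norm_num
  simp only [hp, Finset.sum_add_distrib]
  rw [sum_perm1 f, sum_perm2 f, hf]; ring

theorem dens_one {n : ℕ} (hn : 3 ≤ n) (G : SimpleGraph (Fin n)) :
    dens G 1 = 3 * ((n - 2) * S1 G - 2 * (S2 G - S1 G) + S3 G) / (n * (n - 1) * (n - 2)) := by
  apply dens_eq' hn
  let f : Fin n → Fin n → Fin n → ℝ := fun x y z => if x ≠ y ∧ y ≠ z ∧ x ≠ z then
      ad G x y * (1 - ad G y z) * (1 - ad G x z) else 0
  have hf : ∑ x, ∑ y, ∑ z, f x y z = (n - 2) * S1 G - 2 * (S2 G - S1 G) + S3 G := sum_one G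
  have hp : ∀ x y z : Fin n, (if x ≠ y ∧ y ≠ z ∧ x ≠ z then
      (if edgesIn G {x, y, z} = 1 then (1 : ℝ) else 0) else 0)
      = f x y z + f x z y + f z y x := by
    intro x y z
    simp only [f]
    by_cases hxy : x = y
    · subst hxy; simp
    by_cases hyz : y = z
    · subst hyz; simp
    by_cases hxz : x = z
    · subst hxz; simp
    have c1 : x ≠ y ∧ y ≠ z ∧ x ≠ z := ⟨hxy, hyz, hxz⟩
    have c2 : x ≠ z ∧ z ≠ y ∧ x ≠ y := ⟨hxz, Ne.symm hyz, hxy⟩
    have c3 : z ≠ y ∧ y ≠ x ∧ z ≠ x := ⟨Ne.symm hyz, Ne.symm hxy, Ne.symm hxz⟩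
    simp only [if_pos c1, if_pos c2, if_pos c3]
    rw [ind_eq G hxy hyz hxz, ad_symm G z y, ad_symm G y x, ad_symm G z x]
    rcases ad_cases G x y with h1 | h1 <;> rcases ad_cases G y z with h2 | h2 <;>
      rcases ad_cases G x z with h3 | h3 <;> rw [h1, h2, h3] <;> norm_num
  simp only [hp, Finset.sum_add_distrib]
  have h2 : ∑ x, ∑ y, ∑ z, f z y x = ∑ x, ∑ y, ∑ z, f x y z := by
    rw [← sum_perm1 (fun x y z => f z y x), ← sum_perm2 (fun x y z => f z x y),
      sum_perm1 (fun x y z => f y x z)]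
  rw [sum_perm2 f, h2, hf]; ring

theorem dens_zero {n : ℕ} (hn : 3 ≤ n) (G : SimpleGraph (Fin n)) :
    dens G 0 = 1 - dens G 1 - dens G 2 - dens G 3 := by
  classical
  have hpos := choose_pos hn
  have key : ∑ s ∈ Finset.powersetCard 3 (Finset.univ : Finset (Fin n)),
      ((if edgesIn G s = 0 then (1 : ℝ) else 0) + (if edgesIn G s = 1 then (1 : ℝ) else 0)
        + (if edgesIn G s = 2 then (1 : ℝ) else 0) + (if edgesIn G s = 3 then (1 : ℝ) else 0))
      = (n.choose 3 : ℝ) := by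
    have h1 : ∀ s ∈ Finset.powersetCard 3 (Finset.univ : Finset (Fin n)),
      ((if edgesIn G s = 0 then (1 : ℝ) else 0) + (if edgesIn G s = 1 then (1 : ℝ) else 0)
        + (if edgesIn G s = 2 then (1 : ℝ) else 0) + (if edgesIn G s = 3 then (1 : ℝ) else 0))
        = 1 := by
      intro s hs
      rw [Finset.mem_powersetCard] at hs
      obtain ⟨a, b, c, hab, hac, hbc, rfl⟩ := Finset.card_eq_three.mp hs.2
      have h := edgesIn_triple G hab hbc hac
      rcases ad_cases G a b with h1 | h1 <;> rcases ad_cases G b c with h2 | h2 <;>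
      rcases ad_cases G a c with h3 | h3 <;> rw [h1, h2, h3] at h <;> norm_num at h <;>
      · try rw [show ((2 : ℝ)) = ((2 : ℕ) : ℝ) by norm_num] at h
        try rw [show ((3 : ℝ)) = ((3 : ℕ) : ℝ) by norm_num] at h
        norm_cast at h
        simp [h]
    rw [Finset.sum_congr rfl h1]
    simp [Finset.card_powersetCard]
  rw [dens_eq, dens_eq, dens_eq, dens_eq]
  simp only [Finset.sum_add_distrib] at key
  field_simp
  linarith

end LibProf47
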