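import Mathlib
import Pool.Agent.LibProf47.Blow
import Pool.Agent.LibProf47.Counting

set_option autoImplicit false

namespace LibProf47

open Filter Topology

theorem blow_mem (k : ℕ) (B : Fin k → Fin k → ℝ) (hB : ∀ i j, B i j = 0 ∨ B i j = 1)
    (hs : ∀ i j, B i j = B j i) (l : Fin k → ℝ) (hl : ∀ i, 0 ≤ l i) (h1 : ∑ i, l i = 1) :
    pt (∑ i, ∑ j, l i * l j * B i j) (∑ i, l i * (∑ j, l j * B i j) ^ 2)
      (∑ i, ∑ j, ∑ m, l i * l j * l m * (B i j * B j m * B i m)) ∈ Profile :=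
  blow_mem_aux k B hB hs l hl h1 (fun h G => dens_three h G) (fun h G => dens_two h G)
    (fun h G => dens_one h G) (fun h G => dens_zero h G)

end LibProf47
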