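import Mathlib
import Pool.Agent.LibProf47.Base

set_option autoImplicit false

namespace LibProf47

namespace Compression

open Matrix

variable {n : ℕ}

/-- the adjacency matrix -/
noncomputable def mt (G : SimpleGraph (Fin n)) : Matrix (Fin n) (Fin n) ℝ :=
  Matrix.of (ad G)

lemma mt_apply (G : SimpleGraph (Fin n)) (x y : Fin n) : mt G x y = ad G x y := rfl

lemma ad_comm (G : SimpleGraph (Fin n)) (x y : Fin n) : ad G x y = ad G y x := by
  classical
  have h : G.Adj x y ↔ G.Adj y x := G.adj_comm x y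
  unfold ad
  by_cases h1 : G.Adj x y
  · rw [if_pos h1, if_pos (h.1 h1)]
  · rw [if_neg h1, if_neg fun h2 => h1 (h.2 h2)]

lemma ad_nonneg (G : SimpleGraph (Fin n)) (x y : Fin n) : 0 ≤ ad G x y := by
  unfold ad
  split_ifs <;> norm_num

lemma ad_le_one (G : SimpleGraph (Fin n)) (x y : Fin n) : ad G x y ≤ 1 := by
  unfold ad
  split_ifs <;> norm_num

lemma mt_transpose (G : SimpleGraph (Fin n)) : (mt G)ᵀ = mt G := by
  ext x y
  rw [transpose_apply, mt_apply, mt_apply, ad_comm]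

lemma S1_eq (G : SimpleGraph (Fin n)) : S1 G = (1 : Fin n → ℝ) ⬝ᵥ (mt G *ᵥ 1) := by
  simp [S1, dotProduct, mulVec, mt_apply]

lemma S2_eq (G : SimpleGraph (Fin n)) : S2 G = (mt G *ᵥ 1) ⬝ᵥ (mt G *ᵥ 1) := by
  simp [S2, dotProduct, mulVec, mt_apply, sq]

lemma S3_eq (G : SimpleGraph (Fin n)) : S3 G = trace (mt G * mt G * mt G) := by
  simp only [S3, trace, diag_apply, mul_apply, Finset.sum_mul]
  apply Finset.sum_congr rfl
  intro x _
  rw [Finset.sum_comm]
  apply Finset.sum_congr rfl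
  intro y _
  apply Finset.sum_congr rfl
  intro z _
  simp only [mt_apply]
  rw [ad_comm G y x]

/-- the perturbation -/
def wt (u b : Fin n → ℝ) : Matrix (Fin n) (Fin n) ℝ := vecMulVec u b + vecMulVec b u

lemma trace_cube (M : Matrix (Fin n) (Fin n) ℝ) (hM : Mᵀ = M) (u b : Fin n → ℝ)
    (hub : u ⬝ᵥ b = 0) :
    trace ((M + wt u b) * (M + wt u b) * (M + wt u b)) = trace (M * M * M)
      + 6 * ((M *ᵥ u) ⬝ᵥ (M *ᵥ b)) + 3 * (b ⬝ᵥ b) * (u ⬝ᵥ (M *ᵥ u))
      + 3 * (u ⬝ᵥ u) * (b ⬝ᵥ (M *ᵥ b)) := by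
  have hbu : b ⬝ᵥ u = 0 := by rw [dotProduct_comm]; exact hub
  have hv : ∀ v : Fin n → ℝ, v ᵥ* M = M *ᵥ v := by
    intro v
    conv_rhs => rw [← hM]
    rw [mulVec_transpose]
  set W := wt u b with hW
  have hWW : W * W = (b ⬝ᵥ b) • vecMulVec u u + (u ⬝ᵥ u) • vecMulVec b b := by
    rw [hW, wt]
    simp only [add_mul, mul_add, vecMulVec_mul_vecMulVec, hub, hbu, zero_smul]
    simp [add_comm]
  have hWWW : trace (W * W * W) = 0 := by
    rw [hWW, hW, wt]
    simp only [add_mul, mul_add, smul_mul, vecMulVec_mul_vecMulVec, hub, hbu, zero_smul]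
    simp [trace_vecMulVec, hub, hbu]
  have h1 : trace (M * M * W) = 2 * ((M *ᵥ u) ⬝ᵥ (M *ᵥ b)) := by
    rw [hW, wt, mul_add, trace_add, mul_vecMulVec, mul_vecMulVec, trace_vecMulVec, trace_vecMulVec,
      ← mulVec_mulVec, ← mulVec_mulVec]
    have e1 : (M *ᵥ (M *ᵥ u)) ⬝ᵥ b = (M *ᵥ u) ⬝ᵥ (M *ᵥ b) := by
      rw [dotProduct_mulVec, hv]
    have e2 : (M *ᵥ (M *ᵥ b)) ⬝ᵥ u = (M *ᵥ u) ⬝ᵥ (M *ᵥ b) := by
      rw [dotProduct_comm, dotProduct_mulVec, hv]
    rw [e1, e2]; ring
  have h2 : trace (M * (W * W)) = (b ⬝ᵥ b) * (u ⬝ᵥ (M *ᵥ u)) + (u ⬝ᵥ u) * (b ⬝ᵥ (M *ᵥ b)) := by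
    rw [hWW, mul_add, trace_add, Matrix.mul_smul, Matrix.mul_smul, trace_smul, trace_smul,
      mul_vecMulVec, mul_vecMulVec, trace_vecMulVec, trace_vecMulVec, dotProduct_comm (M *ᵥ u),
      dotProduct_comm (M *ᵥ b)]
    simp [smul_eq_mul]
  have hexp : trace ((M + W) * (M + W) * (M + W)) = trace (M * M * M) + 3 * trace (M * M * W)
      + 3 * trace (M * (W * W)) + trace (W * W * W) := by
    have e : (M + W) * (M + W) * (M + W) = M * M * M + M * M * W + M * W * M + W * M * M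
        + M * W * W + W * M * W + W * W * M + W * W * W := by noncomm_ring
    rw [e]
    simp only [trace_add]
    have t1 : trace (M * W * M) = trace (M * M * W) := by
      rw [trace_mul_comm, ← mul_assoc]
    have t2 : trace (W * M * M) = trace (M * M * W) := by
      rw [mul_assoc, trace_mul_comm]
    have t3 : trace (M * W * W) = trace (M * (W * W)) := by rw [mul_assoc]
    have t4 : trace (W * M * W) = trace (M * (W * W)) := by
      rw [mul_assoc, trace_mul_comm, mul_assoc]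
    have t5 : trace (W * W * M) = trace (M * (W * W)) := by
      rw [trace_mul_comm]
    rw [t1, t2, t3, t4, t5]; ring
  rw [hexp, h1, h2, hWWW]; ring

/-- one compression step -/
lemma step (G : SimpleGraph (Fin n)) (h : ¬ Nested G) :
    ∃ G' : SimpleGraph (Fin n), S1 G' = S1 G ∧ S3 G ≤ S3 G' ∧
      S2 G - S3 G / 3 ≤ S2 G' - S3 G' / 3 ∧ S2 G < S2 G' := by
  classical
  unfold Nested at h
  push Not at h
  obtain ⟨i, j, ⟨k₁, hk1, hik1, hjk1⟩, ⟨k₂, hk2, hjk2, hik2⟩⟩ := h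
  have hij : i ≠ j := by
    rintro rfl
    exact hjk1 hik1
  let A : Finset (Fin n) := Finset.univ.filter fun k => k ≠ j ∧ G.Adj i k ∧ ¬ G.Adj j k
  let B : Finset (Fin n) := Finset.univ.filter fun k => k ≠ i ∧ G.Adj j k ∧ ¬ G.Adj i k
  have hA : ∀ k, k ∈ A ↔ k ≠ j ∧ G.Adj i k ∧ ¬ G.Adj j k := by intro k; simp [A]
  have hB : ∀ k, k ∈ B ↔ k ≠ i ∧ G.Adj j k ∧ ¬ G.Adj i k := by intro k; simp [B]
  let G' : SimpleGraph (Fin n) :=
    { Adj := fun x y => (G.Adj x y ∧ ¬ (x = j ∧ y ∈ B) ∧ ¬ (y = j ∧ x ∈ B)) ∨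
        (x = i ∧ y ∈ B) ∨ (y = i ∧ x ∈ B)
      symm := by
        constructor
        intro x y hxy
        rcases hxy with ⟨h1, h2, h3⟩ | h1 | h1
        · exact Or.inl ⟨h1.symm, h3, h2⟩
        · exact Or.inr (Or.inr h1)
        · exact Or.inr (Or.inl h1)
      loopless := by
        constructor
        intro x hx
        rcases hx with ⟨h1, -⟩ | ⟨h1, h2⟩ | ⟨h1, h2⟩
        · exact G.loopless.irrefl x h1
        · exact ((hB x).1 h2).1 h1
        · exact ((hB x).1 h2).1 h1 }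
  let u : Fin n → ℝ := fun x => (if x = i then 1 else 0) - (if x = j then 1 else 0)
  let b : Fin n → ℝ := fun x => if x ∈ B then 1 else 0
  let α : Fin n → ℝ := fun x => if x ∈ A then 1 else 0
  have hiB : i ∉ B := by simp [hB]
  have hjB : j ∉ B := by simp [hB]
  have hiA : i ∉ A := by simp [hA]
  have hjA : j ∉ A := by simp [hA]
  have hAB : ∀ k, k ∈ A → k ∉ B := by
    intro k h1 h2
    exact ((hA k).1 h1).2.2 ((hB k).1 h2).2.1
  have hmt : mt G' = mt G + wt u b := by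
    ext x y
    simp only [mt_apply, Matrix.add_apply, wt, vecMulVec_apply]
    unfold ad
    have hG' : G'.Adj x y ↔ (G.Adj x y ∧ ¬ (x = j ∧ y ∈ B) ∧ ¬ (y = j ∧ x ∈ B)) ∨
        (x = i ∧ y ∈ B) ∨ (y = i ∧ x ∈ B) := Iff.rfl
    by_cases hxi : x = i
    · subst hxi
      by_cases hyB : y ∈ B
      · have h1 := (hB y).1 hyB
        have h2 : y ≠ x := h1.1
        simp [hG', u, b, hyB, hiB, hij, h1.2.2, h2]
      · by_cases hyi : y = x
        · subst hyi; simp [u, b, hyB]
        · simp [hG', u, b, hyB, hiB, hij, hyi]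
    · by_cases hxj : x = j
      · subst hxj
        by_cases hyB : y ∈ B
        · have h1 := (hB y).1 hyB
          simp [hG', u, b, hyB, hjB, hij.symm, h1.2.1, h1.1]
        · simp [hG', u, b, hyB, hjB, hij.symm]
      · by_cases hxB : x ∈ B
        · have h1 := (hB x).1 hxB
          by_cases hyi : y = i
          · subst hyi
            have : ¬ G.Adj x y := fun h => h1.2.2 h.symm
            simp [hG', u, b, hxB, hxi, hxj, this, hij]
          · by_cases hyj : y = j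
            · subst hyj
              have : G.Adj x y := h1.2.1.symm
              simp [hG', u, b, hxB, hxi, hxj, this, hij.symm]
            · simp [hG', u, b, hxB, hxi, hxj, hyi, hyj]
        · simp [hG', u, b, hxB, hxi, hxj]
  -- scalar products
  have hub : u ⬝ᵥ b = 0 := by
    simp [dotProduct, u, b, Finset.sum_sub_distrib, hiB, hjB]
  have huu : u ⬝ᵥ u = 2 := by
    have : ∀ x, u x * u x = (if x = i then 1 else 0) + (if x = j then 1 else 0) := by
      intro x
      by_cases h1 : x = i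
      · subst h1; simp [u, hij]
      · by_cases h2 : x = j
        · subst h2; simp [u, hij.symm]
        · simp [u, h1, h2]
    rw [dotProduct, Finset.sum_congr rfl fun x _ => this x, Finset.sum_add_distrib]
    simp; norm_num
  have hu1 : u ⬝ᵥ 1 = 0 := by simp [dotProduct, u, Finset.sum_sub_distrib]
  have hb1 : b ⬝ᵥ 1 = (B.card : ℝ) := by simp [dotProduct, b]
  have hα1 : α ⬝ᵥ 1 = (A.card : ℝ) := by simp [dotProduct, α]
  have hbb : b ⬝ᵥ b = (B.card : ℝ) := by simp [dotProduct, b]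
  have hαu : α ⬝ᵥ u = 0 := by
    simp [dotProduct, u, α, mul_sub, Finset.sum_sub_distrib, hiA, hjA]
  have hαb : α ⬝ᵥ b = 0 := by
    apply Finset.sum_eq_zero
    intro x _
    by_cases h1 : x ∈ A
    · simp [α, b, h1, hAB x h1]
    · simp [α, h1]
  set M := mt G with hM
  set c := ad G i j with hc
  set β : ℝ := (B.card : ℝ) with hβ
  have hMu : M *ᵥ u = α - b - c • u := by
    funext l
    have e1 : (M *ᵥ u) l = ad G l i - ad G l j := by
      simp [mulVec, dotProduct, u, mul_sub, Finset.sum_sub_distrib, hM, mt_apply]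
    rw [e1]
    simp only [Pi.sub_apply, Pi.smul_apply, smul_eq_mul]
    by_cases h1 : l = i
    · subst h1
      have : ad G l l = 0 := by unfold ad; simp
      simp [α, b, u, hiA, hiB, hij, this, hc]
    · by_cases h2 : l = j
      · subst h2
        have : ad G l l = 0 := by unfold ad; simp
        simp [α, b, u, hjA, hjB, hij.symm, this, hc, ad_comm G l i]
      · have e2 : ad G l i = if G.Adj i l then 1 else 0 := by
          rw [ad_comm]; unfold ad; congr
        have e3 : ad G l j = if G.Adj j l then 1 else 0 := by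
          rw [ad_comm]; unfold ad; congr
        rw [e2, e3]
        by_cases h3 : G.Adj i l
        · by_cases h4 : G.Adj j l
          · simp [α, b, u, hA, hB, h1, h2, h3, h4]
          · simp [α, b, u, hA, hB, h1, h2, h3, h4]
        · by_cases h4 : G.Adj j l
          · simp [α, b, u, hA, hB, h1, h2, h3, h4]
          · simp [α, b, u, hA, hB, h1, h2, h3, h4]
  have hsymm : ∀ v w : Fin n → ℝ, v ⬝ᵥ (M *ᵥ w) = (M *ᵥ v) ⬝ᵥ w := by
    intro v w
    have hT : Mᵀ = M := mt_transpose G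
    rw [dotProduct_mulVec]
    congr 1
    conv_rhs => rw [← hT]
    rw [mulVec_transpose]
  have hub' : b ⬝ᵥ u = 0 := by rw [dotProduct_comm]; exact hub
  have hu1' : (1 : Fin n → ℝ) ⬝ᵥ u = 0 := by rw [dotProduct_comm]; exact hu1
  -- the row sums
  have hrow : mt G' *ᵥ 1 = M *ᵥ 1 + β • u := by
    rw [hmt, add_mulVec, wt, add_mulVec, vecMulVec_mulVec, vecMulVec_mulVec, hb1, hu1]
    simp [hM]
  have hMu1 : (M *ᵥ 1) ⬝ᵥ u = (A.card : ℝ) - β := by
    rw [← hsymm, hMu, dotProduct_sub, dotProduct_sub, dotProduct_smul, hu1', dotProduct_comm 1 α,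
      dotProduct_comm 1 b, hα1, hb1]
    simp
  have hS1 : S1 G' = S1 G := by
    rw [S1_eq, S1_eq, hrow, dotProduct_add, dotProduct_smul, hu1']
    simp [hM]
  have hS2 : S2 G' = S2 G + 2 * β * A.card := by
    rw [S2_eq, S2_eq, hrow]
    simp only [add_dotProduct, dotProduct_add, dotProduct_smul, smul_dotProduct, smul_eq_mul]
    rw [dotProduct_comm u (M *ᵥ 1), hMu1, huu]
    ring
  have huMu : u ⬝ᵥ (M *ᵥ u) = -2 * c := by
    rw [hMu, dotProduct_sub, dotProduct_sub, dotProduct_smul, hub, dotProduct_comm u α, hαu, huu]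
    simp; ring
  have huMb : u ⬝ᵥ (M *ᵥ b) = -β := by
    rw [hsymm, hMu, sub_dotProduct, sub_dotProduct, smul_dotProduct, hub, hαb, hbb]
    simp
  have hS3 : S3 G' = S3 G + 6 * (α ⬝ᵥ (M *ᵥ b)) := by
    rw [S3_eq, S3_eq, hmt, trace_cube _ (mt_transpose G) u b hub, hbb, huu, huMu]
    have : (M *ᵥ u) ⬝ᵥ (M *ᵥ b) = α ⬝ᵥ (M *ᵥ b) - b ⬝ᵥ (M *ᵥ b) + c * β := by
      rw [hMu, sub_dotProduct, sub_dotProduct, smul_dotProduct, huMb]
      simp
    rw [this]; ring
  have hnn : 0 ≤ α ⬝ᵥ (M *ᵥ b) := by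
    apply Finset.sum_nonneg
    intro x _
    apply mul_nonneg
    · simp only [α]; split_ifs <;> norm_num
    · show 0 ≤ ∑ y, ad G x y * b y
      apply Finset.sum_nonneg
      intro y _
      apply mul_nonneg (ad_nonneg G x y)
      simp only [b]; split_ifs <;> norm_num
  have hle : α ⬝ᵥ (M *ᵥ b) ≤ A.card * β := by
    have h1 : ∀ x, (M *ᵥ b) x ≤ β := by
      intro x
      calc (M *ᵥ b) x = ∑ y, ad G x y * b y := rfl
        _ ≤ ∑ y, b y := by
          apply Finset.sum_le_sum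
          intro y _
          have hb0 : 0 ≤ b y := by simp only [b]; split_ifs <;> norm_num
          exact mul_le_of_le_one_left hb0 (ad_le_one G x y)
        _ = β := by rw [← hb1]; simp [dotProduct]
    calc α ⬝ᵥ (M *ᵥ b) ≤ ∑ x, α x * β := by
          apply Finset.sum_le_sum
          intro x _
          apply mul_le_mul_of_nonneg_left (h1 x)
          simp only [α]; split_ifs <;> norm_num
      _ = A.card * β := by
          rw [← Finset.sum_mul, ← hα1]; simp [dotProduct]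
  have hApos : (0 : ℝ) < A.card := by
    have : k₁ ∈ A := (hA k₁).2 ⟨hk1, hik1, hjk1⟩
    exact_mod_cast Finset.card_pos.2 ⟨k₁, this⟩
  have hBpos : (0 : ℝ) < β := by
    have : k₂ ∈ B := (hB k₂).2 ⟨hk2, hjk2, hik2⟩
    rw [hβ]
    exact_mod_cast Finset.card_pos.2 ⟨k₂, this⟩
  refine ⟨G', hS1, ?_, ?_, ?_⟩
  · rw [hS3]; linarith
  · rw [hS3, hS2]; linarith
  · rw [hS2]
    have : 0 < 2 * β * A.card := by positivity
    linarith

end Compression

theorem exists_nested {n : ℕ} (G : SimpleGraph (Fin n)) :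
    ∃ G' : SimpleGraph (Fin n), Nested G' ∧ S1 G' = S1 G ∧ S3 G ≤ S3 G' ∧
      S2 G - S3 G / 3 ≤ S2 G' - S3 G' / 3 := by
  classical
  let 𝒮 : Set (SimpleGraph (Fin n)) := {G' | S1 G' = S1 G ∧ S3 G ≤ S3 G' ∧
      S2 G - S3 G / 3 ≤ S2 G' - S3 G' / 3}
  have hfin : 𝒮.Finite := Set.toFinite _
  have hne : 𝒮.Nonempty := ⟨G, rfl, le_rfl, le_rfl⟩
  obtain ⟨G', hG', hmax⟩ := Set.exists_max_image 𝒮 S2 hfin hne
  refine ⟨G', ?_, hG'.1, hG'.2.1, hG'.2.2⟩
  by_contra hcon
  obtain ⟨G'', h1, h2, h3, h4⟩ := Compression.step G' hcon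
  have := hmax G'' ⟨h1.trans hG'.1, hG'.2.1.trans h2, hG'.2.2.trans h3⟩
  exact absurd h4 (not_lt.2 this)

end LibProf47
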