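import Mathlib
import Pool.Agent.LibProf47.Base

set_option autoImplicit false

/-!
# Two-parameter families at fixed edge and triangle density
-/

namespace LibProf47

open Set Filter Topology

/-- The three-parameter family containing both. -/
def FA (p q t x α z : ℝ) : Prop :=
  0 ≤ x ∧ x ≤ α ∧ 0 ≤ z ∧ α + z ≤ 1 ∧ α ^ 2 + 2 * x * z = p ∧ α ^ 3 + 3 * x ^ 2 * z = t ∧
    α ^ 3 + x * z * (2 * α + x + z) = q

namespace Fam

/-- `h` along the curve of fixed `p`, `t`. -/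
lemma hasDeriv_h (p t s : ℝ) (hB : t - s ^ 3 ≠ 0) :
    HasDerivAt (fun s : ℝ => s * p + t / 3 - s ^ 3 / 3 + 3 / 8 * ((p - s ^ 2) ^ 3 / (t - s ^ 3)))
      ((p - s ^ 2) / (8 * (t - s ^ 3) ^ 2) * ((3 * p * s - s ^ 3 - 2 * t) *
        (s ^ 3 + 3 * p * s - 4 * t))) s := by
  have h1 : HasDerivAt (fun s : ℝ => s * p + t / 3 - s ^ 3 / 3) (1 * p - (3 * s ^ 2) / 3) s :=
    ((((hasDerivAt_id' s).mul_const p).add_const (t / 3)).sub
      ((hasDerivAt_pow 3 s).div_const 3)).congr_deriv (by norm_num)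
  have h5 : HasDerivAt (fun s : ℝ => p - s ^ 2) (-(2 * s)) s :=
    ((hasDerivAt_pow 2 s).const_sub p).congr_deriv (by norm_num)
  have h2 : HasDerivAt (fun s : ℝ => (p - s ^ 2) ^ 3) (3 * (p - s ^ 2) ^ 2 * (-(2 * s))) s :=
    (h5.pow 3).congr_deriv (by norm_num)
  have h3 : HasDerivAt (fun s : ℝ => t - s ^ 3) (-(3 * s ^ 2)) s :=
    ((hasDerivAt_pow 3 s).const_sub t).congr_deriv (by norm_num)
  refine (h1.add ((h2.div h3 hB).const_mul (3 / 8))).congr_deriv ?_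
  field_simp
  ring

lemma hasDeriv_hb (p κ s : ℝ) (hC : κ - 3 * p * s + s ^ 3 ≠ 0) :
    HasDerivAt (fun s : ℝ => s ^ 3 + 9 / 8 * ((p - s ^ 2) ^ 3 / (κ - 3 * p * s + s ^ 3)))
      (3 / (8 * (κ - 3 * p * s + s ^ 3) ^ 2) *
        ((4 * s * (κ - 3 * p * s + s ^ 3) - 3 * (p - s ^ 2) ^ 2) *
          (2 * κ * s - 3 * p ^ 2 - s ^ 4))) s := by
  have h5 : HasDerivAt (fun s : ℝ => p - s ^ 2) (-(2 * s)) s :=
    ((hasDerivAt_pow 2 s).const_sub p).congr_deriv (by norm_num)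
  have h2 : HasDerivAt (fun s : ℝ => (p - s ^ 2) ^ 3) (3 * (p - s ^ 2) ^ 2 * (-(2 * s))) s :=
    (h5.pow 3).congr_deriv (by norm_num)
  have h6 : HasDerivAt (fun s : ℝ => κ - 3 * p * s) (-(3 * p)) s :=
    (((hasDerivAt_id' s).const_mul (3 * p)).const_sub κ).congr_deriv (by ring)
  have h3 : HasDerivAt (fun s : ℝ => κ - 3 * p * s + s ^ 3) (-(3 * p) + 3 * s ^ 2) s :=
    (h6.add (hasDerivAt_pow 3 s)).congr_deriv (by norm_num)
  refine ((hasDerivAt_pow 3 s).add ((h2.div h3 hC).const_mul (9 / 8))).congr_deriv ?_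
  field_simp
  ring


lemma not_localmax {h h' : ℝ → ℝ} {α : ℝ} {U : Set ℝ} (hU : U ∈ 𝓝 α)
    (hd : ∀ s ∈ U, HasDerivAt h (h' s) s)
    (hcase : (∀ s ∈ U, α < s → 0 < h' s) ∨ (∀ s ∈ U, s < α → h' s < 0))
    (hmax : ∀ s ∈ U, h s ≤ h α) : False := by
  obtain ⟨ε, hε, hball⟩ := Metric.mem_nhds_iff.1 hU
  rcases hcase with hc | hc
  · have hlt : α < α + ε / 2 := by linarith
    have hin : ∀ y, α ≤ y → y ≤ α + ε / 2 → y ∈ U := by
      intro y h1 h2
      apply hball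
      rw [Metric.mem_ball, Real.dist_eq, abs_lt]
      constructor <;> linarith
    obtain ⟨c, hc1, hc2⟩ := exists_hasDerivAt_eq_slope h h' hlt
      (fun y hy => (hd y (hin y hy.1 hy.2)).continuousAt.continuousWithinAt)
      (fun y hy => hd y (hin y hy.1.le hy.2.le))
    have h1 := hc c (hin c hc1.1.le hc1.2.le) hc1.1
    have h2 := hmax (α + ε / 2) (hin _ hlt.le le_rfl)
    rw [hc2] at h1
    have h3 : (h (α + ε / 2) - h α) / (α + ε / 2 - α) ≤ 0 :=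
      div_nonpos_of_nonpos_of_nonneg (by linarith) (by linarith)
    linarith
  · have hlt : α - ε / 2 < α := by linarith
    have hin : ∀ y, α - ε / 2 ≤ y → y ≤ α → y ∈ U := by
      intro y h1 h2
      apply hball
      rw [Metric.mem_ball, Real.dist_eq, abs_lt]
      constructor <;> linarith
    obtain ⟨c, hc1, hc2⟩ := exists_hasDerivAt_eq_slope h h' hlt
      (fun y hy => (hd y (hin y hy.1 hy.2)).continuousAt.continuousWithinAt)
      (fun y hy => hd y (hin y hy.1.le hy.2.le))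
    have h1 := hc c (hin c hc1.1.le hc1.2.le) hc1.2
    have h2 := hmax (α - ε / 2) (hin _ le_rfl hlt.le)
    rw [hc2] at h1
    have h3 : 0 ≤ (h α - h (α - ε / 2)) / (α - (α - ε / 2)) :=
      div_nonneg (by linarith) (by linarith)
    linarith

/-- Lemma A: at fixed `p`, `t` the maximum of `q` over the three-parameter family is attained in
`F1` or `F2`. -/
theorem famA {p q t x α z : ℝ} (h : FA p q t x α z) :
    (∃ x' a', F1 p t x' a' ∧ q ≤ q1 x' a') ∨ (∃ b' z', F2 p t b' z' ∧ q ≤ q2 b' z') := by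
  set K : Set (ℝ × ℝ × ℝ) := {v | 0 ≤ v.1 ∧ v.1 ≤ v.2.1 ∧ 0 ≤ v.2.2 ∧ v.2.1 + v.2.2 ≤ 1 ∧
    v.2.1 ^ 2 + 2 * v.1 * v.2.2 = p ∧ v.2.1 ^ 3 + 3 * v.1 ^ 2 * v.2.2 = t} with hK
  have hKc : IsCompact K := by
    apply IsCompact.of_isClosed_subset
      ((isCompact_Icc (a := (0 : ℝ)) (b := 1)).prod
        ((isCompact_Icc (a := (0 : ℝ)) (b := 1)).prod (isCompact_Icc (a := (0 : ℝ)) (b := 1))))
    · have c1 : IsClosed {v : ℝ × ℝ × ℝ | 0 ≤ v.1} := isClosed_le (by fun_prop) (by fun_prop)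
      have c2 : IsClosed {v : ℝ × ℝ × ℝ | v.1 ≤ v.2.1} :=
        isClosed_le (by fun_prop) (by fun_prop)
      have c3 : IsClosed {v : ℝ × ℝ × ℝ | 0 ≤ v.2.2} := isClosed_le (by fun_prop) (by fun_prop)
      have c4 : IsClosed {v : ℝ × ℝ × ℝ | v.2.1 + v.2.2 ≤ 1} :=
        isClosed_le (by fun_prop) (by fun_prop)
      have c5 : IsClosed {v : ℝ × ℝ × ℝ | v.2.1 ^ 2 + 2 * v.1 * v.2.2 = p} :=
        isClosed_eq (by fun_prop) (by fun_prop)
      have c6 : IsClosed {v : ℝ × ℝ × ℝ | v.2.1 ^ 3 + 3 * v.1 ^ 2 * v.2.2 = t} :=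
        isClosed_eq (by fun_prop) (by fun_prop)
      exact c1.inter (c2.inter (c3.inter (c4.inter (c5.inter c6))))
    · rintro ⟨x, α, z⟩ ⟨h1, h2, h3, h4, -, -⟩
      simp only at h1 h2 h3 h4
      simp only [Set.mem_prod, Set.mem_Icc]
      refine ⟨⟨h1, by linarith⟩, ⟨by linarith, by linarith⟩, h3, by linarith⟩
  obtain ⟨hx0, hxa, hz0, haz, hp, ht, hq⟩ := h
  obtain ⟨⟨X, A, Z⟩, hmem, hmax⟩ := hKc.exists_isMaxOn
    (f := fun v : ℝ × ℝ × ℝ => v.2.1 ^ 3 + v.1 * v.2.2 * (2 * v.2.1 + v.1 + v.2.2))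
    ⟨(x, α, z), hx0, hxa, hz0, haz, hp, ht⟩ (by fun_prop)
  have hq' : q ≤ A ^ 3 + X * Z * (2 * A + X + Z) := by
    have := hmax (show (x, α, z) ∈ K from ⟨hx0, hxa, hz0, haz, hp, ht⟩)
    simp only [Set.mem_ofPred_eq] at this
    linarith
  have hmax' : ∀ x' α' z', 0 ≤ x' → x' ≤ α' → 0 ≤ z' → α' + z' ≤ 1 →
      α' ^ 2 + 2 * x' * z' = p → α' ^ 3 + 3 * x' ^ 2 * z' = t →
      α' ^ 3 + x' * z' * (2 * α' + x' + z') ≤ A ^ 3 + X * Z * (2 * A + X + Z) := by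
    intro x' α' z' h1 h2 h3 h4 h5 h6
    exact hmax (show (x', α', z') ∈ K from ⟨h1, h2, h3, h4, h5, h6⟩)
  obtain ⟨hX0, hXA, hZ0, hAZ, hp', ht'⟩ := hmem
  simp only at hX0 hXA hZ0 hAZ hp' ht'
  have hA0 : 0 ≤ A := hX0.trans hXA
  rcases eq_or_lt_of_le hXA with hXA' | hXA'
  · right
    subst hXA'
    refine ⟨X, Z, ⟨hA0, hZ0, hAZ, by rw [← hp'], by rw [← ht']⟩, ?_⟩
    rw [q2]
    nlinarith [hq']
  rcases eq_or_lt_of_le hAZ with hAZ' | hAZ'
  · left
    have hZ : Z = 1 - A := by linarith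
    subst hZ
    refine ⟨X, A, ⟨hX0, hXA, by linarith, hp', ht'⟩, ?_⟩
    rw [q1]
    nlinarith [hq']
  rcases eq_or_lt_of_le hX0 with hX0' | hX0'
  · left
    rw [← hX0'] at hp' ht' hq'
    refine ⟨0, A, ⟨le_rfl, hA0, by linarith, by linarith, by linarith⟩, ?_⟩
    rw [q1]
    linarith
  rcases eq_or_lt_of_le hZ0 with hZ0' | hZ0'
  · left
    rw [← hZ0'] at hp' ht' hq'
    refine ⟨0, A, ⟨le_rfl, hA0, by linarith, by linarith, by linarith⟩, ?_⟩
    rw [q1]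
    linarith
  exfalso
  have hA : 0 < A := hX0'.trans hXA'
  have hXZ : 0 < X * Z := mul_pos hX0' hZ0'
  have hp0 : 0 < p - A ^ 2 := by rw [← hp']; nlinarith
  have ht0 : 0 < t - A ^ 3 := by
    rw [← ht']
    have : 0 < X ^ 2 * Z := by positivity
    nlinarith
  set xs : ℝ → ℝ := fun s => 2 / 3 * ((t - s ^ 3) / (p - s ^ 2)) with hxs
  set zs : ℝ → ℝ := fun s => 3 / 4 * ((p - s ^ 2) ^ 2 / (t - s ^ 3)) with hzs
  have hxsA : xs A = X := by
    have e1 : p - A ^ 2 = 2 * X * Z := by linarith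
    have e2 : t - A ^ 3 = 3 * X ^ 2 * Z := by linarith
    simp only [hxs]
    rw [e1, e2]
    field_simp
  have hzsA : zs A = Z := by
    have e1 : p - A ^ 2 = 2 * X * Z := by linarith
    have e2 : t - A ^ 3 = 3 * X ^ 2 * Z := by linarith
    simp only [hzs]
    rw [e1, e2]
    field_simp
    norm_num
  have hcp : ContinuousAt (fun s : ℝ => p - s ^ 2) A := by fun_prop
  have hct : ContinuousAt (fun s : ℝ => t - s ^ 3) A := by fun_prop
  have hcx : ContinuousAt xs A := by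
    simp only [hxs]
    exact (hct.div hcp hp0.ne').const_mul _
  have hcz : ContinuousAt zs A := by
    simp only [hzs]
    exact ((hcp.pow 2).div hct ht0.ne').const_mul _
  set U : Set ℝ := {s | 0 < p - s ^ 2 ∧ 0 < t - s ^ 3 ∧ xs s < s ∧ s + zs s < 1 ∧
    0 < 3 * p * s - s ^ 3 - 2 * t} with hU
  have hUn : U ∈ 𝓝 A := by
    have e1 : ∀ᶠ s in 𝓝 A, 0 < p - s ^ 2 := hcp.eventually (lt_mem_nhds hp0)
    have e2 : ∀ᶠ s in 𝓝 A, 0 < t - s ^ 3 := hct.eventually (lt_mem_nhds ht0)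
    have e3 : ∀ᶠ s in 𝓝 A, xs s < s := by
      apply hcx.eventually_lt continuousAt_id
      simpa [hxsA] using hXA'
    have e4 : ∀ᶠ s in 𝓝 A, s + zs s < 1 := by
      have : ContinuousAt (fun s => s + zs s) A := continuousAt_id.add hcz
      exact this.eventually (gt_mem_nhds (by simpa [hzsA] using hAZ'))
    have e5 : ∀ᶠ s in 𝓝 A, 0 < 3 * p * s - s ^ 3 - 2 * t := by
      have : ContinuousAt (fun s : ℝ => 3 * p * s - s ^ 3 - 2 * t) A := by fun_prop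
      refine this.eventually (lt_mem_nhds ?_)
      change 0 < 3 * p * A - A ^ 3 - 2 * t
      have : 3 * p * A - A ^ 3 - 2 * t = 6 * (X * Z) * (A - X) := by
        rw [← hp', ← ht']
        ring
      rw [this]
      have : 0 < A - X := by linarith
      positivity
    filter_upwards [e1, e2, e3, e4, e5] with s h1 h2 h3 h4 h5
    exact ⟨h1, h2, h3, h4, h5⟩
  have hval : ∀ s, 0 < p - s ^ 2 → 0 < t - s ^ 3 →
      s ^ 2 + 2 * xs s * zs s = p ∧ s ^ 3 + 3 * xs s ^ 2 * zs s = t ∧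
      s ^ 3 + xs s * zs s * (2 * s + xs s + zs s) =
        s * p + t / 3 - s ^ 3 / 3 + 3 / 8 * ((p - s ^ 2) ^ 3 / (t - s ^ 3)) := by
    intro s h1 h2
    simp only [hxs, hzs]
    refine ⟨?_, ?_, ?_⟩
    · field_simp
      ring
    · field_simp
      ring
    · field_simp
      ring
  apply not_localmax (α := A) hUn
    (h := fun s : ℝ => s * p + t / 3 - s ^ 3 / 3 + 3 / 8 * ((p - s ^ 2) ^ 3 / (t - s ^ 3)))
    (h' := fun s => (p - s ^ 2) / (8 * (t - s ^ 3) ^ 2) * ((3 * p * s - s ^ 3 - 2 * t) *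
        (s ^ 3 + 3 * p * s - 4 * t)))
  · intro s hs
    exact hasDeriv_h p t s hs.2.1.ne'
  · have hpos : ∀ s ∈ U, 0 < (p - s ^ 2) / (8 * (t - s ^ 3) ^ 2) * (3 * p * s - s ^ 3 - 2 * t) := by
      intro s hs
      have h1 := hs.1
      have h2 := hs.2.1
      have h3 := hs.2.2.2.2
      positivity
    have hppos : 0 < p := by nlinarith [sq_nonneg A]
    rcases le_or_gt 0 (A ^ 3 + 3 * p * A - 4 * t) with hg | hg
    · left
      intro s hs hAs
      have h1 := hpos s hs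
      have h2 : 0 < s ^ 3 + 3 * p * s - 4 * t := by
        have : A ^ 3 < s ^ 3 := by
          apply pow_lt_pow_left₀ hAs hA.le (by norm_num)
        nlinarith
      have := mul_pos h1 h2
      calc (0 : ℝ) < _ := this
        _ = _ := by ring
    · right
      intro s hs hAs
      have h1 := hpos s hs
      have h2 : s ^ 3 + 3 * p * s - 4 * t < 0 := by
        have h0 : 0 < s := by
          have h3 : 0 < xs s := by
            simp only [hxs]
            have := hs.1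
            have := hs.2.1
            positivity
          exact h3.trans hs.2.2.1
        have : s ^ 3 < A ^ 3 := by
          apply pow_lt_pow_left₀ hAs h0.le (by norm_num)
        nlinarith
      have := mul_neg_of_pos_of_neg h1 h2
      calc _ = (p - s ^ 2) / (8 * (t - s ^ 3) ^ 2) * (3 * p * s - s ^ 3 - 2 * t) *
            (s ^ 3 + 3 * p * s - 4 * t) := by ring
        _ < 0 := this
  · intro s hs
    have h1 := hval s hs.1 hs.2.1
    have h2 := hval A hp0 ht0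
    rw [hxsA, hzsA] at h2
    have hxpos : 0 ≤ xs s := by
      simp only [hxs]
      have := hs.1
      have := hs.2.1
      positivity
    have hzpos : 0 ≤ zs s := by
      simp only [hzs]
      have := hs.1
      have := hs.2.1
      positivity
    have h3 := hmax' (xs s) s (zs s) hxpos hs.2.2.1.le hzpos hs.2.2.2.1.le h1.1 h1.2.1
    rw [← h1.2.2, ← h2.2.2]
    exact h3


/-- Lemma B: at fixed `p` and `3 q - t` the maximum of `t` over the three-parameter family is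
attained in `F1` or `F2`. -/
theorem famB {p q t x α z : ℝ} (h : FA p q t x α z) :
    ∃ t', t ≤ t' ∧ ((∃ x' a', F1 p t' x' a' ∧ 3 * q1 x' a' - t' = 3 * q - t) ∨
      (∃ b' z', F2 p t' b' z' ∧ 3 * q2 b' z' - t' = 3 * q - t)) := by
  set κ := 3 * q - t with hκ
  set K : Set (ℝ × ℝ × ℝ) := {v | 0 ≤ v.1 ∧ v.1 ≤ v.2.1 ∧ 0 ≤ v.2.2 ∧ v.2.1 + v.2.2 ≤ 1 ∧
    v.2.1 ^ 2 + 2 * v.1 * v.2.2 = p ∧
    2 * v.2.1 ^ 3 + 6 * v.2.1 * v.1 * v.2.2 + 3 * v.1 * v.2.2 ^ 2 = κ} with hK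
  have hKc : IsCompact K := by
    apply IsCompact.of_isClosed_subset
      ((isCompact_Icc (a := (0 : ℝ)) (b := 1)).prod
        ((isCompact_Icc (a := (0 : ℝ)) (b := 1)).prod (isCompact_Icc (a := (0 : ℝ)) (b := 1))))
    · have c1 : IsClosed {v : ℝ × ℝ × ℝ | 0 ≤ v.1} := isClosed_le (by fun_prop) (by fun_prop)
      have c2 : IsClosed {v : ℝ × ℝ × ℝ | v.1 ≤ v.2.1} :=
        isClosed_le (by fun_prop) (by fun_prop)
      have c3 : IsClosed {v : ℝ × ℝ × ℝ | 0 ≤ v.2.2} := isClosed_le (by fun_prop) (by fun_prop)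
      have c4 : IsClosed {v : ℝ × ℝ × ℝ | v.2.1 + v.2.2 ≤ 1} :=
        isClosed_le (by fun_prop) (by fun_prop)
      have c5 : IsClosed {v : ℝ × ℝ × ℝ | v.2.1 ^ 2 + 2 * v.1 * v.2.2 = p} :=
        isClosed_eq (by fun_prop) (by fun_prop)
      have c6 : IsClosed {v : ℝ × ℝ × ℝ |
          2 * v.2.1 ^ 3 + 6 * v.2.1 * v.1 * v.2.2 + 3 * v.1 * v.2.2 ^ 2 = κ} :=
        isClosed_eq (by fun_prop) (by fun_prop)
      exact c1.inter (c2.inter (c3.inter (c4.inter (c5.inter c6))))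
    · rintro ⟨x, α, z⟩ ⟨h1, h2, h3, h4, -, -⟩
      simp only at h1 h2 h3 h4
      simp only [Set.mem_prod, Set.mem_Icc]
      refine ⟨⟨h1, by linarith⟩, ⟨by linarith, by linarith⟩, h3, by linarith⟩
  obtain ⟨hx0, hxa, hz0, haz, hp, ht, hq⟩ := h
  have hκ0 : 2 * α ^ 3 + 6 * α * x * z + 3 * x * z ^ 2 = κ := by
    rw [hκ, ← hq, ← ht]
    ring
  obtain ⟨⟨X, A, Z⟩, hmem, hmax⟩ := hKc.exists_isMaxOn
    (f := fun v : ℝ × ℝ × ℝ => v.2.1 ^ 3 + 3 * v.1 ^ 2 * v.2.2)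
    ⟨(x, α, z), hx0, hxa, hz0, haz, hp, hκ0⟩ (by fun_prop)
  have hq' : t ≤ A ^ 3 + 3 * X ^ 2 * Z := by
    have := hmax (show (x, α, z) ∈ K from ⟨hx0, hxa, hz0, haz, hp, hκ0⟩)
    simp only [Set.mem_ofPred_eq] at this
    linarith
  have hmax' : ∀ x' α' z', 0 ≤ x' → x' ≤ α' → 0 ≤ z' → α' + z' ≤ 1 →
      α' ^ 2 + 2 * x' * z' = p → 2 * α' ^ 3 + 6 * α' * x' * z' + 3 * x' * z' ^ 2 = κ →
      α' ^ 3 + 3 * x' ^ 2 * z' ≤ A ^ 3 + 3 * X ^ 2 * Z := by
    intro x' α' z' h1 h2 h3 h4 h5 h6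
    exact hmax (show (x', α', z') ∈ K from ⟨h1, h2, h3, h4, h5, h6⟩)
  obtain ⟨hX0, hXA, hZ0, hAZ, hp', ht'⟩ := hmem
  simp only at hX0 hXA hZ0 hAZ hp' ht'
  have hA0 : 0 ≤ A := hX0.trans hXA
  clear_value κ
  refine ⟨A ^ 3 + 3 * X ^ 2 * Z, hq', ?_⟩
  rcases eq_or_lt_of_le hXA with hXA' | hXA'
  · right
    subst hXA'
    refine ⟨X, Z, ⟨hA0, hZ0, hAZ, by rw [← hp'], rfl⟩, ?_⟩
    rw [q2, ← ht']
    ring
  rcases eq_or_lt_of_le hAZ with hAZ' | hAZ'
  · left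
    have hZ : Z = 1 - A := by linarith
    subst hZ
    refine ⟨X, A, ⟨hX0, hXA, by linarith, hp', rfl⟩, ?_⟩
    rw [q1, ← ht']
    ring
  rcases eq_or_lt_of_le hX0 with hX0' | hX0'
  · left
    rw [← hX0'] at hp' ht' ⊢
    refine ⟨0, A, ⟨le_rfl, hA0, by linarith, by linarith, by ring⟩, ?_⟩
    rw [q1]
    linarith
  rcases eq_or_lt_of_le hZ0 with hZ0' | hZ0'
  · left
    rw [← hZ0'] at hp' ht' ⊢
    refine ⟨0, A, ⟨le_rfl, hA0, by linarith, by linarith, by ring⟩, ?_⟩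
    rw [q1]
    linarith
  exfalso
  have hA : 0 < A := hX0'.trans hXA'
  have hXZ : 0 < X * Z := mul_pos hX0' hZ0'
  have hp0 : 0 < p - A ^ 2 := by rw [← hp']; nlinarith
  have hC0 : κ - 3 * p * A + A ^ 3 = 3 * X * Z ^ 2 := by
    rw [← hp', ← ht']
    ring
  have ht0 : 0 < κ - 3 * p * A + A ^ 3 := by
    rw [hC0]
    positivity
  set xs : ℝ → ℝ := fun s => 3 / 4 * ((p - s ^ 2) ^ 2 / (κ - 3 * p * s + s ^ 3)) with hxs
  set zs : ℝ → ℝ := fun s => 2 / 3 * ((κ - 3 * p * s + s ^ 3) / (p - s ^ 2)) with hzs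
  have e1 : p - A ^ 2 = 2 * X * Z := by linarith
  have hxsA : xs A = X := by
    simp only [hxs]
    rw [e1, hC0]
    field_simp
    norm_num
  have hzsA : zs A = Z := by
    simp only [hzs]
    rw [e1, hC0]
    field_simp
  have hcp : ContinuousAt (fun s : ℝ => p - s ^ 2) A := by fun_prop
  have hct : ContinuousAt (fun s : ℝ => κ - 3 * p * s + s ^ 3) A := by fun_prop
  have hcx : ContinuousAt xs A := by
    simp only [hxs]
    exact ((hcp.pow 2).div hct ht0.ne').const_mul _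
  have hcz : ContinuousAt zs A := by
    simp only [hzs]
    exact (hct.div hcp hp0.ne').const_mul _
  set U : Set ℝ := {s | 0 < p - s ^ 2 ∧ 0 < κ - 3 * p * s + s ^ 3 ∧ xs s < s ∧ s + zs s < 1 ∧
    0 < 4 * s * (κ - 3 * p * s + s ^ 3) - 3 * (p - s ^ 2) ^ 2 ∧
    s ^ 3 + s ^ 2 * A + s * A ^ 2 + A ^ 3 < 2 * κ} with hU
  have hUn : U ∈ 𝓝 A := by
    have e1 : ∀ᶠ s in 𝓝 A, 0 < p - s ^ 2 := hcp.eventually (lt_mem_nhds hp0)
    have e2 : ∀ᶠ s in 𝓝 A, 0 < κ - 3 * p * s + s ^ 3 := hct.eventually (lt_mem_nhds ht0)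
    have e3 : ∀ᶠ s in 𝓝 A, xs s < s := by
      apply hcx.eventually_lt continuousAt_id
      simpa [hxsA] using hXA'
    have e4 : ∀ᶠ s in 𝓝 A, s + zs s < 1 := by
      have : ContinuousAt (fun s => s + zs s) A := continuousAt_id.add hcz
      exact this.eventually (gt_mem_nhds (by simpa [hzsA] using hAZ'))
    have e5 : ∀ᶠ s in 𝓝 A, 0 < 4 * s * (κ - 3 * p * s + s ^ 3) - 3 * (p - s ^ 2) ^ 2 := by
      have : ContinuousAt (fun s : ℝ => 4 * s * (κ - 3 * p * s + s ^ 3) - 3 * (p - s ^ 2) ^ 2) A :=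
        by fun_prop
      refine this.eventually (lt_mem_nhds ?_)
      change 0 < 4 * A * (κ - 3 * p * A + A ^ 3) - 3 * (p - A ^ 2) ^ 2
      have : 4 * A * (κ - 3 * p * A + A ^ 3) - 3 * (p - A ^ 2) ^ 2 =
          12 * (X * Z ^ 2) * (A - X) := by
        rw [hC0, ← hp']
        ring
      rw [this]
      have : 0 < A - X := by linarith
      positivity
    have e6 : ∀ᶠ s in 𝓝 A, s ^ 3 + s ^ 2 * A + s * A ^ 2 + A ^ 3 < 2 * κ := by
      have : ContinuousAt (fun s : ℝ => s ^ 3 + s ^ 2 * A + s * A ^ 2 + A ^ 3) A := by fun_prop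
      refine this.eventually (gt_mem_nhds ?_)
      change A ^ 3 + A ^ 2 * A + A * A ^ 2 + A ^ 3 < 2 * κ
      rw [← ht']
      have h1 : 0 < A * X * Z := by positivity
      have h2 : 0 < X * Z ^ 2 := by positivity
      nlinarith
    filter_upwards [e1, e2, e3, e4, e5, e6] with s h1 h2 h3 h4 h5 h6
    exact ⟨h1, h2, h3, h4, h5, h6⟩
  have hval : ∀ s, 0 < p - s ^ 2 → 0 < κ - 3 * p * s + s ^ 3 →
      s ^ 2 + 2 * xs s * zs s = p ∧
      2 * s ^ 3 + 6 * s * xs s * zs s + 3 * xs s * zs s ^ 2 = κ ∧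
      s ^ 3 + 3 * xs s ^ 2 * zs s =
        s ^ 3 + 9 / 8 * ((p - s ^ 2) ^ 3 / (κ - 3 * p * s + s ^ 3)) := by
    intro s h1 h2
    simp only [hxs, hzs]
    obtain ⟨D, hD⟩ : ∃ D, D = κ - 3 * p * s + s ^ 3 := ⟨_, rfl⟩
    rw [← hD] at h2 ⊢
    have hk : κ = D + 3 * p * s - s ^ 3 := by linarith
    refine ⟨?_, ?_, ?_⟩
    · field_simp
      ring
    · rw [hk]
      field_simp
      ring
    · field_simp
      ring
  apply not_localmax (α := A) hUn
    (h := fun s : ℝ => s ^ 3 + 9 / 8 * ((p - s ^ 2) ^ 3 / (κ - 3 * p * s + s ^ 3)))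
    (h' := fun s => 3 / (8 * (κ - 3 * p * s + s ^ 3) ^ 2) *
        ((4 * s * (κ - 3 * p * s + s ^ 3) - 3 * (p - s ^ 2) ^ 2) *
          (2 * κ * s - 3 * p ^ 2 - s ^ 4)))
  · intro s hs
    exact hasDeriv_hb p κ s hs.2.1.ne'
  · have hpos : ∀ s ∈ U, 0 < 3 / (8 * (κ - 3 * p * s + s ^ 3) ^ 2) *
        (4 * s * (κ - 3 * p * s + s ^ 3) - 3 * (p - s ^ 2) ^ 2) := by
      intro s hs
      have h2 := hs.2.1
      have h3 := hs.2.2.2.2.1
      positivity
    rcases le_or_gt 0 (2 * κ * A - 3 * p ^ 2 - A ^ 4) with hg | hg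
    · left
      intro s hs hAs
      have h1 := hpos s hs
      have h2 : 0 < 2 * κ * s - 3 * p ^ 2 - s ^ 4 := by
        have h6 := hs.2.2.2.2.2
        have : 2 * κ * s - 3 * p ^ 2 - s ^ 4 = (2 * κ * A - 3 * p ^ 2 - A ^ 4) +
          (s - A) * (2 * κ - (s ^ 3 + s ^ 2 * A + s * A ^ 2 + A ^ 3)) := by ring
        rw [this]
        have h7 : 0 < s - A := by linarith
        have h8 : 0 < 2 * κ - (s ^ 3 + s ^ 2 * A + s * A ^ 2 + A ^ 3) := by linarith
        have := mul_pos h7 h8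
        linarith
      have := mul_pos h1 h2
      calc (0 : ℝ) < _ := this
        _ = _ := by ring
    · right
      intro s hs hAs
      have h1 := hpos s hs
      have h2 : 2 * κ * s - 3 * p ^ 2 - s ^ 4 < 0 := by
        have h6 := hs.2.2.2.2.2
        have : 2 * κ * s - 3 * p ^ 2 - s ^ 4 = (2 * κ * A - 3 * p ^ 2 - A ^ 4) -
          (A - s) * (2 * κ - (s ^ 3 + s ^ 2 * A + s * A ^ 2 + A ^ 3)) := by ring
        rw [this]
        have h7 : 0 < A - s := by linarith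
        have h8 : 0 < 2 * κ - (s ^ 3 + s ^ 2 * A + s * A ^ 2 + A ^ 3) := by linarith
        have := mul_pos h7 h8
        linarith
      have := mul_neg_of_pos_of_neg h1 h2
      calc _ = 3 / (8 * (κ - 3 * p * s + s ^ 3) ^ 2) *
            (4 * s * (κ - 3 * p * s + s ^ 3) - 3 * (p - s ^ 2) ^ 2) *
            (2 * κ * s - 3 * p ^ 2 - s ^ 4) := by ring
        _ < 0 := this
  · intro s hs
    have h1 := hval s hs.1 hs.2.1
    have h2 := hval A hp0 ht0
    rw [hxsA, hzsA] at h2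
    have hxpos : 0 ≤ xs s := by
      simp only [hxs]
      have := hs.1
      have := hs.2.1
      positivity
    have hzpos : 0 ≤ zs s := by
      simp only [hzs]
      have := hs.1
      have := hs.2.1
      positivity
    have h3 := hmax' (xs s) s (zs s) hxpos hs.2.2.1.le hzpos hs.2.2.2.1.le h1.1 h1.2.1
    rw [← h1.2.2, ← h2.2.2]
    exact h3

end Fam

end LibProf47
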