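import Mathlib
import Pool.Agent.LibProf47.Fam

set_option autoImplicit false

/-!
# The upper bound from the closed data of a threshold graph
-/

namespace LibProf47

open Set Filter Topology

namespace Fam

lemma compl1 {p t x a : ℝ} (h : F1 p t x a) :
    F2 (1 - p) (1 - 3 * p + 3 * q1 x a - t) (1 - a) (a - x) ∧
      q2 (1 - a) (a - x) = 1 - 2 * p + q1 x a := by
  obtain ⟨h1, h2, h3, h4, h5⟩ := h
  refine ⟨⟨by linarith, by linarith, by linarith, ?_, ?_⟩, ?_⟩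
  · rw [← h4]; ring
  · rw [← h4, ← h5, q1]; ring
  · rw [← h4, q1, q2]; ring

lemma compl2 {p t b z : ℝ} (h : F2 p t b z) :
    F1 (1 - p) (1 - 3 * p + 3 * q2 b z - t) (1 - b - z) (1 - b) ∧
      q1 (1 - b - z) (1 - b) = 1 - 2 * p + q2 b z := by
  obtain ⟨h1, h2, h3, h4, h5⟩ := h
  refine ⟨⟨by linarith, by linarith, by linarith, ?_, ?_⟩, ?_⟩
  · rw [← h4]; ring
  · rw [← h4, ← h5, q2]; ring
  · rw [← h4, q1, q2]; ring

lemma sigma_facts {p : ℝ} (hp : p < 1) (hp0 : 0 ≤ p) :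
    0 < √(1 - p) ∧ √(1 - p) ≤ 1 ∧ √(1 - p) ^ 2 = 1 - p := by
  refine ⟨Real.sqrt_pos.2 (by linarith), ?_, Real.sq_sqrt (by linarith)⟩
  rw [Real.sqrt_le_one]
  linarith

/-- moving down along `F1` -/
theorem slide1 {p t t' x a : ℝ} (hp : p < 1) (h : F1 p t' x a) (h1 : tstar p ≤ t)
    (h2 : t ≤ t') : ∃ x' a', F1 p t x' a' ∧ q1 x a - t' / 3 ≤ q1 x' a' - t / 3 := by
  obtain ⟨hx0, hxa, ha1, hpe, hte⟩ := h
  have hp0 : 0 ≤ p := by
    rw [← hpe]
    have : 0 ≤ x * (1 - a) := mul_nonneg hx0 (by linarith)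
    nlinarith [sq_nonneg a]
  have ha1' : a < 1 := by
    rcases eq_or_lt_of_le ha1 with h | h
    · rw [h] at hpe
      norm_num at hpe
      linarith
    · exact h
  obtain ⟨hs0, hs1, hs2⟩ := sigma_facts hp hp0
  set σ := √(1 - p) with hσ
  have ha0 : 1 - σ ≤ a := by
    have h3 : (1 - a) ^ 2 ≤ σ ^ 2 := by
      rw [hs2, ← hpe]
      have : x * (1 - a) ≤ a * (1 - a) := mul_le_mul_of_nonneg_right hxa (by linarith)
      nlinarith
    have := abs_le_of_sq_le_sq' h3 hs0.le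
    linarith [this.2]
  set T : ℝ → ℝ := fun s => s ^ 3 + 3 / 4 * ((p - s ^ 2) ^ 2 / (1 - s)) with hT
  have hcont : ContinuousOn T (Icc (1 - σ) a) := by
    simp only [hT]
    apply ContinuousOn.add (by fun_prop)
    apply ContinuousOn.const_mul
    apply ContinuousOn.div (by fun_prop) (by fun_prop)
    intro s hs
    have := hs.2
    linarith
  have hTa : T a = t' := by
    have e : p - a ^ 2 = 2 * x * (1 - a) := by linarith
    simp only [hT]
    rw [e, ← hte]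
    have : 1 - a ≠ 0 := by linarith
    field_simp
    ring
  have hT0 : T (1 - σ) = tstar p := by
    have e : p - (1 - σ) ^ 2 = 2 * σ * (1 - σ) := by linarith
    have e2 : 1 - (1 - σ) = σ := by ring
    have e3 : (2 * σ * (1 - σ)) ^ 2 / σ = 4 * σ * (1 - σ) ^ 2 := by
      have : σ ≠ 0 := hs0.ne'
      field_simp
      ring
    have e4 : 1 - p = σ ^ 2 := hs2.symm
    simp only [hT, tstar, ← hσ]
    rw [e, e2, e3, e4]
    ring
  obtain ⟨c, hc, hTc⟩ := intermediate_value_Icc ha0 hcont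
    (show t ∈ Icc (T (1 - σ)) (T a) from ⟨by rw [hT0]; exact h1, by rw [hTa]; exact h2⟩)
  have hc0 : 0 ≤ c := by linarith [hc.1]
  have hc1 : c < 1 := by linarith [hc.2]
  have hca : c ^ 2 ≤ a ^ 2 := pow_le_pow_left₀ hc0 hc.2 2
  have hpa : a ^ 2 ≤ p := by
    rw [← hpe]
    have : 0 ≤ x * (1 - a) := mul_nonneg hx0 (by linarith)
    nlinarith
  have h1c : 0 < 1 - c := by linarith
  have hcs : (1 - c) ^ 2 ≤ 1 - p := by
    rw [← hs2]
    apply pow_le_pow_left₀ h1c.le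
    linarith [hc.1]
  have has : (1 - a) ^ 2 ≤ 1 - p := by
    rw [← hs2]
    apply pow_le_pow_left₀ (by linarith)
    linarith
  have hne : 1 - c ≠ 0 := h1c.ne'
  refine ⟨(p - c ^ 2) / (2 * (1 - c)), c, ⟨?_, ?_, hc1.le, ?_, ?_⟩, ?_⟩
  · apply div_nonneg <;> linarith
  · rw [div_le_iff₀ (by linarith)]
    nlinarith
  · field_simp
    ring
  · rw [← hTc]
    simp only [hT]
    field_simp
    ring
  · have e1 : q1 x a - t' / 3 = p / 2 + p * a / 2 - a ^ 2 / 2 + a ^ 3 / 6 := by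
      rw [q1, ← hte, ← hpe]
      ring
    have e2 : q1 ((p - c ^ 2) / (2 * (1 - c))) c - t / 3 =
        p / 2 + p * c / 2 - c ^ 2 / 2 + c ^ 3 / 6 := by
      rw [q1, ← hTc]
      simp only [hT]
      field_simp
      ring
    rw [e1, e2]
    have h3 : 0 ≤ a - c := by linarith [hc.2]
    have h4 : 3 * p - 3 * (a + c) + (a ^ 2 + a * c + c ^ 2) ≤ 0 := by
      nlinarith [sq_nonneg (a - c)]
    nlinarith [mul_nonneg h3 (by linarith : (0:ℝ) ≤ -(3 * p - 3 * (a + c) + (a ^ 2 + a * c + c ^ 2)))]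

/-- moving down along `F2` -/
theorem slide2 {p t t' b z : ℝ} (hp : p < 1) (hpos : 0 < p) (h : F2 p t' b z) (h1 : tstar p ≤ t)
    (h2 : t ≤ t') : ∃ b' z', F2 p t b' z' ∧ q2 b z - t' / 3 ≤ q2 b' z' - t / 3 := by
  obtain ⟨hb0, hz0, hbz, hpe, hte⟩ := h
  obtain ⟨hs0, hs1, hs2⟩ := sigma_facts hp hpos.le
  set σ := √(1 - p) with hσ
  have hs1' : σ < 1 := by
    by_contra hcon
    have : σ = 1 := le_antisymm hs1 (not_lt.1 hcon)
    rw [this] at hs2
    linarith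
  have hbσ : (1 - b) ^ 2 ≤ 1 - p := by
    rw [← hpe]
    nlinarith [mul_nonneg hb0 (by linarith : (0:ℝ) ≤ 1 - b - z)]
  have hb1 : b ≤ 1 := by linarith
  have ha0 : 1 - σ ≤ b := by
    rw [← hs2] at hbσ
    have := abs_le_of_sq_le_sq' hbσ hs0.le
    linarith [this.2]
  have hbpos : 0 < b := by linarith
  set T : ℝ → ℝ := fun s => (3 * p * s - s ^ 3) / 2 with hT
  have hcont : ContinuousOn T (Icc (1 - σ) b) := by
    simp only [hT]
    fun_prop
  have hTa : T b = t' := by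
    simp only [hT]
    rw [← hte, ← hpe]
    ring
  have hT0 : T (1 - σ) = tstar p := by
    have e : p = 1 - σ ^ 2 := by linarith
    simp only [hT, tstar, ← hσ]
    rw [e]
    ring
  obtain ⟨c, hc, hTc⟩ := intermediate_value_Icc ha0 hcont
    (show t ∈ Icc (T (1 - σ)) (T b) from ⟨by rw [hT0]; exact h1, by rw [hTa]; exact h2⟩)
  have hc0 : 0 < c := by linarith [hc.1]
  have hcs : (1 - c) ^ 2 ≤ 1 - p := by
    rw [← hs2]
    apply pow_le_pow_left₀ (by linarith [hc.2])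
    linarith [hc.1]
  have hpb : b ^ 2 ≤ p := by
    rw [← hpe]
    have : 0 ≤ b * z := mul_nonneg hb0 hz0
    nlinarith
  have hcb : c ^ 2 ≤ b ^ 2 := pow_le_pow_left₀ hc0.le hc.2 2
  refine ⟨c, (p - c ^ 2) / (2 * c), ⟨hc0.le, ?_, ?_, ?_, ?_⟩, ?_⟩
  · apply div_nonneg <;> linarith
  · have : c + (p - c ^ 2) / (2 * c) = (p + c ^ 2) / (2 * c) := by
      field_simp
      ring
    rw [this, div_le_iff₀ (by linarith)]
    nlinarith
  · field_simp
    ring
  · rw [← hTc]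
    simp only [hT]
    field_simp
    ring
  · have e1 : q2 b z - t' / 3 = p ^ 2 / (4 * b) + p * b / 2 - b ^ 3 / 12 := by
      rw [q2, ← hte, ← hpe]
      field_simp
      ring
    have e2 : q2 c ((p - c ^ 2) / (2 * c)) - t / 3 =
        p ^ 2 / (4 * c) + p * c / 2 - c ^ 3 / 12 := by
      rw [q2, ← hTc]
      simp only [hT]
      field_simp
      ring
    rw [e1, e2]
    have h3 : 0 ≤ b - c := by linarith [hc.2]
    have h4 : p ^ 2 / (4 * c) + p * c / 2 - c ^ 3 / 12 -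
        (p ^ 2 / (4 * b) + p * b / 2 - b ^ 3 / 12) =
        (b - c) * ((p - b * c) ^ 2 / (4 * b * c) + (b - c) ^ 2 / 12) := by
      field_simp
      ring
    have h5 : 0 ≤ (b - c) * ((p - b * c) ^ 2 / (4 * b * c) + (b - c) ^ 2 / 12) := by
      apply mul_nonneg h3
      positivity
    linarith

/-- Closed data of (a limit of) a threshold graph: clique of size `α`, rest independent with
degrees of sum `m`, of square sum `w`, and with sum of pairwise minima `Q`. -/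
structure Core (α m w Q : ℝ) : Prop where
  a0 : 0 ≤ α
  a1 : α ≤ 1
  m0 : 0 ≤ m
  w0 : 0 ≤ w
  Q0 : 0 ≤ Q
  wm : w ≤ α * m
  mw : m ^ 2 ≤ (1 - α) * w
  Qm : Q ≤ (1 - α) * m

theorem core_FA {α m w Q : ℝ} (h : Core α m w Q) (hG : Q * w ≤ m ^ 3) :
    ∃ x z q', FA (α ^ 2 + 2 * m) q' (α ^ 3 + 3 * w) x α z ∧
      α ^ 3 + 2 * α * m + w + Q ≤ q' := by
  obtain ⟨a0, a1, m0, w0, Q0, wm, mw, Qm⟩ := h
  rcases eq_or_lt_of_le w0 with hw | hw
  · have hm : m = 0 := by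
      have : m ^ 2 ≤ 0 := by rw [← hw] at mw; linarith
      exact pow_eq_zero_iff (two_ne_zero) |>.1 (le_antisymm this (sq_nonneg m))
    have hQ : Q = 0 := by
      rw [hm] at Qm
      linarith
    refine ⟨0, 0, α ^ 3, ⟨le_refl 0, a0, le_refl 0, by linarith, ?_, ?_, by ring⟩, ?_⟩
    · rw [hm]; ring
    · rw [← hw]; ring
    · rw [hm, ← hw, hQ]; linarith
  · have hm : 0 < m := by
      rcases eq_or_lt_of_le m0 with h | h
      · rw [← h] at wm
        linarith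
      · exact h
    refine ⟨w / m, m ^ 2 / w, α ^ 3 + (w / m) * (m ^ 2 / w) * (2 * α + w / m + m ^ 2 / w),
      ⟨by positivity, ?_, by positivity, ?_, ?_, ?_, rfl⟩, ?_⟩
    · rw [div_le_iff₀ hm]; exact wm
    · have : m ^ 2 / w ≤ 1 - α := by
        rw [div_le_iff₀ hw]; exact mw
      linarith
    · field_simp
    · field_simp
    · have e : α ^ 3 + (w / m) * (m ^ 2 / w) * (2 * α + w / m + m ^ 2 / w) =
          α ^ 3 + 2 * α * m + w + m ^ 3 / w := by
        field_simp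
        ring
      rw [e]
      have : Q ≤ m ^ 3 / w := by
        rw [le_div_iff₀ hw]; exact hG
      linarith

/-- The upper bound, up to sliding down. -/
theorem real_main {α m w Q : ℝ} (h : Core α m w Q) (mQ : m ^ 2 ≤ α * Q)
    (hG : Q * w ≤ m ^ 3 ∨ (α * (1 - α) ^ 2 - 2 * (1 - α) * m + Q) *
      (α ^ 2 * (1 - α) - 2 * α * m + w) ≤ (α * (1 - α) - m) ^ 3)
    (hw : 0 ≤ α ^ 2 * (1 - α) - 2 * α * m + w)
    (hQ : 0 ≤ α * (1 - α) ^ 2 - 2 * (1 - α) * m + Q) (hm : 0 ≤ α * (1 - α) - m) :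
    ∃ t', α ^ 3 + 3 * w ≤ t' ∧
      ((∃ x a, F1 (α ^ 2 + 2 * m) t' x a ∧
        (α ^ 3 + 2 * α * m + w + Q) - (α ^ 3 + 3 * w) / 3 ≤ q1 x a - t' / 3) ∨
      (∃ b z, F2 (α ^ 2 + 2 * m) t' b z ∧
        (α ^ 3 + 2 * α * m + w + Q) - (α ^ 3 + 3 * w) / 3 ≤ q2 b z - t' / 3)) := by
  rcases hG with hG | hG
  · obtain ⟨x, z, q', hFA, hq⟩ := core_FA h hG
    refine ⟨_, le_refl _, ?_⟩
    rcases famA hFA with ⟨x', a', h1, h2⟩ | ⟨b', z', h1, h2⟩
    · exact Or.inl ⟨x', a', h1, by linarith⟩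
    · exact Or.inr ⟨b', z', h1, by linarith⟩
  · obtain ⟨a0, a1, m0, w0, Q0, wm, mw, Qm⟩ := h
    have hc : Core (1 - α) (α * (1 - α) - m) (α * (1 - α) ^ 2 - 2 * (1 - α) * m + Q)
        (α ^ 2 * (1 - α) - 2 * α * m + w) :=
      ⟨by linarith, by linarith, hm, hQ, hw, by nlinarith, by nlinarith, by nlinarith⟩
    obtain ⟨x, z, q', hFA, hq⟩ := core_FA hc (by linarith)
    obtain ⟨t', ht', hF⟩ := famB hFA
    refine ⟨1 - 3 * (1 - (α ^ 2 + 2 * m)) + 3 * q' -
      ((1 - α) ^ 3 + 3 * (α * (1 - α) ^ 2 - 2 * (1 - α) * m + Q)), ?_, ?_⟩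
    · nlinarith
    · have ep : 1 - ((1 - α) ^ 2 + 2 * (α * (1 - α) - m)) = α ^ 2 + 2 * m := by ring
      rcases hF with ⟨x', a', h1, h2⟩ | ⟨b', z', h1, h2⟩
      · obtain ⟨h3, h4⟩ := compl1 h1
        right
        rw [ep] at h3
        refine ⟨1 - a', a' - x', ?_, ?_⟩
        · convert h3 using 1
          linarith
        · rw [h4]
          nlinarith
      · obtain ⟨h3, h4⟩ := compl2 h1
        left
        rw [ep] at h3
        refine ⟨1 - b' - z', 1 - b', ?_, ?_⟩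
        · convert h3 using 1
          linarith
        · rw [h4]
          nlinarith

end Fam

end LibProf47
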