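import Mathlib
import Pool.Agent.LibProf47.Upper

set_option autoImplicit false

/-!
# The two curves at fixed edge density
-/

namespace LibProf47

open Set Filter Topology

/-- `x` as a function of `a` on the first curve -/
noncomputable def X1 (p a : ℝ) : ℝ := (p - a ^ 2) / (2 * (1 - a))

/-- triangle density on the first curve -/
noncomputable def T1 (p a : ℝ) : ℝ := a ^ 3 + 3 * X1 p a ^ 2 * (1 - a)

/-- `z` as a function of `b` on the second curve -/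
noncomputable def Z2 (p b : ℝ) : ℝ := (p - b ^ 2) / (2 * b)

/-- triangle density on the second curve -/
noncomputable def T2 (p b : ℝ) : ℝ := b ^ 3 + 3 * b ^ 2 * Z2 p b

section
variable {p : ℝ} (hp0 : 0 < p) (hp1 : p < 1)
include hp0 hp1

lemma sig_lt : 0 < √(1 - p) ∧ √(1 - p) < 1 ∧ √(1 - p) ^ 2 = 1 - p := by
  obtain ⟨h1, h2, h3⟩ := Fam.sigma_facts hp1 hp0.le
  refine ⟨h1, lt_of_le_of_ne h2 fun h => ?_, h3⟩
  rw [h] at h3
  linarith

lemma sqp_facts : 0 < √p ∧ √p < 1 ∧ √p ^ 2 = p := by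
  have h3 : √p ^ 2 = p := Real.sq_sqrt hp0.le
  have h1 : 0 < √p := Real.sqrt_pos.2 hp0
  refine ⟨h1, ?_, h3⟩
  by_contra hcon
  push Not at hcon
  nlinarith

lemma ends_lt : 1 - √(1 - p) < √p := by
  obtain ⟨s0, s1, s2⟩ := sig_lt hp0 hp1
  obtain ⟨r0, r1, r2⟩ := sqp_facts hp0 hp1
  by_contra hcon
  push Not at hcon
  nlinarith

lemma of_F1 {t x a : ℝ} (h : F1 p t x a) :
    a ∈ Icc (1 - √(1 - p)) √p ∧ x = X1 p a ∧ t = T1 p a := by
  obtain ⟨hx0, hxa, ha1, hpe, hte⟩ := h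
  have ha1' : a < 1 := by
    rcases eq_or_lt_of_le ha1 with h | h
    · rw [h] at hpe
      norm_num at hpe
      linarith
    · exact h
  obtain ⟨hs0, hs1, hs2⟩ := sig_lt hp0 hp1
  have hx : x = X1 p a := by
    rw [X1, eq_div_iff (by linarith)]
    linarith
  refine ⟨⟨?_, ?_⟩, hx, ?_⟩
  · have h3 : (1 - a) ^ 2 ≤ √(1 - p) ^ 2 := by
      rw [hs2, ← hpe]
      have : x * (1 - a) ≤ a * (1 - a) := mul_le_mul_of_nonneg_right hxa (by linarith)
      nlinarith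
    have := abs_le_of_sq_le_sq' h3 hs0.le
    linarith [this.2]
  · apply Real.le_sqrt_of_sq_le
    rw [← hpe]
    have : 0 ≤ x * (1 - a) := mul_nonneg hx0 (by linarith)
    nlinarith
  · rw [T1, ← hx, hte]

lemma a_facts {a : ℝ} (h : a ∈ Icc (1 - √(1 - p)) √p) :
    0 < a ∧ a < 1 ∧ a ^ 2 ≤ p ∧ (1 - a) ^ 2 ≤ 1 - p := by
  obtain ⟨s0, s1, s2⟩ := sig_lt hp0 hp1
  obtain ⟨r0, r1, r2⟩ := sqp_facts hp0 hp1
  obtain ⟨h1, h2⟩ := h
  refine ⟨by linarith, by linarith, ?_, ?_⟩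
  · rw [← r2]
    exact pow_le_pow_left₀ (by linarith) h2 2
  · rw [← s2]
    exact pow_le_pow_left₀ (by linarith) (by linarith) 2

lemma F1_of {a : ℝ} (h : a ∈ Icc (1 - √(1 - p)) √p) : F1 p (T1 p a) (X1 p a) a := by
  obtain ⟨a0, a1, a2, a3⟩ := a_facts hp0 hp1 h
  have hne : 1 - a ≠ 0 := by linarith
  refine ⟨?_, ?_, a1.le, ?_, rfl⟩
  · apply div_nonneg <;> linarith
  · rw [X1, div_le_iff₀ (by linarith)]
    nlinarith
  · rw [X1]
    field_simp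
    ring

lemma of_F2 {t b z : ℝ} (h : F2 p t b z) :
    b ∈ Icc (1 - √(1 - p)) √p ∧ z = Z2 p b ∧ t = T2 p b := by
  obtain ⟨hb0, hz0, hbz, hpe, hte⟩ := h
  obtain ⟨hs0, hs1, hs2⟩ := sig_lt hp0 hp1
  have hbpos : 0 < b := by
    rcases eq_or_lt_of_le hb0 with h | h
    · rw [← h] at hpe
      norm_num at hpe
      linarith
    · exact h
  have hz : z = Z2 p b := by
    rw [Z2, eq_div_iff (by positivity)]
    linarith
  have hbσ : (1 - b) ^ 2 ≤ 1 - p := by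
    rw [← hpe]
    nlinarith [mul_nonneg hb0 (by linarith : (0:ℝ) ≤ 1 - b - z)]
  refine ⟨⟨?_, ?_⟩, hz, ?_⟩
  · rw [← hs2] at hbσ
    have := abs_le_of_sq_le_sq' hbσ hs0.le
    linarith [this.2]
  · apply Real.le_sqrt_of_sq_le
    rw [← hpe]
    have : 0 ≤ b * z := mul_nonneg hb0 hz0
    nlinarith
  · rw [T2, ← hz, hte]

lemma F2_of {b : ℝ} (h : b ∈ Icc (1 - √(1 - p)) √p) : F2 p (T2 p b) b (Z2 p b) := by
  obtain ⟨a0, a1, a2, a3⟩ := a_facts hp0 hp1 h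
  have hne : b ≠ 0 := by linarith
  refine ⟨a0.le, ?_, ?_, ?_, rfl⟩
  · apply div_nonneg <;> linarith
  · have : b + Z2 p b = (p + b ^ 2) / (2 * b) := by
      rw [Z2]
      field_simp
      ring
    rw [this, div_le_iff₀ (by linarith)]
    nlinarith
  · rw [Z2]
    field_simp
    ring

lemma T1_strict : StrictMonoOn (T1 p) (Icc (1 - √(1 - p)) √p) := by
  intro a ha a' ha' hlt
  obtain ⟨a0, a1, a2, a3⟩ := a_facts hp0 hp1 ha
  obtain ⟨b0, b1, b2, b3⟩ := a_facts hp0 hp1 ha'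
  have e1 : X1 p a' * (1 - a') = X1 p a * (1 - a) + (a ^ 2 - a' ^ 2) / 2 := by
    rw [X1, X1]
    have : 1 - a ≠ 0 := by linarith
    have : 1 - a' ≠ 0 := by linarith
    field_simp
    ring
  have key : (1 - a') * (T1 p a' - T1 p a) = (a' - a) *
      (3 * (1 - a) * (X1 p a - (a + a') / 2) ^ 2 + (a' - a) ^ 2 * (1 - a') / 4) := by
    rw [T1, T1]
    linear_combination
      (3 * (X1 p a' * (1 - a') + X1 p a * (1 - a) + (a ^ 2 - a' ^ 2) / 2)) * e1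
  have h1 : 0 < (a' - a) *
      (3 * (1 - a) * (X1 p a - (a + a') / 2) ^ 2 + (a' - a) ^ 2 * (1 - a') / 4) := by
    apply mul_pos (by linarith)
    have h2 : 0 ≤ 3 * (1 - a) * (X1 p a - (a + a') / 2) ^ 2 :=
      mul_nonneg (by linarith) (sq_nonneg _)
    have h3 : 0 < (a' - a) ^ 2 * (1 - a') / 4 := by
      have : 0 < a' - a := by linarith
      have : 0 < 1 - a' := by linarith
      positivity
    linarith
  rw [← key] at h1
  have := (mul_pos_iff_of_pos_left (by linarith : (0:ℝ) < 1 - a')).1 h1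
  linarith

lemma T2_eq {b : ℝ} (h : b ∈ Icc (1 - √(1 - p)) √p) : T2 p b = (3 * p * b - b ^ 3) / 2 := by
  obtain ⟨a0, a1, a2, a3⟩ := a_facts hp0 hp1 h
  rw [T2, Z2]
  field_simp
  ring

lemma T2_strict : StrictMonoOn (T2 p) (Icc (1 - √(1 - p)) √p) := by
  intro a ha a' ha' hlt
  obtain ⟨a0, a1, a2, a3⟩ := a_facts hp0 hp1 ha
  obtain ⟨b0, b1, b2, b3⟩ := a_facts hp0 hp1 ha'
  rw [T2_eq hp0 hp1 ha, T2_eq hp0 hp1 ha']
  have h1 : 0 < (a' - a) * (3 * p - (a' ^ 2 + a' * a + a ^ 2)) := by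
    apply mul_pos (by linarith)
    nlinarith
  nlinarith

lemma X1_cont : ContinuousOn (X1 p) (Icc (1 - √(1 - p)) √p) := by
  unfold X1
  apply ContinuousOn.div (by fun_prop) (by fun_prop)
  intro a ha
  have := a_facts hp0 hp1 ha
  linarith [this.2.1]

lemma T1_cont : ContinuousOn (T1 p) (Icc (1 - √(1 - p)) √p) := by
  have := X1_cont hp0 hp1
  unfold T1
  fun_prop

lemma Q1_cont : ContinuousOn (fun a => q1 (X1 p a) a) (Icc (1 - √(1 - p)) √p) := by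
  have := X1_cont hp0 hp1
  unfold q1
  fun_prop

lemma Z2_cont : ContinuousOn (Z2 p) (Icc (1 - √(1 - p)) √p) := by
  unfold Z2
  apply ContinuousOn.div (by fun_prop) (by fun_prop)
  intro a ha
  have := a_facts hp0 hp1 ha
  linarith [this.1]

lemma T2_cont : ContinuousOn (T2 p) (Icc (1 - √(1 - p)) √p) := by
  have := Z2_cont hp0 hp1
  unfold T2
  fun_prop

lemma Q2_cont : ContinuousOn (fun b => q2 b (Z2 p b)) (Icc (1 - √(1 - p)) √p) := by
  have := Z2_cont hp0 hp1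
  unfold q2
  fun_prop

lemma X1_start : X1 p (1 - √(1 - p)) = 1 - √(1 - p) := by
  obtain ⟨s0, s1, s2⟩ := sig_lt hp0 hp1
  rw [X1, div_eq_iff (by linarith)]
  linarith

lemma Z2_start : Z2 p (1 - √(1 - p)) = √(1 - p) := by
  obtain ⟨s0, s1, s2⟩ := sig_lt hp0 hp1
  rw [Z2, div_eq_iff (by linarith)]
  linarith

lemma tstar_eq : tstar p = (1 - √(1 - p)) ^ 2 * (1 + 2 * √(1 - p)) := by
  obtain ⟨s0, s1, s2⟩ := sig_lt hp0 hp1
  rw [tstar]
  linear_combination (3 - 2 * √(1 - p)) * s2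

lemma T1_start : T1 p (1 - √(1 - p)) = tstar p := by
  rw [T1, X1_start hp0 hp1, tstar_eq hp0 hp1]
  ring

lemma T2_start : T2 p (1 - √(1 - p)) = tstar p := by
  rw [T2, Z2_start hp0 hp1, tstar_eq hp0 hp1]
  ring

lemma Q1_start : q1 (X1 p (1 - √(1 - p))) (1 - √(1 - p)) = (p + tstar p) / 2 := by
  obtain ⟨s0, s1, s2⟩ := sig_lt hp0 hp1
  rw [X1_start hp0 hp1, tstar_eq hp0 hp1, q1]
  linear_combination (-1 / 2) * s2

lemma Q2_start : q2 (1 - √(1 - p)) (Z2 p (1 - √(1 - p))) = (p + tstar p) / 2 := by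
  obtain ⟨s0, s1, s2⟩ := sig_lt hp0 hp1
  rw [Z2_start hp0 hp1, tstar_eq hp0 hp1, q2]
  linear_combination (-1 / 2) * s2

lemma X1_end : X1 p √p = 0 := by
  obtain ⟨r0, r1, r2⟩ := sqp_facts hp0 hp1
  rw [X1, r2]
  simp

lemma Z2_end : Z2 p √p = 0 := by
  obtain ⟨r0, r1, r2⟩ := sqp_facts hp0 hp1
  rw [Z2, r2]
  simp

lemma T1_end : T1 p √p = √p ^ 3 := by
  rw [T1, X1_end hp0 hp1]
  ring

lemma T2_end : T2 p √p = √p ^ 3 := by
  rw [T2, Z2_end hp0 hp1]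
  ring

lemma Q1_end : q1 (X1 p √p) √p = √p ^ 3 := by
  rw [X1_end hp0 hp1, q1]
  ring

lemma Q2_end : q2 √p (Z2 p √p) = √p ^ 3 := by
  rw [Z2_end hp0 hp1, q2]
  ring

lemma start_mem : 1 - √(1 - p) ∈ Icc (1 - √(1 - p)) √p := ⟨le_refl _, (ends_lt hp0 hp1).le⟩

lemma end_mem : √p ∈ Icc (1 - √(1 - p)) √p := ⟨(ends_lt hp0 hp1).le, le_refl _⟩

lemma tstar_lt : tstar p < √p ^ 3 := by
  rw [← T1_start hp0 hp1, ← T1_end hp0 hp1]
  exact T1_strict hp0 hp1 (start_mem hp0 hp1) (end_mem hp0 hp1) (ends_lt hp0 hp1)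

lemma tstar_pos : 0 < tstar p := by
  obtain ⟨s0, s1, s2⟩ := sig_lt hp0 hp1
  rw [tstar_eq hp0 hp1]
  have : 0 < 1 - √(1 - p) := by linarith
  positivity

/-- existence and uniqueness of the first point -/
theorem F1_unique {t : ℝ} (h1 : tstar p ≤ t) (h2 : t ≤ √p ^ 3) :
    ∃! v : ℝ × ℝ, F1 p t v.1 v.2 := by
  obtain ⟨a, ha, hTa⟩ := intermediate_value_Icc (ends_lt hp0 hp1).le (T1_cont hp0 hp1)
    (show t ∈ Icc (T1 p (1 - √(1 - p))) (T1 p √p) from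
      ⟨by rw [T1_start hp0 hp1]; exact h1, by rw [T1_end hp0 hp1]; exact h2⟩)
  refine ⟨(X1 p a, a), ?_, ?_⟩
  · show F1 p t (X1 p a) a
    rw [← hTa]
    exact F1_of hp0 hp1 ha
  · rintro ⟨x', a'⟩ h
    obtain ⟨g1, g2, g3⟩ := of_F1 hp0 hp1 h
    simp only at g1 g2 g3
    have : a' = a := (T1_strict hp0 hp1).injOn g1 ha (by rw [← g3, hTa])
    rw [g2, this]

theorem F2_unique {t : ℝ} (h1 : tstar p ≤ t) (h2 : t ≤ √p ^ 3) :
    ∃! v : ℝ × ℝ, F2 p t v.1 v.2 := by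
  obtain ⟨a, ha, hTa⟩ := intermediate_value_Icc (ends_lt hp0 hp1).le (T2_cont hp0 hp1)
    (show t ∈ Icc (T2 p (1 - √(1 - p))) (T2 p √p) from
      ⟨by rw [T2_start hp0 hp1]; exact h1, by rw [T2_end hp0 hp1]; exact h2⟩)
  refine ⟨(a, Z2 p a), ?_, ?_⟩
  · show F2 p t a (Z2 p a)
    rw [← hTa]
    exact F2_of hp0 hp1 ha
  · rintro ⟨b', z'⟩ h
    obtain ⟨g1, g2, g3⟩ := of_F2 hp0 hp1 h
    simp only at g1 g2 g3
    have : b' = a := (T2_strict hp0 hp1).injOn g1 ha (by rw [← g3, hTa])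
    rw [g2, this]

lemma F1_le {t x a : ℝ} (h : F1 p t x a) : tstar p ≤ t ∧ t ≤ √p ^ 3 := by
  obtain ⟨g1, g2, g3⟩ := of_F1 hp0 hp1 h
  rw [g3, ← T1_end hp0 hp1, ← T1_start hp0 hp1]
  exact ⟨(T1_strict hp0 hp1).monotoneOn (start_mem hp0 hp1) g1 g1.1,
    (T1_strict hp0 hp1).monotoneOn g1 (end_mem hp0 hp1) g1.2⟩

lemma F2_le {t b z : ℝ} (h : F2 p t b z) : tstar p ≤ t ∧ t ≤ √p ^ 3 := by
  obtain ⟨g1, g2, g3⟩ := of_F2 hp0 hp1 h
  rw [g3, ← T2_end hp0 hp1, ← T2_start hp0 hp1]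
  exact ⟨(T2_strict hp0 hp1).monotoneOn (start_mem hp0 hp1) g1 g1.1,
    (T2_strict hp0 hp1).monotoneOn g1 (end_mem hp0 hp1) g1.2⟩

end

/-- local surjectivity along a monotone curve -/
lemma curve_nbhd {T Q : ℝ → ℝ} {α β a0 q : ℝ} (hT : ContinuousOn T (Icc α β))
    (hQ : ContinuousOn Q (Icc α β)) (hm : StrictMonoOn T (Icc α β)) (h0 : α ≤ a0) (h1 : a0 < β)
    (hq : q < Q a0) :
    ∀ᶠ v : ℝ × ℝ in 𝓝 (q, T a0), T α ≤ v.2 → ∃ a ∈ Icc α β, T a = v.2 ∧ v.1 ≤ Q a := by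
  have ha0 : a0 ∈ Icc α β := ⟨h0, h1.le⟩
  obtain ⟨q', hq1, hq2⟩ := exists_between hq
  obtain ⟨δ, hδ, hball⟩ := Metric.continuousWithinAt_iff.1 (hQ a0 ha0) (Q a0 - q') (by linarith)
  have hnear : ∀ a ∈ Icc α β, |a - a0| < δ → q' < Q a := by
    intro a ha hd
    have := hball ha (by rwa [Real.dist_eq])
    rw [Real.dist_eq] at this
    have := (abs_lt.1 this).1
    linarith
  set a1 := max α (a0 - δ / 2) with ha1
  set a2 := min β (a0 + δ / 2) with ha2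
  have h2 : a0 < a2 := lt_min h1 (by linarith)
  have h3 : a1 ≤ a0 := max_le h0 (by linarith)
  have m1 : a1 ∈ Icc α β := ⟨le_max_left _ _, by linarith⟩
  have m2 : a2 ∈ Icc α β := ⟨by linarith, min_le_left _ _⟩
  have hsub : Icc a1 a2 ⊆ Icc α β := Icc_subset_Icc m1.1 m2.2
  have e1 : ∀ᶠ v : ℝ × ℝ in 𝓝 (q, T a0), v.1 < q' :=
    (continuous_fst.tendsto _).eventually (gt_mem_nhds hq1)
  have e2 : ∀ᶠ v : ℝ × ℝ in 𝓝 (q, T a0), v.2 < T a2 :=
    (continuous_snd.tendsto _).eventually (gt_mem_nhds (hm ha0 m2 h2))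
  have e3 : ∀ᶠ v : ℝ × ℝ in 𝓝 (q, T a0), T α ≤ v.2 → T a1 ≤ v.2 := by
    rcases le_total α (a0 - δ / 2) with h | h
    · have : a1 < a0 := by rw [ha1, max_eq_right h]; linarith
      have := (continuous_snd.tendsto (q, T a0)).eventually (lt_mem_nhds (hm m1 ha0 this))
      filter_upwards [this] with v hv _
      exact hv.le
    · have : a1 = α := by rw [ha1, max_eq_left h]
      rw [this]
      exact Eventually.of_forall fun v hv => hv
  filter_upwards [e1, e2, e3] with v g1 g2 g3 g4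
  obtain ⟨a, ha, hTa⟩ := intermediate_value_Icc (by linarith : a1 ≤ a2) (hT.mono hsub)
    (show v.2 ∈ Icc (T a1) (T a2) from ⟨g3 g4, g2.le⟩)
  refine ⟨a, hsub ha, hTa, ?_⟩
  have hd : |a - a0| < δ := by
    rw [abs_lt]
    have u1 : a0 - δ / 2 ≤ a1 := le_max_right _ _
    have u2 : a2 ≤ a0 + δ / 2 := min_le_right _ _
    constructor
    · linarith [ha.1]
    · linarith [ha.2]
  linarith [hnear a (hsub ha) hd]

end LibProf47
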