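import Mathlib
import Pool.Agent.LibProf47.Base

set_option autoImplicit false

namespace LibProf47

/-- `(p, q, t)` are the edge, cherry and triangle densities of a step graphon. -/
def StepPt (p q t : ℝ) : Prop :=
  ∃ (k : ℕ) (B : Fin k → Fin k → ℝ) (l : Fin k → ℝ), (∀ i j, 0 ≤ B i j ∧ B i j ≤ 1) ∧
    (∀ i j, B i j = B j i) ∧ (∀ i, 0 ≤ l i) ∧ ∑ i, l i = 1 ∧
    p = ∑ i, ∑ j, l i * l j * B i j ∧ q = ∑ i, l i * (∑ j, l j * B i j) ^ 2 ∧
    t = ∑ i, ∑ j, ∑ m, l i * l j * l m * (B i j * B j m * B i m)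

end LibProf47
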