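import Mathlib
import Pool.Agent.LibProf47.Base
import Pool.Agent.LibProf47.Step0

set_option autoImplicit false

namespace LibProf47

open Filter Topology

namespace Multi

open Finset

variable {k : ℕ}

/-- `1` minus a diagonal matrix -/
noncomputable def Bd (d : Fin k → ℝ) (i j : Fin k) : ℝ := 1 - if i = j then d i else 0

lemma Bd_symm (d : Fin k → ℝ) (i j : Fin k) : Bd d i j = Bd d j i := by
  unfold Bd
  by_cases h : i = j
  · subst h; rfl
  · rw [if_neg h, if_neg (Ne.symm h)]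

lemma sum_row (d l : Fin k → ℝ) (h1 : ∑ i, l i = 1) (i : Fin k) :
    ∑ j, l j * Bd d i j = 1 - d i * l i := by
  have : ∀ j, l j * Bd d i j = l j - (if i = j then d i * l j else 0) := by
    intro j
    unfold Bd
    split_ifs <;> ring
  simp only [this, Finset.sum_sub_distrib, h1, Finset.sum_ite_eq, Finset.mem_univ, if_true]

lemma sum_two (d l : Fin k → ℝ) (h1 : ∑ i, l i = 1) (i j : Fin k) :
    ∑ m, l m * (Bd d j m * Bd d i m) =
      1 - d j * l j - d i * l i + (if i = j then d i ^ 2 * l i else 0) := by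
  have : ∀ m, l m * (Bd d j m * Bd d i m) = l m - (if j = m then d j * l m else 0)
      - (if i = m then d i * l m else 0)
      + (if i = m then (if i = j then d i ^ 2 * l m else 0) else 0) := by
    intro m
    unfold Bd
    by_cases h1 : j = m
    · subst h1
      by_cases h2 : i = j
      · subst h2; simp; ring
      · simp [h2]; ring
    · by_cases h2 : i = m
      · subst h2
        simp [h1, Ne.symm h1]; ring
      · simp [h1, h2]
  simp only [this, Finset.sum_sub_distrib, Finset.sum_add_distrib, h1, Finset.sum_ite_eq,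
    Finset.mem_univ, if_true]

lemma sum_p (d l : Fin k → ℝ) (h1 : ∑ i, l i = 1) :
    ∑ i, ∑ j, l i * l j * Bd d i j = 1 - ∑ i, d i * l i ^ 2 := by
  have : ∀ i, ∑ j, l i * l j * Bd d i j = l i - d i * l i ^ 2 := by
    intro i
    have h := sum_row d l h1 i
    calc ∑ j, l i * l j * Bd d i j = l i * ∑ j, l j * Bd d i j := by
          rw [Finset.mul_sum]; exact Finset.sum_congr rfl fun j _ => by ring
      _ = _ := by rw [h]; ring
  simp only [this, Finset.sum_sub_distrib, h1]

lemma sum_q (d l : Fin k → ℝ) (h1 : ∑ i, l i = 1) :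
    ∑ i, l i * (∑ j, l j * Bd d i j) ^ 2 =
      1 - 2 * ∑ i, d i * l i ^ 2 + ∑ i, d i ^ 2 * l i ^ 3 := by
  have : ∀ i, l i * (∑ j, l j * Bd d i j) ^ 2 = l i - 2 * (d i * l i ^ 2)
      + d i ^ 2 * l i ^ 3 := by
    intro i
    rw [sum_row d l h1 i]; ring
  simp only [this, Finset.sum_add_distrib, Finset.sum_sub_distrib, h1, ← Finset.mul_sum]

lemma sum_t (d l : Fin k → ℝ) (h1 : ∑ i, l i = 1) :
    ∑ i, ∑ j, ∑ m, l i * l j * l m * (Bd d i j * Bd d j m * Bd d i m) =
      1 - 3 * ∑ i, d i * l i ^ 2 + ∑ i, (3 * d i ^ 2 - d i ^ 3) * l i ^ 3 := by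
  have h2 : ∀ i j, ∑ m, l i * l j * l m * (Bd d i j * Bd d j m * Bd d i m)
      = l i * (l j * Bd d i j * (1 - d j * l j - d i * l i
        + (if i = j then d i ^ 2 * l i else 0))) := by
    intro i j
    rw [← sum_two d l h1 i j, Finset.mul_sum, Finset.mul_sum]
    exact Finset.sum_congr rfl fun m _ => by ring
  have h3 : ∀ i, ∑ j, ∑ m, l i * l j * l m * (Bd d i j * Bd d j m * Bd d i m)
      = l i * (1 - ∑ j, d j * l j ^ 2) - 2 * (d i * l i ^ 2)
        + (3 * d i ^ 2 - d i ^ 3) * l i ^ 3 := by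
    intro i
    simp only [h2]
    rw [← Finset.mul_sum]
    have h4 : ∀ j, l j * Bd d i j * (1 - d j * l j - d i * l i
        + (if i = j then d i ^ 2 * l i else 0))
        = l j - d j * l j ^ 2 - d i * l i * l j + (if i = j then
          (l j * d i ^ 2 * l i - d i * l j * (1 - d j * l j - d i * l i + d i ^ 2 * l i))
          else 0) := by
      intro j
      unfold Bd
      split_ifs <;> ring
    simp only [h4, Finset.sum_add_distrib, Finset.sum_sub_distrib, h1, Finset.sum_ite_eq,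
      Finset.mem_univ, if_true, ← Finset.mul_sum]
    ring
  simp only [h3, Finset.sum_add_distrib, Finset.sum_sub_distrib, ← Finset.mul_sum,
    ← Finset.sum_mul, h1]
  ring

end Multi

open Multi

/-- parts of sizes `a i`, completely joined, the rest of the mass a clique joined to all -/
theorem step_multi {m : ℕ} (a : Fin m → ℝ) (h0 : ∀ i, 0 ≤ a i) (h1 : ∑ i, a i ≤ 1) :
    StepPt (1 - ∑ i, a i ^ 2) (1 - 2 * ∑ i, a i ^ 2 + ∑ i, a i ^ 3)
      (1 - 3 * ∑ i, a i ^ 2 + 2 * ∑ i, a i ^ 3) := by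
  let d : Fin (m + 1) → ℝ := Fin.cons 0 (fun _ => 1)
  let l : Fin (m + 1) → ℝ := Fin.cons (1 - ∑ i, a i) a
  have hl : ∑ i, l i = 1 := by
    rw [Fin.sum_univ_succ]; simp [l]
  have e1 : ∑ i, d i * l i ^ 2 = ∑ i, a i ^ 2 := by
    rw [Fin.sum_univ_succ]; simp [l, d]
  have e2 : ∑ i, d i ^ 2 * l i ^ 3 = ∑ i, a i ^ 3 := by
    rw [Fin.sum_univ_succ]; simp [l, d]
  have e3 : ∑ i, (3 * d i ^ 2 - d i ^ 3) * l i ^ 3 = 2 * ∑ i, a i ^ 3 := by
    rw [Fin.sum_univ_succ, Finset.mul_sum]; simp [l, d]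
    exact Finset.sum_congr rfl fun i _ => by norm_num
  refine ⟨m + 1, Bd d, l, ?_, Bd_symm d, ?_, hl, ?_, ?_, ?_⟩
  · intro i j
    unfold Bd
    by_cases h : i = j
    · rw [if_pos h]
      refine Fin.cases ?_ (fun i => ?_) i
      · simp [d]
      · simp [d]
    · rw [if_neg h]; norm_num
  · intro i
    refine Fin.cases ?_ (fun i => ?_) i
    · simp only [l, Fin.cons_zero]; linarith
    · simp only [l, Fin.cons_succ]; exact h0 i
  · rw [sum_p d l hl, e1]
  · rw [sum_q d l hl, e1, e2]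
  · rw [sum_t d l hl, e1, e3]

/-- `k` parts of size `c`, one of size `r ≤ c`, total 1 (square sum s): all cubic sums between
`k c³ + r³` and `s^{3/2}` are attained with square sum `s`. -/
theorem multi_ivt (k : ℕ) (hk : 1 ≤ k) (c r s u : ℝ) (hr : 0 ≤ r) (hrc : r ≤ c)
    (h1 : k * c + r = 1) (hs : k * c ^ 2 + r ^ 2 = s) (hu1 : k * c ^ 3 + r ^ 3 ≤ u)
    (hu2 : u ≤ √s ^ 3) :
    ∃ a : Fin (k + 1) → ℝ, (∀ i, 0 ≤ a i) ∧ ∑ i, a i ≤ 1 ∧ ∑ i, a i ^ 2 = s ∧
      ∑ i, a i ^ 3 = u := by
  have hk0 : (0 : ℝ) < k := by exact_mod_cast hk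
  have hk1 : (1 : ℝ) ≤ k := by exact_mod_cast hk
  have hc : 0 ≤ c := le_trans hr hrc
  have hs0 : 0 ≤ s := by rw [← hs]; positivity
  have hrs : r ^ 2 ≤ s := by rw [← hs]; nlinarith [mul_nonneg hk0.le (sq_nonneg c)]
  have hkr : (k + 1) * r ≤ 1 := by
    nlinarith [mul_le_mul_of_nonneg_left hrc hk0.le]
  have hks : ∀ r', 0 ≤ r' → r' ≤ r → k * (s - r' ^ 2) ≤ (1 - r') ^ 2 := by
    intro r' h0 h2
    have e : (1 - r') ^ 2 - k * (s - r' ^ 2) = (r - r') * (2 - (k + 1) * (r + r')) := by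
      have hkc : (k : ℝ) * c = 1 - r := by linarith
      have : (k : ℝ) * s = (1 - r) ^ 2 + k * r ^ 2 := by
        rw [← hs, ← hkc]; ring
      calc (1 - r') ^ 2 - k * (s - r' ^ 2) = (1 - r') ^ 2 - k * s + k * r' ^ 2 := by ring
        _ = _ := by rw [this]; ring
    have h3 : (k + 1) * (r + r') ≤ 2 := by nlinarith
    have h4 : 0 ≤ (r - r') * (2 - (k + 1) * (r + r')) :=
      mul_nonneg (by linarith) (by linarith)
    linarith
  by_cases hcase : u ≤ k * (√(s / k)) ^ 3
  · -- first path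
    have hcont : ContinuousOn (fun x : ℝ => k * (√((s - x ^ 2) / k)) ^ 3 + x ^ 3)
        (Set.Icc 0 r) := by fun_prop
    have hmem : u ∈ Set.Icc (k * (√((s - r ^ 2) / k)) ^ 3 + r ^ 3)
        (k * (√((s - 0 ^ 2) / k)) ^ 3 + 0 ^ 3) := by
      constructor
      · have : (s - r ^ 2) / k = c ^ 2 := by
          rw [← hs]; field_simp; ring
        rw [this, Real.sqrt_sq hc]; exact hu1
      · simpa using hcase
    obtain ⟨x, ⟨hx0, hxr⟩, hx⟩ := intermediate_value_Icc' hr hcont hmem
    simp only at hx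
    set y := √((s - x ^ 2) / k) with hy
    have hxs : x ^ 2 ≤ s := le_trans (by nlinarith) hrs
    have hy2 : y ^ 2 = (s - x ^ 2) / k := by
      rw [hy, Real.sq_sqrt]
      exact div_nonneg (by linarith) hk0.le
    have hy0 : 0 ≤ y := Real.sqrt_nonneg _
    refine ⟨Fin.cons x (fun _ => y), ?_, ?_, ?_, ?_⟩
    · intro i
      refine Fin.cases ?_ (fun i => ?_) i
      · simpa using hx0
      · simpa using hy0
    · rw [Fin.sum_univ_succ]
      simp only [Fin.cons_zero, Fin.cons_succ, Finset.sum_const, Finset.card_univ,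
        Fintype.card_fin, nsmul_eq_mul]
      have h2 := hks x hx0 hxr
      have h3 : (k * y) ^ 2 ≤ (1 - x) ^ 2 := by
        calc (k * y) ^ 2 = k * (k * y ^ 2) := by ring
          _ = k * (s - x ^ 2) := by rw [hy2]; field_simp
          _ ≤ _ := h2
      have h4 : x ≤ 1 := by nlinarith
      have := abs_le_of_sq_le_sq' h3 (by linarith)
      linarith [this.2]
    · rw [Fin.sum_univ_succ]
      simp only [Fin.cons_zero, Fin.cons_succ, Finset.sum_const, Finset.card_univ,
        Fintype.card_fin, nsmul_eq_mul]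
      rw [hy2]; field_simp; ring
    · rw [Fin.sum_univ_succ]
      simp only [Fin.cons_zero, Fin.cons_succ, Finset.sum_const, Finset.card_univ,
        Fintype.card_fin, nsmul_eq_mul]
      linarith
  · -- second path
    push Not at hcase
    have hk2 : 2 ≤ k := by
      by_contra hcon
      have hk' : k = 1 := by omega
      subst hk'
      simp at hcase
      linarith
    obtain ⟨j, rfl⟩ : ∃ j, k = j + 1 := ⟨k - 1, by omega⟩
    have hj : 1 ≤ j := by omega
    have hj0 : (0 : ℝ) < j := by exact_mod_cast hj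
    have hle : √(s / ((j + 1 : ℕ) : ℝ)) ≤ √s := by
      apply Real.sqrt_le_sqrt
      exact div_le_self hs0 hk1
    have hcont : ContinuousOn (fun x : ℝ => j * (√((s - x ^ 2) / j)) ^ 3 + x ^ 3)
        (Set.Icc (√(s / ((j + 1 : ℕ) : ℝ))) (√s)) := by fun_prop
    have hmem : u ∈ Set.Icc (j * (√((s - (√(s / ((j + 1 : ℕ) : ℝ))) ^ 2) / j)) ^ 3
        + (√(s / ((j + 1 : ℕ) : ℝ))) ^ 3) (j * (√((s - (√s) ^ 2) / j)) ^ 3 + (√s) ^ 3) := by
      constructor
      · rw [Real.sq_sqrt (div_nonneg hs0 hk0.le)]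
        have : (s - s / ((j + 1 : ℕ) : ℝ)) / j = s / ((j + 1 : ℕ) : ℝ) := by
          push_cast; field_simp; ring
        rw [this]
        refine le_trans (le_of_eq ?_) hcase.le
        push_cast; ring
      · rw [Real.sq_sqrt hs0]
        simpa using hu2
    obtain ⟨x, ⟨hx0, hxr⟩, hx⟩ := intermediate_value_Icc hle hcont hmem
    simp only at hx
    set y := √((s - x ^ 2) / j) with hy
    have hx0' : 0 ≤ x := le_trans (Real.sqrt_nonneg _) hx0
    have hxs : x ^ 2 ≤ s := by
      calc x ^ 2 ≤ (√s) ^ 2 := by gcongr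
        _ = s := Real.sq_sqrt hs0
    have hy2 : y ^ 2 = (s - x ^ 2) / j := by
      rw [hy, Real.sq_sqrt]
      exact div_nonneg (by linarith) hj0.le
    have hy0 : 0 ≤ y := Real.sqrt_nonneg _
    refine ⟨Fin.cons 0 (Fin.cons x (fun _ => y)), ?_, ?_, ?_, ?_⟩
    · intro i
      refine Fin.cases ?_ (fun i => ?_) i
      · simp
      · refine Fin.cases ?_ (fun i => ?_) i
        · simpa using hx0'
        · simpa using hy0
    · rw [Fin.sum_univ_succ, Fin.sum_univ_succ]
      simp only [Fin.cons_zero, Fin.cons_succ, Finset.sum_const, Finset.card_univ,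
        Fintype.card_fin, nsmul_eq_mul]
      have h2 := hks 0 le_rfl hr
      have h3 : (x + j * y) ^ 2 ≤ 1 ^ 2 := by
        have h4 : (j : ℝ) * y ^ 2 = s - x ^ 2 := by rw [hy2]; field_simp
        push_cast at h2
        have h5 : (x + j * y) ^ 2 ≤ (j + 1) * (x ^ 2 + j * y ^ 2) := by
          nlinarith [mul_nonneg hj0.le (sq_nonneg (x - y))]
        rw [h4] at h5
        nlinarith
      have := abs_le_of_sq_le_sq' h3 (by norm_num)
      linarith [this.2]
    · rw [Fin.sum_univ_succ, Fin.sum_univ_succ]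
      simp only [Fin.cons_zero, Fin.cons_succ, Finset.sum_const, Finset.card_univ,
        Fintype.card_fin, nsmul_eq_mul]
      rw [hy2]; field_simp; ring
    · rw [Fin.sum_univ_succ, Fin.sum_univ_succ]
      simp only [Fin.cons_zero, Fin.cons_succ, Finset.sum_const, Finset.card_univ,
        Fintype.card_fin, nsmul_eq_mul]
      linarith

end LibProf47
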