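import Mathlib
import Pool.Agent.LibProf47.Step0
import Pool.Agent.LibProf47.Upper

set_option autoImplicit false

/-!
# Step graphons: affine changes and the explicit families
-/

namespace LibProf47

open Finset

namespace StepAux

variable {k : ℕ} (l : Fin k → ℝ) (B : Fin k → Fin k → ℝ)

lemma s1 (h1 : ∑ i, l i = 1) : ∑ i, ∑ j, ∑ m, l i * l j * l m = 1 := by
  have : ∀ i, ∑ j, ∑ m, l i * l j * l m = l i := by
    intro i
    have : ∀ j, ∑ m, l i * l j * l m = l i * l j := by
      intro j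
      rw [← mul_sum, h1, mul_one]
    rw [sum_congr rfl fun j _ => this j, ← mul_sum, h1, mul_one]
  rw [sum_congr rfl fun i _ => this i, h1]

lemma sij (h1 : ∑ i, l i = 1) :
    ∑ i, ∑ j, ∑ m, l i * l j * l m * B i j = ∑ i, ∑ j, l i * l j * B i j := by
  refine sum_congr rfl fun i _ => sum_congr rfl fun j _ => ?_
  have : ∀ m, l i * l j * l m * B i j = (l i * l j * B i j) * l m := fun m => by ring
  rw [sum_congr rfl fun m _ => this m, ← mul_sum, h1, mul_one]

lemma sim (h1 : ∑ i, l i = 1) :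
    ∑ i, ∑ j, ∑ m, l i * l j * l m * B i m = ∑ i, ∑ j, l i * l j * B i j := by
  rw [← sij l B h1]
  refine sum_congr rfl fun i _ => ?_
  rw [sum_comm]
  refine sum_congr rfl fun j _ => sum_congr rfl fun m _ => ?_
  ring

lemma sjm (h1 : ∑ i, l i = 1) :
    ∑ i, ∑ j, ∑ m, l i * l j * l m * B j m = ∑ i, ∑ j, l i * l j * B i j := by
  have : ∀ i, ∑ j, ∑ m, l i * l j * l m * B j m = l i * ∑ j, ∑ m, l j * l m * B j m := by
    intro i
    rw [mul_sum]
    refine sum_congr rfl fun j _ => ?_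
    rw [mul_sum]
    refine sum_congr rfl fun m _ => ?_
    ring
  rw [sum_congr rfl fun i _ => this i, ← sum_mul, h1, one_mul]

lemma sijim : ∑ i, ∑ j, ∑ m, l i * l j * l m * (B i j * B i m) =
    ∑ i, l i * (∑ j, l j * B i j) ^ 2 := by
  refine sum_congr rfl fun i _ => ?_
  rw [sq, sum_mul_sum, mul_sum]
  refine sum_congr rfl fun j _ => ?_
  rw [mul_sum]
  refine sum_congr rfl fun m _ => ?_
  ring

lemma sijjm (hs : ∀ i j, B i j = B j i) : ∑ i, ∑ j, ∑ m, l i * l j * l m * (B i j * B j m) =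
    ∑ i, l i * (∑ j, l j * B i j) ^ 2 := by
  rw [← sijim l B, sum_comm]
  refine sum_congr rfl fun i _ => sum_congr rfl fun j _ => sum_congr rfl fun m _ => ?_
  rw [hs j i]
  ring

lemma simjm (hs : ∀ i j, B i j = B j i) : ∑ i, ∑ j, ∑ m, l i * l j * l m * (B i m * B j m) =
    ∑ i, l i * (∑ j, l j * B i j) ^ 2 := by
  rw [← sijjm l B hs]
  refine sum_congr rfl fun i _ => ?_
  rw [sum_comm]
  refine sum_congr rfl fun j _ => sum_congr rfl fun m _ => ?_
  rw [hs j m]
  ring

lemma spp (h1 : ∑ i, l i = 1) : ∑ i, ∑ j, l i * l j = 1 := by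
  have : ∀ i, ∑ j, l i * l j = l i := by
    intro i
    rw [← mul_sum, h1, mul_one]
  rw [sum_congr rfl fun i _ => this i, h1]

end StepAux

open StepAux in
theorem StepPt.affine {p q t : ℝ} (h : StepPt p q t) (u s : ℝ)
    (hu : ∀ x, 0 ≤ x → x ≤ 1 → 0 ≤ u + s * x ∧ u + s * x ≤ 1) :
    StepPt (u + s * p) (u ^ 2 + 2 * u * s * p + s ^ 2 * q)
      (u ^ 3 + 3 * u ^ 2 * s * p + 3 * u * s ^ 2 * q + s ^ 3 * t) := by
  obtain ⟨k, B, l, hB, hs, hl, h1, hp, hq, ht⟩ := h
  refine ⟨k, fun i j => u + s * B i j, l, fun i j => hu _ (hB i j).1 (hB i j).2,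
    fun i j => by beta_reduce; rw [hs i j], hl, h1, ?_, ?_, ?_⟩
  · have e : ∀ i j, l i * l j * (u + s * B i j) = u * (l i * l j) + s * (l i * l j * B i j) :=
      fun i j => by ring
    simp only [e, sum_add_distrib, ← mul_sum]
    rw [← hp]
    have := spp l h1
    simp only [← mul_sum] at this
    rw [this]
    ring
  · have e : ∀ i, l i * (∑ j, l j * (u + s * B i j)) ^ 2 =
        u ^ 2 * l i + 2 * u * s * (∑ j, l i * l j * B i j) + s ^ 2 * (l i * (∑ j, l j * B i j) ^ 2) := by
      intro i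
      have e1 : ∑ j, l j * (u + s * B i j) = u + s * ∑ j, l j * B i j := by
        have : ∀ j, l j * (u + s * B i j) = u * l j + s * (l j * B i j) := fun j => by ring
        simp only [this, sum_add_distrib, ← mul_sum, h1, mul_one]
      have e2 : ∑ j, l i * l j * B i j = l i * ∑ j, l j * B i j := by
        rw [mul_sum]
        exact sum_congr rfl fun j _ => by ring
      rw [e1, e2]
      ring
    rw [sum_congr rfl fun i _ => e i, sum_add_distrib, sum_add_distrib, ← mul_sum, ← mul_sum,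
      ← mul_sum, h1, ← hp, ← hq]
    ring
  · have e : ∀ i j m, l i * l j * l m * ((u + s * B i j) * (u + s * B j m) * (u + s * B i m)) =
        u ^ 3 * (l i * l j * l m) + (u ^ 2 * s * (l i * l j * l m * B i j) +
        u ^ 2 * s * (l i * l j * l m * B j m) + u ^ 2 * s * (l i * l j * l m * B i m)) +
        (u * s ^ 2 * (l i * l j * l m * (B i j * B j m)) +
        u * s ^ 2 * (l i * l j * l m * (B i j * B i m)) +
        u * s ^ 2 * (l i * l j * l m * (B i m * B j m))) +
        s ^ 3 * (l i * l j * l m * (B i j * B j m * B i m)) := by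
      intro i j m
      ring
    have a1 := s1 l h1
    have a2 := sij l B h1
    have a3 := sjm l B h1
    have a4 := sim l B h1
    have a5 := sijjm l B hs
    have a6 := sijim l B
    have a7 := simjm l B hs
    simp only [e, sum_add_distrib]
    simp only [← Finset.mul_sum] at a1 a2 a3 a4 a5 a6 a7 hp hq ht ⊢
    linear_combination (-u ^ 3) * a1 - u ^ 2 * s * (a2 + a3 + a4) - u * s ^ 2 * (a5 + a6 + a7) +
      3 * u ^ 2 * s * hp + 3 * u * s ^ 2 * hq + s ^ 3 * ht

theorem StepPt.p_mem {p q t : ℝ} (h : StepPt p q t) : 0 ≤ p ∧ p ≤ 1 := by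
  obtain ⟨k, B, l, hB, hs, hl, h1, hp, hq, ht⟩ := h
  constructor
  · rw [hp]
    exact sum_nonneg fun i _ => sum_nonneg fun j _ =>
      mul_nonneg (mul_nonneg (hl i) (hl j)) (hB i j).1
  · rw [hp, ← StepAux.spp l h1]
    refine sum_le_sum fun i _ => sum_le_sum fun j _ => ?_
    exact mul_le_of_le_one_right (mul_nonneg (hl i) (hl j)) (hB i j).2

/-- mixing with the constant graphon of the same density -/
theorem StepPt.mix {p q t : ℝ} (h : StepPt p q t) {s : ℝ} (h0 : 0 ≤ s) (h1 : s ≤ 1) :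
    StepPt p (p ^ 2 + s ^ 2 * (q - p ^ 2))
      (p ^ 3 + 3 * p * (s ^ 2 * (q - p ^ 2)) + s ^ 3 * (t - 3 * p * q + 2 * p ^ 3)) := by
  obtain ⟨hp0, hp1⟩ := h.p_mem
  have := h.affine ((1 - s) * p) s (fun x hx0 hx1 => by
    constructor
    · have : 0 ≤ (1 - s) * p := mul_nonneg (by linarith) hp0
      have : 0 ≤ s * x := mul_nonneg h0 hx0
      linarith
    · nlinarith)
  convert this using 1
  · ring
  · ring
  · ring

theorem StepPt.compl {p q t : ℝ} (h : StepPt p q t) :
    StepPt (1 - p) (1 - 2 * p + q) (1 - 3 * p + 3 * q - t) := by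
  have := h.affine 1 (-1) (fun x hx0 hx1 => by constructor <;> linarith)
  convert this using 1
  · ring
  · ring
  · ring

theorem step_F1 {p t x a : ℝ} (h : F1 p t x a) : StepPt p (q1 x a) t := by
  obtain ⟨h1, h2, h3, h4, h5⟩ := h
  refine ⟨3, ![![1, 1, 1], ![1, 1, 0], ![1, 0, 0]], ![x, a - x, 1 - a], ?_, ?_, ?_, ?_, ?_, ?_, ?_⟩
  · intro i j
    fin_cases i <;> fin_cases j <;> simp
  · intro i j
    fin_cases i <;> fin_cases j <;> rfl
  · intro i
    fin_cases i
    · simpa using h1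
    · simpa using h2
    · simpa using h3
  · simp [Fin.sum_univ_three]
  · simp [Fin.sum_univ_three]
    rw [← h4]
    ring
  · simp [Fin.sum_univ_three]
    rw [q1]
    ring
  · simp [Fin.sum_univ_three]
    rw [← h5]
    ring

theorem step_F2 {p t b z : ℝ} (h : F2 p t b z) : StepPt p (q2 b z) t := by
  obtain ⟨h1, h2, h3, h4, h5⟩ := h
  refine ⟨3, ![![1, 1, 0], ![1, 0, 0], ![0, 0, 0]], ![b, z, 1 - b - z], ?_, ?_, ?_, ?_, ?_, ?_, ?_⟩
  · intro i j
    fin_cases i <;> fin_cases j <;> simp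
  · intro i j
    fin_cases i <;> fin_cases j <;> rfl
  · intro i
    fin_cases i
    · simpa using h1
    · simpa using h2
    · simp
      linarith
  · simp [Fin.sum_univ_three]
  · simp [Fin.sum_univ_three]
    rw [← h4]
    ring
  · simp [Fin.sum_univ_three]
    rw [q2]
    ring
  · simp [Fin.sum_univ_three]
    rw [← h5]
    ring

/-- triangle-free: bipartite step graphons -/
theorem step_bip {p q : ℝ} (hp : 0 < p) (h1 : p ^ 2 ≤ q) (h2 : q ≤ p / 2) : StepPt p q 0 := by
  have hq : 0 < q := by nlinarith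
  set D := √(1 - p ^ 2 / q) with hD
  have hle : p ^ 2 / q ≤ 1 := by
    rw [div_le_one hq]; exact h1
  have hD2 : D ^ 2 = 1 - p ^ 2 / q := Real.sq_sqrt (by linarith)
  have hD0 : 0 ≤ D := Real.sqrt_nonneg _
  have hD1 : D ≤ 1 := by
    rw [hD, Real.sqrt_le_one]
    have : 0 ≤ p ^ 2 / q := by positivity
    linarith
  have hDq : D ^ 2 * q = q - p ^ 2 := by
    rw [hD2]
    field_simp
  refine ⟨2, ![![0, 2 * q / p], ![2 * q / p, 0]], ![(1 - D) / 2, (1 + D) / 2],
    ?_, ?_, ?_, ?_, ?_, ?_, ?_⟩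
  · have g1 : 0 ≤ 2 * q / p := by positivity
    have g2 : 2 * q / p ≤ 1 := by
      rw [div_le_one hp]
      linarith
    intro i j
    fin_cases i <;> fin_cases j <;> simp [g1, g2]
  · intro i j
    fin_cases i <;> fin_cases j <;> rfl
  · intro i
    fin_cases i
    · simp
      linarith
    · simp
      linarith
  · simp [Fin.sum_univ_two]
    ring
  · simp [Fin.sum_univ_two]
    field_simp
    nlinarith
  · simp [Fin.sum_univ_two]
    field_simp
    nlinarith
  · simp [Fin.sum_univ_two]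

end LibProf47
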