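import Mathlib
import Pool.Agent.LibProf47.Curve
import Pool.Agent.LibProf47.Step
import Pool.Agent.LibProf47.Multi

set_option autoImplicit false

/-!
# Every point of the explicit region is realised
-/

namespace LibProf47

open Set Filter Topology

/-- multipartite points: the top of the region for small `t` -/
theorem top_step {k : ℕ} (hk : 1 ≤ k) {p c r t : ℝ} (hr : 0 ≤ r) (hrc : r ≤ c)
    (h1 : k * c + r = 1) (hs : k * c ^ 2 + r ^ 2 = 1 - p)
    (ht1 : 1 - 3 * (1 - p) + 2 * (k * c ^ 3 + r ^ 3) ≤ t) (ht2 : t ≤ tstar p) :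
    StepPt p ((p + t) / 2) t := by
  have hs0 : 0 ≤ 1 - p := by rw [← hs]; positivity
  have hsq : √(1 - p) ^ 2 = 1 - p := Real.sq_sqrt hs0
  obtain ⟨a, ha0, ha1, ha2, ha3⟩ := multi_ivt k hk c r (1 - p) ((t - 1 + 3 * (1 - p)) / 2) hr hrc h1
    hs (by linarith) (by
      rw [tstar] at ht2
      have : √(1 - p) ^ 3 = (1 - p) * √(1 - p) := by
        rw [← hsq]
        have : √(√(1 - p) ^ 2) = √(1 - p) := by rw [hsq]
        rw [this]
        ring
      rw [this]
      linarith)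
  have := step_multi a ha0 ha1
  rw [ha2, ha3] at this
  convert this using 1 <;> ring

/-- unions of cliques: `d₂ = 0` -/
theorem clique_step {k : ℕ} (hk : 1 ≤ k) {p c r u : ℝ} (hr : 0 ≤ r) (hrc : r ≤ c)
    (h1 : k * c + r = 1) (hs : k * c ^ 2 + r ^ 2 = p) (hu1 : k * c ^ 3 + r ^ 3 ≤ u)
    (hu2 : u ≤ √p ^ 3) : StepPt p u u := by
  obtain ⟨a, ha0, ha1, ha2, ha3⟩ := multi_ivt k hk c r p u hr hrc h1 hs hu1 hu2
  have := (step_multi a ha0 ha1).compl
  rw [ha2, ha3] at this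
  convert this using 1 <;> ring

/-- the case `p ≤ 1/2`: all `0 ≤ t ≤ tstar p` -/
theorem top_step_half {p t : ℝ} (hp0 : 0 < p) (hp : p ≤ 1 / 2) (ht0 : 0 ≤ t)
    (ht : t ≤ tstar p) : StepPt p ((p + t) / 2) t := by
  set D := √(1 - 2 * p) with hD
  have hD2 : D ^ 2 = 1 - 2 * p := Real.sq_sqrt (by linarith)
  have hD0 : 0 ≤ D := Real.sqrt_nonneg _
  have hD1 : D ≤ 1 := by
    rw [hD, Real.sqrt_le_one]
    linarith
  refine top_step (k := 1) (le_refl 1) (c := (1 + D) / 2) (r := (1 - D) / 2) (by linarith)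
    (by linarith) (by push_cast; ring) ?_ ?_ ht
  · push_cast
    linear_combination (1 / 2) * hD2
  · have : 1 - 3 * (1 - p) + 2 * (((1 : ℕ) : ℝ) * ((1 + D) / 2) ^ 3 + ((1 - D) / 2) ^ 3) = 0 := by
      push_cast
      linear_combination (3 / 2) * hD2
    rw [this]
    exact ht0

lemma upp_le {p q t : ℝ} (hp0 : 0 < p) (hp1 : p < 1) (htq : t ≤ q) (h : Upp p q t) : q ≤ p := by
  rcases h with ⟨_, h⟩ | ⟨_, ⟨x, a, h, h'⟩ | ⟨b, z, h, h'⟩⟩
  · linarith
  · refine h'.trans ?_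
    obtain ⟨g1, g2, g3, g4, g5⟩ := h
    have e : p - q1 x a = (1 - a) * (a ^ 2 + x * (1 - a - x)) := by
      rw [← g4, q1]
      ring
    have : 0 ≤ (1 - a) * (a ^ 2 + x * (1 - a - x)) := by
      apply mul_nonneg (by linarith)
      nlinarith [mul_nonneg g1 (by linarith : (0:ℝ) ≤ 1 - a)]
    linarith
  · refine h'.trans ?_
    obtain ⟨g1, g2, g3, g4, g5⟩ := h
    have e : p - q2 b z = b ^ 2 * (1 - b - z) + b * z * (2 - 2 * b - z) := by
      rw [← g4, q2]
      ring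
    have h1 : 0 ≤ b ^ 2 * (1 - b - z) := mul_nonneg (sq_nonneg _) (by linarith)
    have h2 : 0 ≤ b * z * (2 - 2 * b - z) :=
      mul_nonneg (mul_nonneg g1 g2) (by linarith)
    linarith

lemma upp_t_le {p q t : ℝ} (hp0 : 0 < p) (hp1 : p < 1) (h : Upp p q t) : t ≤ √p ^ 3 := by
  rcases h with ⟨h, _⟩ | ⟨_, ⟨x, a, h, h'⟩ | ⟨b, z, h, h'⟩⟩
  · exact h.trans (tstar_lt hp0 hp1).le
  · exact (F1_le hp0 hp1 h).2
  · exact (F2_le hp0 hp1 h).2

/-- Points strictly below the upper bound are interior for `Upp`. -/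
theorem upp_open {p q t : ℝ} (hp0 : 0 < p) (hp1 : p < 1) (h : Upp p q t) (htq : t < q) :
    (t ≤ tstar p ∧ q = (p + t) / 2) ∨ (∃ x a, F1 p t x a ∧ q = q1 x a) ∨
      (∃ b z, F2 p t b z ∧ q = q2 b z) ∨ ∀ᶠ v : ℝ × ℝ in 𝓝 (q, t), Upp p v.1 v.2 := by
  rcases lt_trichotomy t (tstar p) with hlt | heq | hgt
  · rcases h with ⟨h1, h2⟩ | ⟨h1, _⟩
    · rcases eq_or_lt_of_le h2 with h3 | h3
      · exact Or.inl ⟨h1, h3⟩
      · right; right; right
        have e1 : ∀ᶠ v : ℝ × ℝ in 𝓝 (q, t), v.2 < tstar p :=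
          (continuous_snd.tendsto _).eventually (gt_mem_nhds hlt)
        have e2 : ∀ᶠ v : ℝ × ℝ in 𝓝 (q, t), v.1 - (p + v.2) / 2 < 0 := by
          have hc : Continuous fun v : ℝ × ℝ => v.1 - (p + v.2) / 2 := by fun_prop
          exact (hc.tendsto _).eventually (gt_mem_nhds (by simpa using h3))
        filter_upwards [e1, e2] with v g1 g2
        exact Or.inl ⟨g1.le, by linarith⟩
    · linarith
  · have hq : q ≤ (p + t) / 2 := by
      rcases h with ⟨h1, h2⟩ | ⟨h1, ⟨x, a, h2, h3⟩ | ⟨b, z, h2, h3⟩⟩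
      · exact h2
      · obtain ⟨g1, g2, g3⟩ := of_F1 hp0 hp1 h2
        have : a = 1 - √(1 - p) := (T1_strict hp0 hp1).injOn g1 (start_mem hp0 hp1)
          (by rw [← g3, T1_start hp0 hp1, heq])
        rw [g2, this, Q1_start hp0 hp1, ← heq] at h3
        exact h3
      · obtain ⟨g1, g2, g3⟩ := of_F2 hp0 hp1 h2
        have : b = 1 - √(1 - p) := (T2_strict hp0 hp1).injOn g1 (start_mem hp0 hp1)
          (by rw [← g3, T2_start hp0 hp1, heq])
        rw [g2, this, Q2_start hp0 hp1, ← heq] at h3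
        exact h3
    rcases eq_or_lt_of_le hq with h3 | h3
    · exact Or.inl ⟨heq.le, h3⟩
    · right; right; right
      have e2 : ∀ᶠ v : ℝ × ℝ in 𝓝 (q, t), v.1 - (p + v.2) / 2 < 0 := by
        have hc : Continuous fun v : ℝ × ℝ => v.1 - (p + v.2) / 2 := by fun_prop
        exact (hc.tendsto _).eventually (gt_mem_nhds (by simpa using h3))
      have e3 := curve_nbhd (T1_cont hp0 hp1) (Q1_cont hp0 hp1) (T1_strict hp0 hp1)
        (le_refl (1 - √(1 - p))) (ends_lt hp0 hp1) (q := q)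
        (by rw [Q1_start hp0 hp1, ← heq]; exact h3)
      rw [T1_start hp0 hp1, ← heq] at e3
      filter_upwards [e2, e3] with v g2 g3
      rcases le_total v.2 t with g4 | g4
      · exact Or.inl ⟨by rw [← heq]; exact g4, by linarith⟩
      · obtain ⟨a, ha, hTa, hQa⟩ := g3 g4
        refine Or.inr ⟨by rw [← heq]; exact g4, Or.inl ⟨X1 p a, a, ?_, hQa⟩⟩
        rw [← hTa]
        exact F1_of hp0 hp1 ha
  · rcases h with ⟨h1, _⟩ | ⟨_, ⟨x, a, h2, h3⟩ | ⟨b, z, h2, h3⟩⟩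
    · linarith
    · rcases eq_or_lt_of_le h3 with h4 | h4
      · exact Or.inr (Or.inl ⟨x, a, h2, h4⟩)
      · right; right; right
        obtain ⟨g1, g2, g3⟩ := of_F1 hp0 hp1 h2
        have ha : a < √p := by
          refine lt_of_le_of_ne g1.2 fun h5 => ?_
          rw [g2, h5, Q1_end hp0 hp1] at h4
          rw [h5, T1_end hp0 hp1] at g3
          linarith
        have e3 := curve_nbhd (T1_cont hp0 hp1) (Q1_cont hp0 hp1) (T1_strict hp0 hp1)
          g1.1 ha (q := q) (by rw [← g2]; exact h4)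
        rw [T1_start hp0 hp1, ← g3] at e3
        have e1 : ∀ᶠ v : ℝ × ℝ in 𝓝 (q, t), tstar p < v.2 :=
          (continuous_snd.tendsto _).eventually (lt_mem_nhds hgt)
        filter_upwards [e1, e3] with v u1 u3
        obtain ⟨a', ha', hTa, hQa⟩ := u3 u1.le
        refine Or.inr ⟨u1.le, Or.inl ⟨X1 p a', a', ?_, hQa⟩⟩
        rw [← hTa]
        exact F1_of hp0 hp1 ha'
    · rcases eq_or_lt_of_le h3 with h4 | h4
      · exact Or.inr (Or.inr (Or.inl ⟨b, z, h2, h4⟩))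
      · right; right; right
        obtain ⟨g1, g2, g3⟩ := of_F2 hp0 hp1 h2
        have ha : b < √p := by
          refine lt_of_le_of_ne g1.2 fun h5 => ?_
          rw [g2, h5, Q2_end hp0 hp1] at h4
          rw [h5, T2_end hp0 hp1] at g3
          linarith
        have e3 := curve_nbhd (T2_cont hp0 hp1) (Q2_cont hp0 hp1) (T2_strict hp0 hp1)
          g1.1 ha (q := q) (by rw [← g2]; exact h4)
        rw [T2_start hp0 hp1, ← g3] at e3
        have e1 : ∀ᶠ v : ℝ × ℝ in 𝓝 (q, t), tstar p < v.2 :=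
          (continuous_snd.tendsto _).eventually (lt_mem_nhds hgt)
        filter_upwards [e1, e3] with v u1 u3
        obtain ⟨b', hb', hTb, hQb⟩ := u3 u1.le
        refine Or.inr ⟨u1.le, Or.inr ⟨b', Z2 p b', ?_, hQb⟩⟩
        rw [← hTb]
        exact F2_of hp0 hp1 hb'

/-- closedness of `Upp` along a curve, on a compact interval -/
lemma upp_compact {p M : ℝ} {f g : ℝ → ℝ} (hf : Continuous f) (hg : Continuous g) :
    IsCompact {s | s ∈ Icc (1 : ℝ) M ∧ 0 ≤ g s ∧ g s ≤ f s ∧ Upp p (f s) (g s)} := by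
  set S0 := {s | s ∈ Icc (1 : ℝ) M ∧ 0 ≤ g s ∧ g s ≤ f s} with hS0
  have hS0c : IsCompact S0 := by
    have : S0 = Icc (1 : ℝ) M ∩ ({s | 0 ≤ g s} ∩ {s | g s ≤ f s}) := by
      ext s
      simp [hS0]
    rw [this]
    exact isCompact_Icc.inter_right ((isClosed_le (by fun_prop) (by fun_prop)).inter
      (isClosed_le (by fun_prop) (by fun_prop)))
  set A0 := {s | s ∈ S0 ∧ g s ≤ tstar p ∧ f s ≤ (p + g s) / 2} with hA0
  set A1 := {s | s ∈ S0 ∧ tstar p ≤ g s ∧ ∃ x a, F1 p (g s) x a ∧ f s ≤ q1 x a} with hA1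
  set A2 := {s | s ∈ S0 ∧ tstar p ≤ g s ∧ ∃ b z, F2 p (g s) b z ∧ f s ≤ q2 b z} with hA2
  have hA0c : IsCompact A0 := by
    have : A0 = S0 ∩ ({s | g s ≤ tstar p} ∩ {s | f s ≤ (p + g s) / 2}) := by
      ext s
      simp only [hA0, mem_ofPred_eq, mem_inter_iff]
    rw [this]
    exact hS0c.inter_right ((isClosed_le (by fun_prop) (by fun_prop)).inter
      (isClosed_le (by fun_prop) (by fun_prop)))
  have hA1c : IsCompact A1 := by
    set K : Set (ℝ × ℝ × ℝ) := {v | v.1 ∈ S0 ∧ tstar p ≤ g v.1 ∧ F1 p (g v.1) v.2.1 v.2.2 ∧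
      f v.1 ≤ q1 v.2.1 v.2.2} with hK
    have hKc : IsCompact K := by
      have : K = (S0 ×ˢ Icc (0 : ℝ) 1 ×ˢ Icc (0 : ℝ) 1) ∩
          ({v | tstar p ≤ g v.1} ∩ ({v | v.2.1 ≤ v.2.2} ∩
          ({v | v.2.2 ^ 2 + 2 * v.2.1 * (1 - v.2.2) = p} ∩
          ({v | v.2.2 ^ 3 + 3 * v.2.1 ^ 2 * (1 - v.2.2) = g v.1} ∩
          {v | f v.1 ≤ v.2.2 ^ 3 + v.2.1 * (1 - v.2.2) * (1 + v.2.2 + v.2.1)})))) := by
        ext ⟨s, x, a⟩
        simp only [hK, F1, q1, mem_ofPred_eq, mem_inter_iff, mem_prod, mem_Icc]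
        constructor
        · rintro ⟨h1, h2, ⟨h3, h4, h5, h6, h7⟩, h8⟩
          exact ⟨⟨h1, ⟨h3, by linarith⟩, ⟨by linarith, h5⟩⟩, h2, h4, h6, h7, h8⟩
        · rintro ⟨⟨h1, ⟨h3, _⟩, ⟨_, h5⟩⟩, h2, h4, h6, h7, h8⟩
          exact ⟨h1, h2, ⟨h3, h4, h5, h6, h7⟩, h8⟩
      rw [this]
      refine (hS0c.prod (isCompact_Icc.prod isCompact_Icc)).inter_right ?_
      refine IsClosed.inter (isClosed_le (by fun_prop) (by fun_prop)) (IsClosed.inter
        (isClosed_le (by fun_prop) (by fun_prop)) (IsClosed.inter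
        (isClosed_eq (by fun_prop) (by fun_prop)) (IsClosed.inter
        (isClosed_eq (by fun_prop) (by fun_prop)) (isClosed_le (by fun_prop) (by fun_prop)))))
    have : A1 = Prod.fst '' K := by
      ext s
      simp only [hA1, hK, mem_image, mem_ofPred_eq, Prod.exists, exists_and_right,
        exists_eq_right]
      constructor
      · rintro ⟨h1, h2, x, a, h3, h4⟩
        exact ⟨x, a, h1, h2, h3, h4⟩
      · rintro ⟨x, a, h1, h2, h3, h4⟩
        exact ⟨h1, h2, x, a, h3, h4⟩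
    rw [this]
    exact hKc.image continuous_fst
  have hA2c : IsCompact A2 := by
    set K : Set (ℝ × ℝ × ℝ) := {v | v.1 ∈ S0 ∧ tstar p ≤ g v.1 ∧ F2 p (g v.1) v.2.1 v.2.2 ∧
      f v.1 ≤ q2 v.2.1 v.2.2} with hK
    have hKc : IsCompact K := by
      have : K = (S0 ×ˢ Icc (0 : ℝ) 1 ×ˢ Icc (0 : ℝ) 1) ∩
          ({v | tstar p ≤ g v.1} ∩ ({v | v.2.1 + v.2.2 ≤ 1} ∩
          ({v | v.2.1 ^ 2 + 2 * v.2.1 * v.2.2 = p} ∩
          ({v | v.2.1 ^ 3 + 3 * v.2.1 ^ 2 * v.2.2 = g v.1} ∩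
          {v | f v.1 ≤ v.2.1 ^ 3 + v.2.1 * v.2.2 * (3 * v.2.1 + v.2.2)})))) := by
        ext ⟨s, x, a⟩
        simp only [hK, F2, q2, mem_ofPred_eq, mem_inter_iff, mem_prod, mem_Icc]
        constructor
        · rintro ⟨h1, h2, ⟨h3, h4, h5, h6, h7⟩, h8⟩
          exact ⟨⟨h1, ⟨h3, by linarith⟩, ⟨h4, by linarith⟩⟩, h2, h5, h6, h7, h8⟩
        · rintro ⟨⟨h1, ⟨h3, _⟩, ⟨h4, _⟩⟩, h2, h5, h6, h7, h8⟩
          exact ⟨h1, h2, ⟨h3, h4, h5, h6, h7⟩, h8⟩
      rw [this]
      refine (hS0c.prod (isCompact_Icc.prod isCompact_Icc)).inter_right ?_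
      refine IsClosed.inter (isClosed_le (by fun_prop) (by fun_prop)) (IsClosed.inter
        (isClosed_le (by fun_prop) (by fun_prop)) (IsClosed.inter
        (isClosed_eq (by fun_prop) (by fun_prop)) (IsClosed.inter
        (isClosed_eq (by fun_prop) (by fun_prop)) (isClosed_le (by fun_prop) (by fun_prop)))))
    have : A2 = Prod.fst '' K := by
      ext s
      simp only [hA2, hK, mem_image, mem_ofPred_eq, Prod.exists, exists_and_right,
        exists_eq_right]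
      constructor
      · rintro ⟨h1, h2, x, a, h3, h4⟩
        exact ⟨x, a, h1, h2, h3, h4⟩
      · rintro ⟨x, a, h1, h2, h3, h4⟩
        exact ⟨h1, h2, x, a, h3, h4⟩
    rw [this]
    exact hKc.image continuous_fst
  have : {s | s ∈ Icc (1 : ℝ) M ∧ 0 ≤ g s ∧ g s ≤ f s ∧ Upp p (f s) (g s)} = A0 ∪ (A1 ∪ A2) := by
    ext s
    simp only [hA0, hA1, hA2, hS0, Upp, mem_ofPred_eq, mem_union]
    constructor
    · rintro ⟨h1, h2, h3, ⟨h4, h5⟩ | ⟨h4, h5 | h5⟩⟩
      · exact Or.inl ⟨⟨h1, h2, h3⟩, h4, h5⟩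
      · exact Or.inr (Or.inl ⟨⟨h1, h2, h3⟩, h4, h5⟩)
      · exact Or.inr (Or.inr ⟨⟨h1, h2, h3⟩, h4, h5⟩)
    · rintro (⟨⟨h1, h2, h3⟩, h4, h5⟩ | ⟨⟨h1, h2, h3⟩, h4, h5⟩ | ⟨⟨h1, h2, h3⟩, h4, h5⟩)
      · exact ⟨h1, h2, h3, Or.inl ⟨h4, h5⟩⟩
      · exact ⟨h1, h2, h3, Or.inr ⟨h4, Or.inl h5⟩⟩
      · exact ⟨h1, h2, h3, Or.inr ⟨h4, Or.inr h5⟩⟩
  rw [this]
  exact hA0c.union (hA1c.union hA2c)

/-- first coordinate of the curve through `(q,t)` -/
def cq (p q s : ℝ) : ℝ := p ^ 2 + s ^ 2 * (q - p ^ 2)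

/-- second coordinate of the curve through `(q,t)` -/
def ct (p q t s : ℝ) : ℝ :=
  p ^ 3 + 3 * p * (s ^ 2 * (q - p ^ 2)) + s ^ 3 * (t - 3 * p * q + 2 * p ^ 3)

/-- The curve leaves the region at a boundary point. -/
theorem exit_point {p q t : ℝ} (hp0 : 0 < p) (hp1 : p < 1) (hq : p ^ 2 < q) (ht : 0 ≤ t)
    (htq : t ≤ q) (hU : Upp p q t) :
    ∃ s, 1 ≤ s ∧ 0 ≤ ct p q t s ∧ ct p q t s ≤ cq p q s ∧ Upp p (cq p q s) (ct p q t s) ∧
      (ct p q t s = 0 ∨ ct p q t s = cq p q s ∨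
        (ct p q t s ≤ tstar p ∧ cq p q s = (p + ct p q t s) / 2) ∨
        (∃ x a, F1 p (ct p q t s) x a ∧ cq p q s = q1 x a) ∨
        (∃ b z, F2 p (ct p q t s) b z ∧ cq p q s = q2 b z)) := by
  set M : ℝ := 1 / (q - p ^ 2) + 1 with hM
  have hd : 0 < q - p ^ 2 := by linarith
  have hM1 : 1 < M := by
    have : 0 < 1 / (q - p ^ 2) := by positivity
    linarith
  have hMq : 1 ≤ M ^ 2 * (q - p ^ 2) := by
    have h1 : 1 ≤ M * (q - p ^ 2) := by
      rw [hM, add_mul, one_div, inv_mul_cancel₀ hd.ne']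
      linarith
    nlinarith
  have hcf : Continuous (cq p q) := by
    unfold cq
    fun_prop
  have hcg : Continuous (ct p q t) := by
    unfold ct
    fun_prop
  have hcomp := upp_compact (p := p) (M := M) hcf hcg
  set A := {s | s ∈ Icc (1 : ℝ) M ∧ 0 ≤ ct p q t s ∧ ct p q t s ≤ cq p q s ∧
    Upp p (cq p q s) (ct p q t s)} with hA
  have e1 : cq p q 1 = q := by rw [cq]; ring
  have e2 : ct p q t 1 = t := by rw [ct]; ring
  have h1A : (1 : ℝ) ∈ A := by
    refine ⟨⟨le_refl 1, hM1.le⟩, ?_, ?_, ?_⟩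
    · rw [e2]; exact ht
    · rw [e1, e2]; exact htq
    · rw [e1, e2]; exact hU
  obtain ⟨s, hsA, hsmax⟩ := hcomp.exists_isGreatest ⟨1, h1A⟩
  obtain ⟨⟨hs1, hsM⟩, hs2, hs3, hs4⟩ := hsA
  refine ⟨s, hs1, hs2, hs3, hs4, ?_⟩
  by_contra hcon
  push Not at hcon
  obtain ⟨c1, c2, c3, c4, c5⟩ := hcon
  have hlt : ct p q t s < cq p q s := lt_of_le_of_ne hs3 c2
  have hpos : 0 < ct p q t s := lt_of_le_of_ne hs2 (Ne.symm c1)
  have hsM' : s < M := by
    refine lt_of_le_of_ne hsM fun h => ?_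
    have := upp_le hp0 hp1 hs3 hs4
    rw [h, cq] at this
    nlinarith [sq_nonneg p]
  rcases upp_open hp0 hp1 hs4 hlt with h | h | h | h
  · exact c3 h.1 h.2
  · obtain ⟨x, a, h1, h2⟩ := h
    exact c4 x a h1 h2
  · obtain ⟨b, z, h1, h2⟩ := h
    exact c5 b z h1 h2
  · have hc : Continuous fun s => (cq p q s, ct p q t s) := hcf.prodMk hcg
    have g1 : ∀ᶠ s' in 𝓝 s, Upp p (cq p q s') (ct p q t s') := (hc.tendsto s).eventually h
    have g2 : ∀ᶠ s' in 𝓝 s, 0 < ct p q t s' := (hcg.tendsto s).eventually (lt_mem_nhds hpos)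
    have g3 : ∀ᶠ s' in 𝓝 s, 0 < cq p q s' - ct p q t s' :=
      ((hcf.sub hcg).tendsto s).eventually (lt_mem_nhds (by simpa using hlt))
    have g4 : ∀ᶠ s' in 𝓝 s, s' < M := gt_mem_nhds hsM'
    have g5 : ∃ᶠ s' in 𝓝 s, s < s' := by
      have : (𝓝[>] s).NeBot := inferInstance
      exact (frequently_nhdsWithin_iff.1 (eventually_mem_nhdsWithin (a := s)
        (s := Ioi s)).frequently).mono fun x hx => hx.2
    obtain ⟨s', ⟨⟨⟨⟨u5, u1⟩, u2⟩, u3⟩, u4⟩⟩ := ((((g5.and_eventually g1).and_eventually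
      g2).and_eventually g3).and_eventually g4).exists
    have : s' ∈ A := ⟨⟨by linarith, u4.le⟩, u2.le, by linarith, u1⟩
    have := hsmax this
    linarith

/-- A point is realised when some later point of its curve is. -/
theorem step_of_curve {p q t s : ℝ} (hs : 1 ≤ s) (h : StepPt p (cq p q s) (ct p q t s)) :
    StepPt p q t := by
  have hs0 : s ≠ 0 := by linarith
  have := h.mix (s := 1 / s) (by positivity) (by rw [div_le_one (by linarith)]; exact hs)
  have e1 : p ^ 2 + (1 / s) ^ 2 * (cq p q s - p ^ 2) = q := by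
    rw [cq]
    field_simp
    ring
  have e2 : (1 / s) ^ 2 * (cq p q s - p ^ 2) = q - p ^ 2 := by linarith
  have e3 : ct p q t s - 3 * p * cq p q s + 2 * p ^ 3 = s ^ 3 * (t - 3 * p * q + 2 * p ^ 3) := by
    rw [ct, cq]
    ring
  rw [e2, e3] at this
  convert this using 1
  · ring
  · field_simp
    ring

/-- numerator inequality along `d₂ = 0` -/
lemma dir_mono {p τ h : ℝ} (hp0 : 0 < p) (hp : p ≤ 1 / 2) (h1 : p ^ 2 < τ) (h2 : τ < h)
    (hτ : τ ≤ p) :
    √(τ - p ^ 2) ^ 3 * (h - 3 * p * h + 2 * p ^ 3) <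
      (τ - 3 * p * τ + 2 * p ^ 3) * √(h - p ^ 2) ^ 3 := by
  set y := √(τ - p ^ 2) with hy
  set Y := √(h - p ^ 2) with hY
  have y0 : 0 < y := Real.sqrt_pos.2 (by linarith)
  have yY : y < Y := Real.sqrt_lt_sqrt (by linarith) (by linarith)
  have y2 : y ^ 2 = τ - p ^ 2 := Real.sq_sqrt (by linarith)
  have Y2 : Y ^ 2 = h - p ^ 2 := Real.sq_sqrt (by linarith)
  have e1 : τ = y ^ 2 + p ^ 2 := by linarith
  have e2 : h = Y ^ 2 + p ^ 2 := by linarith
  have key : (τ - 3 * p * τ + 2 * p ^ 3) * Y ^ 3 - y ^ 3 * (h - 3 * p * h + 2 * p ^ 3) =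
      (Y - y) * ((1 - 3 * p) * y ^ 2 * Y ^ 2 + p ^ 2 * (1 - p) * (Y ^ 2 + Y * y + y ^ 2)) := by
    rw [e1, e2]
    ring
  have hb : 0 < (1 - 3 * p) * y ^ 2 * Y ^ 2 + p ^ 2 * (1 - p) * (Y ^ 2 + Y * y + y ^ 2) := by
    have hA : 0 ≤ (1 - 3 * p) * y ^ 2 + p ^ 2 * (1 - p) := by
      have : y ^ 2 ≤ p * (1 - p) := by rw [y2]; linarith
      rcases le_total p (1 / 3) with h3 | h3
      · have : 0 ≤ (1 - 3 * p) * y ^ 2 := mul_nonneg (by linarith) (sq_nonneg _)
        have : 0 ≤ p ^ 2 * (1 - p) := mul_nonneg (sq_nonneg _) (by linarith)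
        linarith
      · have h4 : (3 * p - 1) * y ^ 2 ≤ (3 * p - 1) * (p * (1 - p)) :=
          mul_le_mul_of_nonneg_left this (by linarith)
        have h5 : (3 * p - 1) * (p * (1 - p)) ≤ p * (p * (1 - p)) :=
          mul_le_mul_of_nonneg_right (by linarith) (mul_nonneg hp0.le (by linarith))
        nlinarith
    have hB : 0 ≤ ((1 - 3 * p) * y ^ 2 + p ^ 2 * (1 - p)) * Y ^ 2 :=
      mul_nonneg hA (sq_nonneg _)
    have hC : 0 < p ^ 2 * (1 - p) * (Y * y + y ^ 2) := by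
      have : 0 < 1 - p := by linarith
      have : 0 < Y := by linarith
      positivity
    nlinarith
  have := mul_pos (sub_pos.2 yY) hb
  linarith

/-- All points of the explicit region over `p ≤ 1/2` in the directions up to that of the
union of cliques `(h,h)` are realised. -/
theorem region_step {k : ℕ} (hk : 1 ≤ k) {p c r q t : ℝ} (hr : 0 ≤ r) (hrc : r ≤ c)
    (h1 : k * c + r = 1) (hs : k * c ^ 2 + r ^ 2 = p) (hp0 : 0 < p) (hp : p ≤ 1 / 2)
    (hq : p ^ 2 ≤ q) (ht : 0 ≤ t) (htq : t ≤ q) (hU : Upp p q t)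
    (hdir : (t - 3 * p * q + 2 * p ^ 3) * √((k * c ^ 3 + r ^ 3) - p ^ 2) ^ 3 ≤
      √(q - p ^ 2) ^ 3 * ((k * c ^ 3 + r ^ 3) - 3 * p * (k * c ^ 3 + r ^ 3) + 2 * p ^ 3)) :
    StepPt p q t := by
  set h := (k : ℝ) * c ^ 3 + r ^ 3 with hh
  have hp1 : p < 1 := by linarith
  have hsp : √p ^ 2 = p := Real.sq_sqrt hp0.le
  have hk0 : (0 : ℝ) ≤ k := by positivity
  have hph : p ^ 2 ≤ h := by
    have e : h - p ^ 2 = h * (k * c + r) - (k * c ^ 2 + r ^ 2) ^ 2 := by rw [h1, hs]; ring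
    have e2 : h * (k * c + r) - (k * c ^ 2 + r ^ 2) ^ 2 = k * (c * r * (c - r) ^ 2) := by
      rw [hh]; ring
    have : 0 ≤ k * (c * r * (c - r) ^ 2) := by
      have : 0 ≤ c := hr.trans hrc
      positivity
    linarith
  rcases eq_or_lt_of_le hq with hq0 | hq0
  · -- regular case
    rw [← hq0] at hdir htq ⊢
    have ebase : StepPt p (p ^ 2) 0 := step_bip hp0 (le_refl _) (by nlinarith)
    have hcube : ∀ y : ℝ, 0 ≤ y → y ≤ 1 → ∃ s : ℝ, 0 ≤ s ∧ s ≤ 1 ∧ s ^ 3 = y := by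
      intro y hy0 hy1
      obtain ⟨s, hs, hs'⟩ := intermediate_value_Icc (zero_le_one (α := ℝ))
        (continuous_pow 3).continuousOn (show y ∈ Icc ((0 : ℝ) ^ 3) (1 ^ 3) by
          constructor <;> norm_num <;> assumption)
      exact ⟨s, hs.1, hs.2, hs'⟩
    rcases le_total t (p ^ 3) with ht3 | ht3
    · obtain ⟨s, s0, s1, s3⟩ := hcube (1 - t / p ^ 3)
        (by rw [sub_nonneg, div_le_one (by positivity)]; exact ht3)
        (by have : 0 ≤ t / p ^ 3 := by positivity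
            linarith)
      have := ebase.mix s0 s1
      convert this using 1
      · ring
      · rw [s3]
        field_simp
        ring
    · -- t > p^3 : needs h = p^2
      rcases eq_or_lt_of_le hph with hE | hE
      · have hcl : StepPt p (p ^ 2) (p ^ 2) :=
          clique_step hk hr hrc h1 hs hE.ge (by
            have : √p ^ 3 = p * √p := by
              calc √p ^ 3 = √p ^ 2 * √p := by ring
                _ = p * √p := by rw [hsp]
            rw [this]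
            have : p ≤ √p := by
              apply Real.le_sqrt_of_sq_le
              nlinarith
            nlinarith)
        have hpp : 0 < p ^ 2 - p ^ 3 := by
          have : 0 < p ^ 2 * (1 - p) := mul_pos (by positivity) (by linarith)
          linarith
        obtain ⟨s, s0, s1, s3⟩ := hcube ((t - p ^ 3) / (p ^ 2 - p ^ 3))
          (div_nonneg (by linarith) hpp.le)
          (by rw [div_le_one hpp]; linarith)
        have := hcl.mix s0 s1
        convert this using 1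
        · ring
        · have e : p ^ 2 - 3 * p * p ^ 2 + 2 * p ^ 3 = p ^ 2 - p ^ 3 := by ring
          rw [s3, e, div_mul_cancel₀ _ hpp.ne']
          ring
      · have hY : 0 < √(h - p ^ 2) := Real.sqrt_pos.2 (by linarith)
        have e : √(p ^ 2 - p ^ 2) ^ 3 = 0 := by simp
        rw [e, zero_mul] at hdir
        have : t - 3 * p * p ^ 2 + 2 * p ^ 3 ≤ 0 := by
          by_contra hcon
          push Not at hcon
          have : 0 < (t - 3 * p * p ^ 2 + 2 * p ^ 3) * √(h - p ^ 2) ^ 3 := by positivity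
          linarith
        have ht' : t = p ^ 3 := by linarith
        have := ebase.mix (le_refl 0) zero_le_one
        convert this using 1
        · ring
        · rw [ht']; ring
  · obtain ⟨s, s1, g0, g1, gU, gcase⟩ := exit_point hp0 hp1 hq0 ht htq hU
    apply step_of_curve s1
    have hcq : p ^ 2 < cq p q s := by
      rw [cq]
      have : 0 < s ^ 2 * (q - p ^ 2) := by
        have : 0 < q - p ^ 2 := by linarith
        positivity
      linarith
    have hcqp : cq p q s ≤ p := upp_le hp0 hp1 g1 gU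
    rcases gcase with hc | hc | ⟨hc1, hc2⟩ | ⟨x, a, hc1, hc2⟩ | ⟨b, z, hc1, hc2⟩
    · rw [hc]
      apply step_bip hp0 hcq.le
      rcases gU with ⟨_, g3⟩ | ⟨g3, _⟩
      · rw [hc] at g3
        linarith
      · have := tstar_pos hp0 hp1
        rw [hc] at g3
        linarith
    · have hle3 := upp_t_le hp0 hp1 gU
      rw [hc] at hle3
      rw [hc]
      apply clique_step hk hr hrc h1 hs _ hle3
      by_contra hcon
      push Not at hcon
      have hm := dir_mono hp0 hp hcq hcon hcqp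
      have e1 : √(cq p q s - p ^ 2) = s * √(q - p ^ 2) := by
        have : cq p q s - p ^ 2 = s ^ 2 * (q - p ^ 2) := by rw [cq]; ring
        rw [this, Real.sqrt_mul (by positivity), Real.sqrt_sq (by linarith)]
      have e2 : cq p q s - 3 * p * cq p q s + 2 * p ^ 3 =
          s ^ 3 * (t - 3 * p * q + 2 * p ^ 3) := by
        have : ct p q t s - 3 * p * cq p q s + 2 * p ^ 3 =
            s ^ 3 * (t - 3 * p * q + 2 * p ^ 3) := by
          rw [ct, cq]; ring
        rw [← this, hc]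
      rw [e1, e2] at hm
      have hs3 : 0 < s ^ 3 := by positivity
      have := mul_le_mul_of_nonneg_left hdir hs3.le
      nlinarith
    · rw [hc2]
      exact top_step_half hp0 hp g0 hc1
    · rw [hc2]
      exact step_F1 hc1
    · rw [hc2]
      exact step_F2 hc1

end LibProf47
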