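import Mathlib
import Pool.Agent.LibProf47.Base

set_option autoImplicit false

/-!
# The Gini type inequality (task C4 of MP_096a05_co)

For numbers `x ∈ [0, A]` with mean at least `A / 2`: `E min(X, X') * E X² ≤ (E X)³`.
The proof is a pointwise inequality for three independent copies of `X`.
-/

namespace LibProf47

namespace GiniAux

/-- Pointwise inequality, sorted case. -/
lemma key_sorted (x y z A : ℝ) (hx : 0 ≤ x) (hxy : x ≤ y) (hyz : y ≤ z) (hz : z ≤ A) :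
    (x * z ^ 2 + y * x ^ 2 + x * y ^ 2) + (1 / 2) * ((2 * z - A) * (x * (y - x))
      + (2 * x - A) * (y * (z - y)) + (2 * y - A) * (x * (z - x))) ≤ 3 * (x * y * z) := by
  have h1 : 0 ≤ x * (A - y) * (y - x) :=
    mul_nonneg (mul_nonneg hx (by linarith)) (by linarith)
  have h2 : 0 ≤ y * (A - z) * (z - y) :=
    mul_nonneg (mul_nonneg (by linarith) (by linarith)) (by linarith)
  have h3 : 0 ≤ x * (A - z) * (z - x) :=
    mul_nonneg (mul_nonneg hx (by linarith)) (by linarith)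
  have h4 : 0 ≤ (y - x) * (z - y) * (z - x) :=
    mul_nonneg (mul_nonneg (by linarith) (by linarith)) (by linarith)
  nlinarith [h1, h2, h3, h4]

/-- Pointwise inequality. -/
lemma key (x y z A : ℝ) (hx : 0 ≤ x ∧ x ≤ A) (hy : 0 ≤ y ∧ y ≤ A) (hz : 0 ≤ z ∧ z ≤ A) :
    (min x y * z ^ 2 + min y z * x ^ 2 + min z x * y ^ 2)
      + (1 / 2) * ((2 * z - A) * (min x y * |x - y|) + (2 * x - A) * (min y z * |y - z|)
        + (2 * y - A) * (min z x * |z - x|)) ≤ 3 * (x * y * z) := by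
  rcases le_total x y with h1 | h1 <;> rcases le_total y z with h2 | h2 <;>
    rcases le_total z x with h3 | h3
  all_goals
    simp only [min_eq_left, min_eq_right, h1, h2, h3, abs_of_nonneg, abs_of_nonpos,
      sub_nonneg, sub_nonpos]
  · have := key_sorted x y z A hx.1 h1 h2 hz.2
    have e1 : x = y := le_antisymm h1 (h2.trans h3)
    have e2 : y = z := le_antisymm h2 (h3.trans h1)
    subst e1; subst e2; nlinarith
  · have := key_sorted x y z A hx.1 h1 h2 hz.2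
    nlinarith
  · have := key_sorted z x y A hz.1 h3 h1 hy.2
    nlinarith
  · have := key_sorted x z y A hx.1 h3 h2 hy.2
    nlinarith
  · have := key_sorted y z x A hy.1 h2 h3 hx.2
    nlinarith
  · have := key_sorted y x z A hy.1 h1 h3 hz.2
    nlinarith
  · have := key_sorted z y x A hz.1 h2 h1 hx.2
    nlinarith
  · have e1 : y = x := le_antisymm h1 (h3.trans h2)
    have e2 : z = y := le_antisymm h2 (h1.trans h3)
    subst e1; subst e2; nlinarith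

/-- The main inequality when the mean is at least half of `A`. -/
lemma main {ι : Type*} (I : Finset ι) (δ : ι → ℝ) (A : ℝ)
    (h : ∀ k ∈ I, 0 ≤ δ k ∧ δ k ≤ A) (hm : A * (I.card : ℝ) ≤ 2 * ∑ k ∈ I, δ k) :
    (∑ k ∈ I, ∑ l ∈ I, min (δ k) (δ l)) * (∑ k ∈ I, δ k ^ 2) ≤ (∑ k ∈ I, δ k) ^ 3 := by
  set m := ∑ k ∈ I, δ k with hmdef
  set w := ∑ k ∈ I, δ k ^ 2 with hw
  set Q := ∑ k ∈ I, ∑ l ∈ I, min (δ k) (δ l) with hQ
  set K := ∑ k ∈ I, ∑ l ∈ I, min (δ k) (δ l) * |δ k - δ l| with hK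
  have hKnn : 0 ≤ K := by
    apply Finset.sum_nonneg; intro k hk
    apply Finset.sum_nonneg; intro l hl
    exact mul_nonneg (le_min (h k hk).1 (h l hl).1) (abs_nonneg _)
  -- sums of the pieces
  have s1 : ∀ f : ι → ι → ℝ, ∀ g : ι → ℝ,
      ∑ k ∈ I, ∑ l ∈ I, ∑ r ∈ I, f k l * g r = (∑ k ∈ I, ∑ l ∈ I, f k l) * ∑ r ∈ I, g r := by
    intro f g
    rw [Finset.sum_mul]
    apply Finset.sum_congr rfl; intro k _
    rw [Finset.sum_mul]
    apply Finset.sum_congr rfl; intro l _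
    rw [Finset.mul_sum]
  have s2 : ∀ f : ι → ι → ℝ, ∀ g : ι → ℝ,
      ∑ k ∈ I, ∑ l ∈ I, ∑ r ∈ I, f l r * g k = (∑ k ∈ I, ∑ l ∈ I, f k l) * ∑ r ∈ I, g r := by
    intro f g
    rw [mul_comm, Finset.sum_mul]
    apply Finset.sum_congr rfl; intro k _
    rw [Finset.mul_sum]
    apply Finset.sum_congr rfl; intro l _
    rw [Finset.mul_sum]
    apply Finset.sum_congr rfl; intro r _
    ring
  have s3 : ∀ f : ι → ι → ℝ, ∀ g : ι → ℝ,
      ∑ k ∈ I, ∑ l ∈ I, ∑ r ∈ I, f r k * g l = (∑ k ∈ I, ∑ l ∈ I, f k l) * ∑ r ∈ I, g r := by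
    intro f g
    have : ∀ k ∈ I, ∑ l ∈ I, ∑ r ∈ I, f r k * g l = (∑ r ∈ I, f r k) * ∑ l ∈ I, g l := by
      intro k _
      rw [Finset.sum_mul_sum, Finset.sum_comm]
    rw [Finset.sum_congr rfl this, ← Finset.sum_mul, Finset.sum_comm]
  have hcard : ∑ r ∈ I, (2 * δ r - A) = 2 * m - A * I.card := by
    rw [Finset.sum_sub_distrib, ← Finset.mul_sum, Finset.sum_const, nsmul_eq_mul]
    ring
  have key' : ∑ k ∈ I, ∑ l ∈ I, ∑ r ∈ I,
      ((min (δ k) (δ l) * (δ r) ^ 2 + min (δ l) (δ r) * (δ k) ^ 2 + min (δ r) (δ k) * (δ l) ^ 2)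
      + (1 / 2) * ((2 * δ r - A) * (min (δ k) (δ l) * |δ k - δ l|)
        + (2 * δ k - A) * (min (δ l) (δ r) * |δ l - δ r|)
        + (2 * δ l - A) * (min (δ r) (δ k) * |δ r - δ k|))) ≤
      ∑ k ∈ I, ∑ l ∈ I, ∑ r ∈ I, 3 * (δ k * δ l * δ r) := by
    apply Finset.sum_le_sum; intro k hk
    apply Finset.sum_le_sum; intro l hl
    apply Finset.sum_le_sum; intro r hr
    exact key (δ k) (δ l) (δ r) A (h k hk) (h l hl) (h r hr)
  have e1 : ∑ k ∈ I, ∑ l ∈ I, ∑ r ∈ I, min (δ k) (δ l) * (δ r) ^ 2 = Q * w :=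
    s1 (fun k l => min (δ k) (δ l)) (fun r => δ r ^ 2)
  have e2 : ∑ k ∈ I, ∑ l ∈ I, ∑ r ∈ I, min (δ l) (δ r) * (δ k) ^ 2 = Q * w :=
    s2 (fun k l => min (δ k) (δ l)) (fun r => δ r ^ 2)
  have e3 : ∑ k ∈ I, ∑ l ∈ I, ∑ r ∈ I, min (δ r) (δ k) * (δ l) ^ 2 = Q * w :=
    s3 (fun k l => min (δ k) (δ l)) (fun r => δ r ^ 2)
  have f1 : ∑ k ∈ I, ∑ l ∈ I, ∑ r ∈ I, (min (δ k) (δ l) * |δ k - δ l|) * (2 * δ r - A)
      = K * (2 * m - A * I.card) := by
    rw [← hcard]; exact s1 (fun k l => min (δ k) (δ l) * |δ k - δ l|) (fun r => 2 * δ r - A)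
  have f2 : ∑ k ∈ I, ∑ l ∈ I, ∑ r ∈ I, (min (δ l) (δ r) * |δ l - δ r|) * (2 * δ k - A)
      = K * (2 * m - A * I.card) := by
    rw [← hcard]; exact s2 (fun k l => min (δ k) (δ l) * |δ k - δ l|) (fun r => 2 * δ r - A)
  have f3 : ∑ k ∈ I, ∑ l ∈ I, ∑ r ∈ I, (min (δ r) (δ k) * |δ r - δ k|) * (2 * δ l - A)
      = K * (2 * m - A * I.card) := by
    rw [← hcard]; exact s3 (fun k l => min (δ k) (δ l) * |δ k - δ l|) (fun r => 2 * δ r - A)
  have g1 : ∑ k ∈ I, ∑ l ∈ I, ∑ r ∈ I, (δ k * δ l) * δ r = m ^ 3 := by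
    have := s1 (fun k l => δ k * δ l) δ
    rw [this, ← Finset.sum_mul_sum]
    ring
  have hL : ∑ k ∈ I, ∑ l ∈ I, ∑ r ∈ I,
      ((min (δ k) (δ l) * (δ r) ^ 2 + min (δ l) (δ r) * (δ k) ^ 2 + min (δ r) (δ k) * (δ l) ^ 2)
      + (1 / 2) * ((2 * δ r - A) * (min (δ k) (δ l) * |δ k - δ l|)
        + (2 * δ k - A) * (min (δ l) (δ r) * |δ l - δ r|)
        + (2 * δ l - A) * (min (δ r) (δ k) * |δ r - δ k|)))
      = 3 * (Q * w) + (3 / 2) * (K * (2 * m - A * I.card)) := by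
    have : ∀ k l r : ι,
        ((min (δ k) (δ l) * (δ r) ^ 2 + min (δ l) (δ r) * (δ k) ^ 2
          + min (δ r) (δ k) * (δ l) ^ 2)
        + (1 / 2) * ((2 * δ r - A) * (min (δ k) (δ l) * |δ k - δ l|)
          + (2 * δ k - A) * (min (δ l) (δ r) * |δ l - δ r|)
          + (2 * δ l - A) * (min (δ r) (δ k) * |δ r - δ k|)))
        = min (δ k) (δ l) * (δ r) ^ 2 + min (δ l) (δ r) * (δ k) ^ 2
          + min (δ r) (δ k) * (δ l) ^ 2
          + (1 / 2) * ((min (δ k) (δ l) * |δ k - δ l|) * (2 * δ r - A))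
          + (1 / 2) * ((min (δ l) (δ r) * |δ l - δ r|) * (2 * δ k - A))
          + (1 / 2) * ((min (δ r) (δ k) * |δ r - δ k|) * (2 * δ l - A)) := by
      intro k l r; ring
    simp only [this, Finset.sum_add_distrib, ← Finset.mul_sum]
    have e1' : ∑ k ∈ I, ∑ l ∈ I, min (δ k) (δ l) * ∑ r ∈ I, (δ r) ^ 2 = Q * w := by
      rw [← e1]; simp only [Finset.mul_sum]
    have f1' : ∑ k ∈ I, ∑ l ∈ I, min (δ k) (δ l) * |δ k - δ l| * ∑ r ∈ I, (2 * δ r - A)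
        = K * (2 * m - A * I.card) := by
      rw [← f1]; simp only [Finset.mul_sum]
    rw [e1', e2, e3, f1', f2, f3]
    ring
  have hR : ∑ k ∈ I, ∑ l ∈ I, ∑ r ∈ I, 3 * (δ k * δ l * δ r) = 3 * m ^ 3 := by
    simp only [← Finset.mul_sum]
    have : ∑ k ∈ I, ∑ l ∈ I, δ k * δ l * ∑ r ∈ I, δ r = m ^ 3 := by
      rw [← g1]
      simp only [Finset.mul_sum]
    rw [this]
  rw [hL, hR] at key'
  have : 0 ≤ K * (2 * m - A * I.card) := mul_nonneg hKnn (by linarith)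
  linarith

end GiniAux

theorem gini {ι : Type*} (I : Finset ι) (δ : ι → ℝ) (A : ℝ)
    (h : ∀ k ∈ I, 0 ≤ δ k ∧ δ k ≤ A) :
    (∑ k ∈ I, ∑ l ∈ I, min (δ k) (δ l)) * (∑ k ∈ I, δ k ^ 2) ≤ (∑ k ∈ I, δ k) ^ 3 ∨
    (∑ k ∈ I, ∑ l ∈ I, min (A - δ k) (A - δ l)) * (∑ k ∈ I, (A - δ k) ^ 2) ≤
      (∑ k ∈ I, (A - δ k)) ^ 3 := by
  rcases le_total (A * (I.card : ℝ)) (2 * ∑ k ∈ I, δ k) with hm | hm
  · left; exact GiniAux.main I δ A h hm
  · right
    apply GiniAux.main I (fun k => A - δ k) A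
    · intro k hk; have := h k hk; constructor <;> linarith
    · rw [Finset.sum_sub_distrib, Finset.sum_const, nsmul_eq_mul]
      nlinarith

end LibProf47
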