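import Mathlib
import Pool.Agent.LibProf47.Base

set_option autoImplicit false

namespace LibProf47

namespace C3

variable {n : ℕ} (G : SimpleGraph (Fin n))

lemma ad_of_adj {x y : Fin n} (h : G.Adj x y) : ad G x y = 1 := by
  simp [ad, h]

lemma ad_of_not_adj {x y : Fin n} (h : ¬ G.Adj x y) : ad G x y = 0 := by
  simp [ad, h]

lemma ad_comm (x y : Fin n) : ad G x y = ad G y x := by
  by_cases h : G.Adj x y
  · rw [ad_of_adj G h, ad_of_adj G h.symm]
  · rw [ad_of_not_adj G h, ad_of_not_adj G (fun e => h e.symm)]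

lemma ad_nonneg (x y : Fin n) : 0 ≤ ad G x y := by
  unfold ad; split_ifs <;> norm_num

lemma ad_le_one (x y : Fin n) : ad G x y ≤ 1 := by
  unfold ad; split_ifs <;> norm_num

lemma ad_mul_self (x y : Fin n) : ad G x y * ad G x y = ad G x y := by
  unfold ad; split_ifs <;> norm_num

/-- a maximum clique of a nested graph has an independent complement -/
lemma exists_split (h : Nested G) : ∃ K : Finset (Fin n),
    (∀ x ∈ K, ∀ y ∈ K, x ≠ y → G.Adj x y) ∧ (∀ x ∉ K, ∀ y ∉ K, ¬ G.Adj x y) := by
  classical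
  set cand : Finset (Finset (Fin n)) :=
    Finset.univ.filter (fun K => ∀ x ∈ K, ∀ y ∈ K, x ≠ y → G.Adj x y) with hc
  obtain ⟨K, hK, hmax⟩ := Finset.exists_max_image cand Finset.card ⟨∅, by simp [hc]⟩
  have hK : ∀ x ∈ K, ∀ y ∈ K, x ≠ y → G.Adj x y := by simpa [hc] using hK
  have hmax : ∀ L : Finset (Fin n), (∀ x ∈ L, ∀ y ∈ L, x ≠ y → G.Adj x y) → L.card ≤ K.card :=
    fun L hL => hmax L (by simpa [hc] using hL)
  have hno : ∀ v ∉ K, ∃ w ∈ K, ¬ G.Adj v w := by
    intro v hv
    by_contra hcon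
    push Not at hcon
    have := hmax (insert v K) (by
      intro x hx y hy hxy
      rcases Finset.mem_insert.mp hx with hx | hx
      · rcases Finset.mem_insert.mp hy with hy | hy
        · exact absurd (hx.trans hy.symm) hxy
        · rw [hx]; exact hcon y hy
      · rcases Finset.mem_insert.mp hy with hy | hy
        · rw [hy]; exact (hcon x hx).symm
        · exact hK x hx y hy hxy)
    rw [Finset.card_insert_of_notMem hv] at this
    omega
  have key : ∀ u ∉ K, ∀ v ∉ K, G.Adj u v → (∀ k, k ≠ v → G.Adj u k → G.Adj v k) → False := by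
    intro u hu v hv huv hn
    obtain ⟨w, hw, hvw⟩ := hno v hv
    have hwv : w ≠ v := fun e => hv (e ▸ hw)
    have hwu : w ≠ u := fun e => hu (e ▸ hw)
    have huw : ¬ G.Adj u w := fun e => hvw (hn w hwv e)
    have h1 : ∀ k, k ≠ u → G.Adj w k → G.Adj u k := by
      rcases h u w with h' | h'
      · exact absurd (h' v (fun e => hwv e.symm) huv).symm hvw
      · exact h'
    have h2 : ∀ k, k ≠ v → G.Adj w k → G.Adj v k := by
      rcases h v w with h' | h'
      · exact absurd (h' u (fun e => hwu e.symm) huv.symm).symm huw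
      · exact h'
    have hu2 : ∀ k ∈ K.erase w, G.Adj u k := by
      intro k hk
      obtain ⟨hkw, hkK⟩ := Finset.mem_erase.mp hk
      exact h1 k (fun e => hu (e ▸ hkK)) (hK w hw k hkK (fun e => hkw e.symm))
    have hv2 : ∀ k ∈ K.erase w, G.Adj v k := by
      intro k hk
      obtain ⟨hkw, hkK⟩ := Finset.mem_erase.mp hk
      exact h2 k (fun e => hv (e ▸ hkK)) (hK w hw k hkK (fun e => hkw e.symm))
    have := hmax (insert u (insert v (K.erase w))) (by
      intro x hx y hy hxy
      simp only [Finset.mem_insert] at hx hy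
      rcases hx with hx | hx | hx <;> rcases hy with hy | hy | hy
      · exact absurd (hx.trans hy.symm) hxy
      · rw [hx, hy]; exact huv
      · rw [hx]; exact hu2 y hy
      · rw [hx, hy]; exact huv.symm
      · exact absurd (hx.trans hy.symm) hxy
      · rw [hx]; exact hv2 y hy
      · rw [hy]; exact (hu2 x hx).symm
      · rw [hy]; exact (hv2 x hx).symm
      · exact hK x (Finset.mem_of_mem_erase hx) y (Finset.mem_of_mem_erase hy) hxy)
    rw [Finset.card_insert_of_notMem, Finset.card_insert_of_notMem, Finset.card_erase_of_mem hw]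
      at this
    · have : 0 < K.card := Finset.card_pos.mpr ⟨w, hw⟩
      omega
    · exact fun e => hv (Finset.mem_of_mem_erase e)
    · intro e
      rcases Finset.mem_insert.mp e with e | e
      · rw [e] at huv; exact G.loopless.irrefl _ huv
      · exact hu (Finset.mem_of_mem_erase e)
  refine ⟨K, hK, fun u hu v hv huv => ?_⟩
  rcases h u v with h' | h'
  · exact key u hu v hv huv h'
  · exact key v hv u hu huv.symm h'

end C3

open C3 in
theorem nested_structure {n : ℕ} (G : SimpleGraph (Fin n)) (h : Nested G) :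
    ∃ (I : Finset (Fin n)) (δ : Fin n → ℝ) (a : ℕ), a + I.card = n ∧
      (∀ k ∈ I, 0 ≤ δ k ∧ δ k ≤ a) ∧
      S1 G = a * (a - 1) + 2 * ∑ k ∈ I, δ k ∧
      S2 G = a * (a - 1) ^ 2 + 2 * (a - 1) * ∑ k ∈ I, δ k
        + (∑ k ∈ I, ∑ l ∈ I, min (δ k) (δ l)) + ∑ k ∈ I, δ k ^ 2 ∧
      S3 G = a * (a - 1) * (a - 2) + 3 * (∑ k ∈ I, δ k ^ 2 - ∑ k ∈ I, δ k) := by
  classical
  obtain ⟨K, hK, hI⟩ := exists_split G h
  set I := Kᶜ with hIdef
  have hmI : ∀ x, x ∈ I ↔ x ∉ K := fun x => Finset.mem_compl
  set δ : Fin n → ℝ := fun k => ∑ i ∈ K, ad G k i with hδ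
  have split : ∀ f : Fin n → ℝ, ∑ x, f x = ∑ x ∈ K, f x + ∑ x ∈ I, f x :=
    fun f => (Finset.sum_add_sum_compl K f).symm
  have adII : ∀ x ∈ I, ∀ y ∈ I, ad G x y = 0 := fun x hx y hy =>
    ad_of_not_adj G (hI x ((hmI x).mp hx) y ((hmI y).mp hy))
  have adKK : ∀ x ∈ K, ∀ y ∈ K, ad G x y = 1 - (if x = y then 1 else 0) := by
    intro x hx y hy
    by_cases hxy : x = y
    · rw [if_pos hxy, hxy, ad_of_not_adj G (G.loopless.irrefl y)]; norm_num
    · rw [if_neg hxy, ad_of_adj G (hK x hx y hy hxy)]; norm_num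
  have sumKK : ∀ x ∈ K, ∑ y ∈ K, ad G x y = (K.card : ℝ) - 1 := by
    intro x hx
    rw [Finset.sum_congr rfl (adKK x hx), Finset.sum_sub_distrib, Finset.sum_ite_eq]
    simp [hx]
  have sumII : ∀ x ∈ I, ∑ y ∈ I, ad G x y = 0 := fun x hx =>
    Finset.sum_eq_zero (adII x hx)
  have sumKI : ∑ x ∈ K, ∑ y ∈ I, ad G x y = ∑ k ∈ I, δ k := by
    rw [Finset.sum_comm]
    refine Finset.sum_congr rfl fun k _ => Finset.sum_congr rfl fun i _ => ad_comm G i k
  -- nestedness of neighbourhoods in I
  have hmin : ∀ k ∈ I, ∀ l ∈ I, ∑ i ∈ K, ad G i k * ad G i l = min (δ k) (δ l) := by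
    have main : ∀ k ∈ I, ∀ l ∈ I, (∀ i ∈ K, G.Adj k i → G.Adj l i) →
        ∑ i ∈ K, ad G i k * ad G i l = min (δ k) (δ l) := by
      intro k hk l hl hkl
      have h1 : ∀ i ∈ K, ad G i k * ad G i l = ad G k i := by
        intro i hi
        rw [ad_comm G i k, ad_comm G i l]
        by_cases h : G.Adj k i
        · rw [ad_of_adj G h, ad_of_adj G (hkl i hi h)]; norm_num
        · rw [ad_of_not_adj G h]; norm_num
      have h2 : δ k ≤ δ l := by
        refine Finset.sum_le_sum fun i hi => ?_
        by_cases h : G.Adj k i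
        · rw [ad_of_adj G h, ad_of_adj G (hkl i hi h)]
        · rw [ad_of_not_adj G h]; exact ad_nonneg G _ _
      rw [Finset.sum_congr rfl h1, min_eq_left h2]
    intro k hk l hl
    rcases h k l with h' | h'
    · exact main k hk l hl fun i hi hki => h' i (fun e => (hmI l).mp hl (e ▸ hi)) hki
    · rw [min_comm, ← main l hl k hk fun i hi hli => h' i (fun e => (hmI k).mp hk (e ▸ hi)) hli]
      exact Finset.sum_congr rfl fun i _ => mul_comm _ _
  refine ⟨I, δ, K.card, ?_, ?_, ?_, ?_, ?_⟩
  · rw [hIdef, Finset.card_add_card_compl]; simp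
  · intro k _
    refine ⟨Finset.sum_nonneg fun i _ => ad_nonneg G _ _, ?_⟩
    calc δ k ≤ ∑ i ∈ K, (1 : ℝ) := Finset.sum_le_sum fun i _ => ad_le_one G _ _
      _ = K.card := by simp
  · unfold S1
    rw [split]
    simp only [split, Finset.sum_add_distrib]
    rw [Finset.sum_congr rfl sumKK, sumKI, Finset.sum_congr rfl sumII]
    simp only [Finset.sum_const, nsmul_eq_mul, mul_zero, add_zero]
    ring
  · unfold S2
    rw [split]
    have e1 : ∀ x ∈ K, (∑ y, ad G x y) ^ 2 =
        ((K.card : ℝ) - 1) ^ 2 + 2 * ((K.card : ℝ) - 1) * (∑ y ∈ I, ad G x y)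
          + ∑ k ∈ I, ∑ l ∈ I, ad G x k * ad G x l := by
      intro x hx
      rw [split, sumKK x hx, ← Finset.sum_mul_sum]
      ring
    have e2 : ∀ x ∈ I, (∑ y, ad G x y) ^ 2 = δ x ^ 2 := by
      intro x hx
      rw [split, sumII x hx, add_zero]
    rw [Finset.sum_congr rfl e1, Finset.sum_congr rfl e2, Finset.sum_add_distrib,
      Finset.sum_add_distrib, ← Finset.mul_sum, sumKI]
    have e3 : ∑ x ∈ K, ∑ k ∈ I, ∑ l ∈ I, ad G x k * ad G x l =
        ∑ k ∈ I, ∑ l ∈ I, min (δ k) (δ l) := by
      rw [Finset.sum_comm]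
      refine Finset.sum_congr rfl fun k hk => ?_
      rw [Finset.sum_comm]
      exact Finset.sum_congr rfl fun l hl => hmin k hk l hl
    rw [e3]
    simp only [Finset.sum_const, nsmul_eq_mul]
  · unfold S3
    -- one vertex in I
    have one : ∀ k ∈ I, ∑ y ∈ K, ∑ z ∈ K, ad G k y * ad G y z * ad G k z = δ k ^ 2 - δ k := by
      intro k _
      have e : ∀ y ∈ K, ∑ z ∈ K, ad G k y * ad G y z * ad G k z =
          ad G k y * δ k - ad G k y := by
        intro y hy
        have : ∀ z ∈ K, ad G k y * ad G y z * ad G k z =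
            ad G k y * ad G k z - (if y = z then ad G k y * ad G k z else 0) := by
          intro z hz
          rw [adKK y hy z hz]
          split_ifs <;> ring
        rw [Finset.sum_congr rfl this, Finset.sum_sub_distrib, Finset.sum_ite_eq, if_pos hy,
          ad_mul_self, ← Finset.mul_sum]
      rw [Finset.sum_congr rfl e, Finset.sum_sub_distrib, ← Finset.sum_mul]
      ring
    have hxI : ∑ x ∈ I, ∑ y, ∑ z, ad G x y * ad G y z * ad G x z =
        ∑ k ∈ I, δ k ^ 2 - ∑ k ∈ I, δ k := by
      rw [← Finset.sum_sub_distrib]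
      refine Finset.sum_congr rfl fun x hx => ?_
      rw [split, ← one x hx]
      have z1 : ∑ y ∈ I, ∑ z, ad G x y * ad G y z * ad G x z = 0 :=
        Finset.sum_eq_zero fun y hy => Finset.sum_eq_zero fun z _ => by
          rw [adII x hx y hy]; ring
      rw [z1, add_zero]
      refine Finset.sum_congr rfl fun y _ => ?_
      rw [split]
      have z2 : ∑ z ∈ I, ad G x y * ad G y z * ad G x z = 0 :=
        Finset.sum_eq_zero fun z hz => by rw [adII x hx z hz]; ring
      rw [z2, add_zero]
    have hyI : ∑ x ∈ K, ∑ y ∈ I, ∑ z, ad G x y * ad G y z * ad G x z =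
        ∑ k ∈ I, δ k ^ 2 - ∑ k ∈ I, δ k := by
      rw [Finset.sum_comm, ← Finset.sum_sub_distrib]
      refine Finset.sum_congr rfl fun y hy => ?_
      rw [← one y hy]
      refine Finset.sum_congr rfl fun x _ => ?_
      rw [split]
      have z2 : ∑ z ∈ I, ad G x y * ad G y z * ad G x z = 0 :=
        Finset.sum_eq_zero fun z hz => by rw [adII y hy z hz]; ring
      rw [z2, add_zero]
      refine Finset.sum_congr rfl fun z _ => ?_
      rw [ad_comm G x y]; ring
    have hzI : ∑ x ∈ K, ∑ y ∈ K, ∑ z ∈ I, ad G x y * ad G y z * ad G x z =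
        ∑ k ∈ I, δ k ^ 2 - ∑ k ∈ I, δ k := by
      rw [← Finset.sum_sub_distrib]
      have : ∀ x ∈ K, ∑ y ∈ K, ∑ z ∈ I, ad G x y * ad G y z * ad G x z =
          ∑ z ∈ I, ∑ y ∈ K, ad G x y * ad G y z * ad G x z := fun x _ => Finset.sum_comm
      rw [Finset.sum_congr rfl this, Finset.sum_comm]
      refine Finset.sum_congr rfl fun z hz => ?_
      rw [← one z hz]
      refine Finset.sum_congr rfl fun x _ => Finset.sum_congr rfl fun y _ => ?_
      rw [ad_comm G y z, ad_comm G x z]; ring
    have hKKK : ∑ x ∈ K, ∑ y ∈ K, ∑ z ∈ K, ad G x y * ad G y z * ad G x z =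
        (K.card : ℝ) * (K.card - 1) * (K.card - 2) := by
      have e : ∀ x ∈ K, ∀ y ∈ K, ∑ z ∈ K, ad G x y * ad G y z * ad G x z =
          ad G x y * ((K.card : ℝ) - 2) := by
        intro x hx y hy
        by_cases hxy : x = y
        · have h0 : ad G x y = 0 := by rw [hxy, ad_of_not_adj G (G.loopless.irrefl y)]
          rw [h0, zero_mul]
          exact Finset.sum_eq_zero fun z _ => by ring
        · have : ∀ z ∈ K, ad G x y * ad G y z * ad G x z =
              ad G x y * (1 - (if y = z then 1 else 0) - (if x = z then 1 else 0)) := by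
            intro z hz
            rw [adKK y hy z hz, adKK x hx z hz]
            by_cases hyz : y = z
            · have hxz : ¬ x = z := fun e => hxy (e.trans hyz.symm)
              rw [if_pos hyz, if_neg hxz]; ring
            · rw [if_neg hyz]; ring
          rw [Finset.sum_congr rfl this, ← Finset.mul_sum, Finset.sum_sub_distrib,
            Finset.sum_sub_distrib, Finset.sum_ite_eq, Finset.sum_ite_eq, if_pos hx, if_pos hy]
          simp only [Finset.sum_const, nsmul_eq_mul, mul_one]
          ring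
      have e2 : ∀ x ∈ K, ∑ y ∈ K, ∑ z ∈ K, ad G x y * ad G y z * ad G x z =
          ((K.card : ℝ) - 1) * ((K.card : ℝ) - 2) := by
        intro x hx
        rw [Finset.sum_congr rfl (e x hx), ← Finset.sum_mul, sumKK x hx]
      rw [Finset.sum_congr rfl e2]
      simp only [Finset.sum_const, nsmul_eq_mul]
      ring
    rw [split, hxI]
    have e3 : ∀ x ∈ K, ∑ y, ∑ z, ad G x y * ad G y z * ad G x z =
        (∑ y ∈ K, ∑ z ∈ K, ad G x y * ad G y z * ad G x z +
          ∑ y ∈ K, ∑ z ∈ I, ad G x y * ad G y z * ad G x z) +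
          ∑ y ∈ I, ∑ z, ad G x y * ad G y z * ad G x z := by
      intro x _
      rw [split, ← Finset.sum_add_distrib]
      congr 1
      exact Finset.sum_congr rfl fun y _ => split _
    rw [Finset.sum_congr rfl e3, Finset.sum_add_distrib, Finset.sum_add_distrib, hKKK, hzI, hyI]
    ring

end LibProf47
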