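import Mathlib
import Pool.Agent.LibProf47.Upper
import Pool.Agent.LibProf47.Counting
import Pool.Agent.LibProf47.Compression
import Pool.Agent.LibProf47.Split
import Pool.Agent.LibProf47.Gini

set_option autoImplicit false

/-!
# Passing to the limit
-/

namespace LibProf47

open Set Filter Topology

namespace Lim

lemma ad_nonneg {n : ℕ} (G : SimpleGraph (Fin n)) (x y : Fin n) : 0 ≤ ad G x y := by
  unfold ad
  split_ifs <;> norm_num

lemma ad_le_one {n : ℕ} (G : SimpleGraph (Fin n)) (x y : Fin n) : ad G x y ≤ 1 := by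
  unfold ad
  split_ifs <;> norm_num

lemma S1_nonneg {n : ℕ} (G : SimpleGraph (Fin n)) : 0 ≤ S1 G :=
  Finset.sum_nonneg fun _ _ => Finset.sum_nonneg fun _ _ => ad_nonneg G _ _

lemma S1_le {n : ℕ} (G : SimpleGraph (Fin n)) : S1 G ≤ (n : ℝ) ^ 2 := by
  have h : S1 G ≤ ∑ x : Fin n, ∑ y : Fin n, (1 : ℝ) :=
    Finset.sum_le_sum fun x _ => Finset.sum_le_sum fun y _ => ad_le_one G x y
  have h2 : ∑ x : Fin n, ∑ y : Fin n, (1 : ℝ) = (n : ℝ) ^ 2 := by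
    simp [sq]
  linarith

/-- the closed conditions on the limiting data -/
def Clo (v : ℝ × ℝ × ℝ × ℝ) : Prop :=
  (0 ≤ v.1 ∧ v.1 ≤ 1) ∧ (0 ≤ v.2.1 ∧ 0 ≤ v.2.2.1 ∧ 0 ≤ v.2.2.2) ∧
  (v.2.2.1 ≤ v.1 * v.2.1 ∧ v.2.1 ^ 2 ≤ (1 - v.1) * v.2.2.1 ∧ v.2.2.2 ≤ (1 - v.1) * v.2.1 ∧
    v.2.1 ^ 2 ≤ v.1 * v.2.2.2) ∧
  min (v.2.2.2 * v.2.2.1 - v.2.1 ^ 3)
    ((v.1 * (1 - v.1) ^ 2 - 2 * (1 - v.1) * v.2.1 + v.2.2.2) *
      (v.1 ^ 2 * (1 - v.1) - 2 * v.1 * v.2.1 + v.2.2.1) - (v.1 * (1 - v.1) - v.2.1) ^ 3) ≤ 0 ∧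
  (0 ≤ v.1 ^ 2 * (1 - v.1) - 2 * v.1 * v.2.1 + v.2.2.1 ∧
    0 ≤ v.1 * (1 - v.1) ^ 2 - 2 * (1 - v.1) * v.2.1 + v.2.2.2 ∧
    0 ≤ v.1 * (1 - v.1) - v.2.1)

lemma isClosed_clo : IsClosed {v | Clo v} := by
  unfold Clo
  simp only [Set.ofPred_and]
  refine IsClosed.inter (IsClosed.inter ?_ ?_) (IsClosed.inter (IsClosed.inter ?_
    (IsClosed.inter ?_ ?_)) (IsClosed.inter (IsClosed.inter ?_ (IsClosed.inter ?_
    (IsClosed.inter ?_ ?_))) (IsClosed.inter ?_ (IsClosed.inter ?_ (IsClosed.inter ?_ ?_))))) <;>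
  exact isClosed_le (by fun_prop) (by fun_prop)

lemma clo_mem {v : ℝ × ℝ × ℝ × ℝ} (h : Clo v) :
    v ∈ Icc (0 : ℝ) 1 ×ˢ Icc (0 : ℝ) 1 ×ˢ Icc (0 : ℝ) 1 ×ˢ Icc (0 : ℝ) 1 := by
  obtain ⟨⟨a0, a1⟩, ⟨m0, w0, Q0⟩, ⟨wm, mw, Qm, mQ⟩, -⟩ := h
  have hm : v.2.1 ≤ 1 := by
    by_contra hcon
    push Not at hcon
    nlinarith [mul_nonneg a0 w0, mul_nonneg (by linarith : (0:ℝ) ≤ 1 - v.1) m0]
  refine ⟨⟨a0, a1⟩, ⟨m0, hm⟩, ⟨w0, ?_⟩, ⟨Q0, ?_⟩⟩
  · nlinarith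
  · nlinarith

/-- data of a finite graph -/
theorem fin_data {n : ℕ} (hn : 0 < n) (G : SimpleGraph (Fin n)) :
    ∃ v : ℝ × ℝ × ℝ × ℝ, Clo v ∧
      S1 G / (n : ℝ) ^ 2 = v.1 * (v.1 - 1 / n) + 2 * v.2.1 ∧
      S3 G / (n : ℝ) ^ 3 ≤ v.1 * (v.1 - 1 / n) * (v.1 - 2 / n) + 3 * (v.2.2.1 - v.2.1 / n) ∧
      S2 G / (n : ℝ) ^ 3 - S3 G / (n : ℝ) ^ 3 / 3 ≤
        (v.1 * (v.1 - 1 / n) ^ 2 + 2 * (v.1 - 1 / n) * v.2.1 + v.2.2.2 + v.2.2.1) -
        (v.1 * (v.1 - 1 / n) * (v.1 - 2 / n) + 3 * (v.2.2.1 - v.2.1 / n)) / 3 := by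
  obtain ⟨G', hN, h1, h3, h2⟩ := exists_nested G
  obtain ⟨I, δ, a, haI, hδ, e1, e2, e3⟩ := nested_structure G' hN
  have hn' : (0 : ℝ) < n := by exact_mod_cast hn
  have hI : (I.card : ℝ) = n - a := by
    have : (a : ℝ) + I.card = n := by exact_mod_cast haI
    linarith
  have hIn : (0 : ℝ) ≤ n - a := by rw [← hI]; positivity
  have ha0 : (0 : ℝ) ≤ a := by positivity
  set m := ∑ k ∈ I, δ k with hm
  set w := ∑ k ∈ I, δ k ^ 2 with hw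
  set Q := ∑ k ∈ I, ∑ l ∈ I, min (δ k) (δ l) with hQ
  have m0 : 0 ≤ m := Finset.sum_nonneg fun k hk => (hδ k hk).1
  have w0 : 0 ≤ w := Finset.sum_nonneg fun k hk => sq_nonneg _
  have Q0 : 0 ≤ Q := Finset.sum_nonneg fun k hk => Finset.sum_nonneg fun l hl =>
    le_min (hδ k hk).1 (hδ l hl).1
  have wm : w ≤ a * m := by
    rw [hw, hm, Finset.mul_sum]
    apply Finset.sum_le_sum
    intro k hk
    have := hδ k hk
    nlinarith
  have mw : m ^ 2 ≤ (n - a) * w := by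
    rw [← hI]
    exact sq_sum_le_card_mul_sum_sq
  have Qm : Q ≤ (n - a) * m := by
    rw [← hI, hQ]
    calc ∑ k ∈ I, ∑ l ∈ I, min (δ k) (δ l) ≤ ∑ k ∈ I, ∑ l ∈ I, δ k :=
          Finset.sum_le_sum fun k _ => Finset.sum_le_sum fun l _ => min_le_left _ _
      _ = (I.card : ℝ) * m := by
          simp only [Finset.sum_const, nsmul_eq_mul]
          rw [← Finset.mul_sum]
  have mQ : m ^ 2 ≤ a * Q := by
    rw [sq, hm, Finset.sum_mul_sum, hQ, Finset.mul_sum]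
    apply Finset.sum_le_sum
    intro k hk
    rw [Finset.mul_sum]
    apply Finset.sum_le_sum
    intro l hl
    have hk' := hδ k hk
    have hl' := hδ l hl
    rcases le_total (δ k) (δ l) with h | h
    · rw [min_eq_left h]
      nlinarith
    · rw [min_eq_right h]
      nlinarith
  have hmt : ∑ k ∈ I, ((a : ℝ) - δ k) = a * (n - a) - m := by
    rw [Finset.sum_sub_distrib, Finset.sum_const, nsmul_eq_mul, hI, hm]
    ring
  have hwt : ∑ k ∈ I, ((a : ℝ) - δ k) ^ 2 = a ^ 2 * (n - a) - 2 * a * m + w := by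
    have : ∀ k ∈ I, ((a : ℝ) - δ k) ^ 2 = a ^ 2 - 2 * a * δ k + δ k ^ 2 := fun k _ => by ring
    rw [Finset.sum_congr rfl this, Finset.sum_add_distrib, Finset.sum_sub_distrib,
      Finset.sum_const, nsmul_eq_mul, hI, ← Finset.mul_sum, ← hm, ← hw]
    ring
  have hQt : ∑ k ∈ I, ∑ l ∈ I, min ((a : ℝ) - δ k) (a - δ l) =
      a * (n - a) ^ 2 - 2 * (n - a) * m + Q := by
    have : ∀ k ∈ I, ∑ l ∈ I, min ((a : ℝ) - δ k) (a - δ l) =
        a * (n - a) - (n - a) * δ k - m + ∑ l ∈ I, min (δ k) (δ l) := by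
      intro k _
      have h4 : ∀ l ∈ I, min ((a : ℝ) - δ k) (a - δ l) = a - δ k - δ l + min (δ k) (δ l) := by
        intro l _
        rcases le_total (δ k) (δ l) with h | h
        · rw [min_eq_left h, min_eq_right (by linarith)]
          ring
        · rw [min_eq_right h, min_eq_left (by linarith)]
          ring
      rw [Finset.sum_congr rfl h4, Finset.sum_add_distrib, Finset.sum_sub_distrib,
        Finset.sum_const, nsmul_eq_mul, hI, ← hm]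
      ring
    rw [Finset.sum_congr rfl this, Finset.sum_add_distrib, Finset.sum_sub_distrib,
      Finset.sum_sub_distrib, Finset.sum_const, Finset.sum_const, nsmul_eq_mul, nsmul_eq_mul, hI,
      ← Finset.mul_sum, ← hm, ← hQ]
    ring
  have mt0 : 0 ≤ a * (n - a) - m := by
    rw [← hmt]
    exact Finset.sum_nonneg fun k hk => by linarith [(hδ k hk).2]
  have wt0 : 0 ≤ (a : ℝ) ^ 2 * (n - a) - 2 * a * m + w := by
    rw [← hwt]
    exact Finset.sum_nonneg fun k hk => sq_nonneg _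
  have Qt0 : 0 ≤ (a : ℝ) * (n - a) ^ 2 - 2 * (n - a) * m + Q := by
    rw [← hQt]
    exact Finset.sum_nonneg fun k hk => Finset.sum_nonneg fun l hl =>
      le_min (by linarith [(hδ k hk).2]) (by linarith [(hδ l hl).2])
  have hgini := gini I δ a hδ
  rw [hmt, hwt, hQt] at hgini
  have hnne : (n : ℝ) ≠ 0 := hn'.ne'
  refine ⟨(a / n, m / n ^ 2, w / n ^ 3, Q / n ^ 3), ⟨⟨?_, ?_⟩, ⟨?_, ?_, ?_⟩, ⟨?_, ?_, ?_, ?_⟩,
    ?_, ?_, ?_, ?_⟩, ?_, ?_, ?_⟩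
  · positivity
  · show (a : ℝ) / n ≤ 1
    rw [div_le_one hn']
    linarith
  · positivity
  · positivity
  · positivity
  · show w / (n : ℝ) ^ 3 ≤ a / n * (m / n ^ 2)
    have : (a : ℝ) / n * (m / n ^ 2) = a * m / n ^ 3 := by field_simp
    rw [this]
    gcongr
  · show (m / (n : ℝ) ^ 2) ^ 2 ≤ (1 - a / n) * (w / n ^ 3)
    have e4 : (1 - (a : ℝ) / n) * (w / n ^ 3) = (n - a) * w / n ^ 4 := by field_simp
    have e5 : (m / (n : ℝ) ^ 2) ^ 2 = m ^ 2 / n ^ 4 := by field_simp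
    rw [e4, e5]
    gcongr
  · show Q / (n : ℝ) ^ 3 ≤ (1 - a / n) * (m / n ^ 2)
    have e4 : (1 - (a : ℝ) / n) * (m / n ^ 2) = (n - a) * m / n ^ 3 := by field_simp
    rw [e4]
    gcongr
  · show (m / (n : ℝ) ^ 2) ^ 2 ≤ a / n * (Q / n ^ 3)
    have e4 : (a : ℝ) / n * (Q / n ^ 3) = a * Q / n ^ 4 := by field_simp
    have e5 : (m / (n : ℝ) ^ 2) ^ 2 = m ^ 2 / n ^ 4 := by field_simp
    rw [e4, e5]
    gcongr
  · rw [min_le_iff]
    rcases hgini with hg | hg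
    · left
      show Q / (n : ℝ) ^ 3 * (w / n ^ 3) - (m / n ^ 2) ^ 3 ≤ 0
      have e4 : Q / (n : ℝ) ^ 3 * (w / n ^ 3) - (m / n ^ 2) ^ 3 = (Q * w - m ^ 3) / n ^ 6 := by
        field_simp
      rw [e4]
      apply div_nonpos_of_nonpos_of_nonneg
      · linarith
      · positivity
    · right
      show ((a : ℝ) / n * (1 - a / n) ^ 2 - 2 * (1 - a / n) * (m / n ^ 2) + Q / n ^ 3) *
        ((a / n) ^ 2 * (1 - a / n) - 2 * (a / n) * (m / n ^ 2) + w / n ^ 3) -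
        (a / n * (1 - a / n) - m / n ^ 2) ^ 3 ≤ 0
      have e4 : ((a : ℝ) / n * (1 - a / n) ^ 2 - 2 * (1 - a / n) * (m / n ^ 2) + Q / n ^ 3) *
        ((a / n) ^ 2 * (1 - a / n) - 2 * (a / n) * (m / n ^ 2) + w / n ^ 3) -
        (a / n * (1 - a / n) - m / n ^ 2) ^ 3 =
        ((a * (n - a) ^ 2 - 2 * (n - a) * m + Q) * (a ^ 2 * (n - a) - 2 * a * m + w) -
          (a * (n - a) - m) ^ 3) / n ^ 6 := by
        field_simp
      rw [e4]
      apply div_nonpos_of_nonpos_of_nonneg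
      · linarith
      · positivity
  · show 0 ≤ ((a : ℝ) / n) ^ 2 * (1 - a / n) - 2 * (a / n) * (m / n ^ 2) + w / n ^ 3
    have e4 : ((a : ℝ) / n) ^ 2 * (1 - a / n) - 2 * (a / n) * (m / n ^ 2) + w / n ^ 3 =
        (a ^ 2 * (n - a) - 2 * a * m + w) / n ^ 3 := by
      field_simp
    rw [e4]
    positivity
  · show 0 ≤ (a : ℝ) / n * (1 - a / n) ^ 2 - 2 * (1 - a / n) * (m / n ^ 2) + Q / n ^ 3
    have e4 : (a : ℝ) / n * (1 - a / n) ^ 2 - 2 * (1 - a / n) * (m / n ^ 2) + Q / n ^ 3 =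
        (a * (n - a) ^ 2 - 2 * (n - a) * m + Q) / n ^ 3 := by
      field_simp
    rw [e4]
    positivity
  · show 0 ≤ (a : ℝ) / n * (1 - a / n) - m / n ^ 2
    have e4 : (a : ℝ) / n * (1 - a / n) - m / n ^ 2 = (a * (n - a) - m) / n ^ 2 := by
      field_simp
    rw [e4]
    positivity
  · show S1 G / (n : ℝ) ^ 2 = a / n * (a / n - 1 / n) + 2 * (m / n ^ 2)
    rw [← h1, e1]
    field_simp
  · show S3 G / (n : ℝ) ^ 3 ≤ a / n * (a / n - 1 / n) * (a / n - 2 / n) +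
      3 * (w / n ^ 3 - m / n ^ 2 / n)
    have e4 : (a : ℝ) / n * (a / n - 1 / n) * (a / n - 2 / n) +
      3 * (w / n ^ 3 - m / n ^ 2 / n) = S3 G' / n ^ 3 := by
      rw [e3]
      field_simp
    rw [e4]
    gcongr
  · show S2 G / (n : ℝ) ^ 3 - S3 G / (n : ℝ) ^ 3 / 3 ≤
        (a / n * (a / n - 1 / n) ^ 2 + 2 * (a / n - 1 / n) * (m / n ^ 2) + Q / n ^ 3 +
          w / n ^ 3) -
        (a / n * (a / n - 1 / n) * (a / n - 2 / n) + 3 * (w / n ^ 3 - m / n ^ 2 / n)) / 3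
    have e4 : (a : ℝ) / n * (a / n - 1 / n) * (a / n - 2 / n) +
      3 * (w / n ^ 3 - m / n ^ 2 / n) = S3 G' / n ^ 3 := by
      rw [e3]
      field_simp
    have e5 : (a : ℝ) / n * (a / n - 1 / n) ^ 2 + 2 * (a / n - 1 / n) * (m / n ^ 2) + Q / n ^ 3 +
          w / n ^ 3 = S2 G' / n ^ 3 := by
      rw [e2]
      field_simp
    rw [e4, e5]
    have e6 : ∀ A B : ℝ, A / (n : ℝ) ^ 3 - B / (n : ℝ) ^ 3 / 3 = (A - B / 3) / n ^ 3 := by
      intro A B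
      field_simp
    rw [e6, e6]
    gcongr

/-- The three homomorphism densities converge. -/
theorem hom_lim {n : ℕ → ℕ} {G : ∀ k, SimpleGraph (Fin (n k))} {d : Fin 4 → ℝ}
    (hn : Tendsto n atTop atTop)
    (hG : ∀ i : Fin 4, Tendsto (fun k => dens (G k) (i : ℕ)) atTop (𝓝 (d i))) :
    Tendsto (fun k => S1 (G k) / (n k : ℝ) ^ 2) atTop (𝓝 ((d 1 + 2 * d 2 + 3 * d 3) / 3)) ∧
    Tendsto (fun k => S2 (G k) / (n k : ℝ) ^ 3) atTop (𝓝 ((d 2 + 3 * d 3) / 3)) ∧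
    Tendsto (fun k => S3 (G k) / (n k : ℝ) ^ 3) atTop (𝓝 (d 3)) := by
  have hnR : Tendsto (fun k => (n k : ℝ)) atTop atTop := tendsto_natCast_atTop_iff.2 hn
  have hinv : Tendsto (fun k => 1 / (n k : ℝ)) atTop (𝓝 0) :=
    (tendsto_const_nhds (x := (1 : ℝ))).div_atTop hnR
  have hr : Tendsto (fun k => (1 - 1 / (n k : ℝ)) * (1 - 2 * (1 / (n k : ℝ)))) atTop
      (𝓝 ((1 - 0) * (1 - 2 * 0))) :=
    (tendsto_const_nhds.sub hinv).mul (tendsto_const_nhds.sub (hinv.const_mul 2))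
  norm_num at hr
  have hn3 : ∀ᶠ k in atTop, 3 ≤ n k := hn.eventually_ge_atTop 3
  have h1 := hG 1
  have h2 := hG 2
  have h3 := hG 3
  simp only [Fin.val_one, Fin.val_two] at h1 h2
  have e3 : ((3 : Fin 4) : ℕ) = 3 := rfl
  rw [e3] at h3
  have hS1b : ∀ᶠ k in atTop, S1 (G k) / (n k : ℝ) ^ 2 ≤ 1 := by
    filter_upwards [hn3] with k hk
    rw [div_le_one (by positivity)]
    exact S1_le _
  have hS1n : ∀ k, 0 ≤ S1 (G k) / (n k : ℝ) ^ 2 := fun k =>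
    div_nonneg (S1_nonneg _) (by positivity)
  have hS1z : Tendsto (fun k => S1 (G k) / (n k : ℝ) ^ 2 * (1 / (n k : ℝ))) atTop (𝓝 0) := by
    refine squeeze_zero' (Eventually.of_forall fun k => ?_) ?_ hinv
    · exact mul_nonneg (hS1n k) (by positivity)
    · filter_upwards [hS1b] with k hk
      have : (0 : ℝ) ≤ 1 / (n k : ℝ) := by positivity
      nlinarith
  have hT : Tendsto (fun k => S3 (G k) / (n k : ℝ) ^ 3) atTop (𝓝 (d 3)) := by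
    have h4 := h3.mul hr
    rw [mul_one] at h4
    refine h4.congr' ?_
    filter_upwards [hn3] with k hk
    rw [dens_three hk]
    have k0 : (n k : ℝ) ≠ 0 := by positivity
    have k3 : (3 : ℝ) ≤ n k := by exact_mod_cast hk
    have k1 : (n k : ℝ) - 1 ≠ 0 := by linarith
    have k2 : (n k : ℝ) - 2 ≠ 0 := by linarith
    field_simp
  have hQ : Tendsto (fun k => S2 (G k) / (n k : ℝ) ^ 3) atTop (𝓝 ((d 2 + 3 * d 3) / 3)) := by
    have h4 := (((h2.mul hr).div_const 3).add hS1z).add hT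
    have e : d 2 * 1 / 3 + 0 + d 3 = (d 2 + 3 * d 3) / 3 := by ring
    rw [e] at h4
    refine h4.congr' ?_
    filter_upwards [hn3] with k hk
    rw [dens_two hk]
    have k0 : (n k : ℝ) ≠ 0 := by positivity
    have k3 : (3 : ℝ) ≤ n k := by exact_mod_cast hk
    have k1 : (n k : ℝ) - 1 ≠ 0 := by linarith
    have k2 : (n k : ℝ) - 2 ≠ 0 := by linarith
    field_simp
    ring
  refine ⟨?_, hQ, hT⟩
  have h4 := (((h1.mul hr).div_const 3).add (hQ.const_mul 2)).sub hT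
  have e : d 1 * 1 / 3 + 2 * ((d 2 + 3 * d 3) / 3) - d 3 = (d 1 + 2 * d 2 + 3 * d 3) / 3 := by
    ring
  rw [e] at h4
  refine h4.congr' ?_
  filter_upwards [hn3] with k hk
  rw [dens_one hk]
  have k0 : (n k : ℝ) ≠ 0 := by positivity
  have k3 : (3 : ℝ) ≤ n k := by exact_mod_cast hk
  have k1 : (n k : ℝ) - 1 ≠ 0 := by linarith
  have k2 : (n k : ℝ) - 2 ≠ 0 := by linarith
  field_simp
  ring

lemma dens_nonneg {n : ℕ} (G : SimpleGraph (Fin n)) (i : ℕ) : 0 ≤ dens G i := by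
  unfold dens
  positivity

lemma prof_nonneg {d : Fin 4 → ℝ} (hd : d ∈ Profile) (i : Fin 4) : 0 ≤ d i := by
  obtain ⟨n, G, hn, hG⟩ := hd
  exact ge_of_tendsto' (hG i) fun k => dens_nonneg _ _

lemma prof_sum {d : Fin 4 → ℝ} (hd : d ∈ Profile) : d 0 = 1 - d 1 - d 2 - d 3 := by
  obtain ⟨n, G, hn, hG⟩ := hd
  have hn3 : ∀ᶠ k in atTop, 3 ≤ n k := hn.eventually_ge_atTop 3
  have h0 := hG 0
  have h1 := hG 1
  have h2 := hG 2
  have h3 := hG 3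
  have h4 := ((tendsto_const_nhds (x := (1 : ℝ))).sub h1 |>.sub h2).sub h3
  refine tendsto_nhds_unique h0 (h4.congr' ?_)
  filter_upwards [hn3] with k hk
  exact (dens_zero hk (G k)).symm

lemma prof_eq_pt {d : Fin 4 → ℝ} (hd : d ∈ Profile) :
    d = pt ((d 1 + 2 * d 2 + 3 * d 3) / 3) ((d 2 + 3 * d 3) / 3) (d 3) := by
  have h := prof_sum hd
  ext i
  fin_cases i
  · simp [pt]
    linarith
  · simp [pt]
    ring
  · simp [pt]
    ring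
  · simp [pt]

/-- data of a point of the profile -/
theorem prof_data {d : Fin 4 → ℝ} (hd : d ∈ Profile) :
    ∃ v : ℝ × ℝ × ℝ × ℝ, Clo v ∧
      (d 1 + 2 * d 2 + 3 * d 3) / 3 = v.1 ^ 2 + 2 * v.2.1 ∧
      d 3 ≤ v.1 ^ 3 + 3 * v.2.2.1 ∧
      (d 2 + 3 * d 3) / 3 - d 3 / 3 ≤
        (v.1 ^ 3 + 2 * v.1 * v.2.1 + v.2.2.1 + v.2.2.2) - (v.1 ^ 3 + 3 * v.2.2.1) / 3 := by
  obtain ⟨n, G, hn, hG⟩ := hd
  obtain ⟨hP, hQ, hT⟩ := hom_lim hn hG
  have hnR : Tendsto (fun k => (n k : ℝ)) atTop atTop := tendsto_natCast_atTop_iff.2 hn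
  have hinv : Tendsto (fun k => 1 / (n k : ℝ)) atTop (𝓝 0) :=
    (tendsto_const_nhds (x := (1 : ℝ))).div_atTop hnR
  have hdat : ∀ k, ∃ v : ℝ × ℝ × ℝ × ℝ, Clo v ∧ (0 < n k →
      S1 (G k) / (n k : ℝ) ^ 2 = v.1 * (v.1 - 1 / n k) + 2 * v.2.1 ∧
      S3 (G k) / (n k : ℝ) ^ 3 ≤
        v.1 * (v.1 - 1 / n k) * (v.1 - 2 / n k) + 3 * (v.2.2.1 - v.2.1 / n k) ∧
      S2 (G k) / (n k : ℝ) ^ 3 - S3 (G k) / (n k : ℝ) ^ 3 / 3 ≤
        (v.1 * (v.1 - 1 / n k) ^ 2 + 2 * (v.1 - 1 / n k) * v.2.1 + v.2.2.2 + v.2.2.1) -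
        (v.1 * (v.1 - 1 / n k) * (v.1 - 2 / n k) + 3 * (v.2.2.1 - v.2.1 / n k)) / 3) := by
    intro k
    rcases Nat.eq_zero_or_pos (n k) with h | h
    · refine ⟨(0, 0, 0, 0), ?_, fun h' => absurd h h'.ne'⟩
      simp [Clo]
    · obtain ⟨v, hv, h'⟩ := fin_data h (G k)
      exact ⟨v, hv, fun _ => h'⟩
  choose v hv hv' using hdat
  have hK : IsCompact (Icc (0 : ℝ) 1 ×ˢ Icc (0 : ℝ) 1 ×ˢ Icc (0 : ℝ) 1 ×ˢ Icc (0 : ℝ) 1) :=
    isCompact_Icc.prod (isCompact_Icc.prod (isCompact_Icc.prod isCompact_Icc))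
  obtain ⟨w, hw, φ, hφ, hlim⟩ := hK.tendsto_subseq fun k => clo_mem (hv k)
  have hnpos : ∀ᶠ k in atTop, 0 < n (φ k) :=
    (hn.comp hφ.tendsto_atTop).eventually_gt_atTop 0
  have hi : Tendsto (fun k => 1 / (n (φ k) : ℝ)) atTop (𝓝 0) := hinv.comp hφ.tendsto_atTop
  have hpair : Tendsto (fun k => (v (φ k), 1 / (n (φ k) : ℝ))) atTop (𝓝 (w, 0)) :=
    hlim.prodMk_nhds hi
  have hclo : Clo w := isClosed_clo.mem_of_tendsto hlim (Eventually.of_forall fun k => hv (φ k))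
  set f1 : (ℝ × ℝ × ℝ × ℝ) × ℝ → ℝ := fun u => u.1.1 * (u.1.1 - u.2) + 2 * u.1.2.1 with hf1
  set f3 : (ℝ × ℝ × ℝ × ℝ) × ℝ → ℝ := fun u => u.1.1 * (u.1.1 - u.2) * (u.1.1 - 2 * u.2) +
    3 * (u.1.2.2.1 - u.1.2.1 * u.2) with hf3
  set f2 : (ℝ × ℝ × ℝ × ℝ) × ℝ → ℝ := fun u => u.1.1 * (u.1.1 - u.2) ^ 2 +
    2 * (u.1.1 - u.2) * u.1.2.1 + u.1.2.2.2 + u.1.2.2.1 with hf2
  have c1 : Continuous f1 := by fun_prop
  have c2 : Continuous f2 := by fun_prop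
  have c3 : Continuous f3 := by fun_prop
  refine ⟨w, hclo, ?_, ?_, ?_⟩
  · have t1 := hP.comp hφ.tendsto_atTop
    have t2 : Tendsto (fun k => f1 (v (φ k), 1 / (n (φ k) : ℝ))) atTop (𝓝 (f1 (w, 0))) :=
      (c1.tendsto _).comp hpair
    have t3 : Tendsto (fun k => f1 (v (φ k), 1 / (n (φ k) : ℝ))) atTop
        (𝓝 ((d 1 + 2 * d 2 + 3 * d 3) / 3)) := by
      refine t1.congr' ?_
      filter_upwards [hnpos] with k hk
      exact (hv' (φ k) hk).1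
    have := tendsto_nhds_unique t3 t2
    rw [this, hf1]
    ring
  · have t1 := hT.comp hφ.tendsto_atTop
    have t2 : Tendsto (fun k => f3 (v (φ k), 1 / (n (φ k) : ℝ))) atTop (𝓝 (f3 (w, 0))) :=
      (c3.tendsto _).comp hpair
    have := le_of_tendsto_of_tendsto t1 t2 (by
      filter_upwards [hnpos] with k hk
      have h := (hv' (φ k) hk).2.1
      simp only [hf3, Function.comp]
      refine le_trans h (le_of_eq ?_)
      ring)
    rw [hf3] at this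
    linarith
  · have t1 := (hQ.comp hφ.tendsto_atTop).sub ((hT.comp hφ.tendsto_atTop).div_const 3)
    have t2 : Tendsto (fun k => f2 (v (φ k), 1 / (n (φ k) : ℝ)) -
        f3 (v (φ k), 1 / (n (φ k) : ℝ)) / 3) atTop (𝓝 (f2 (w, 0) - f3 (w, 0) / 3)) :=
      ((c2.tendsto _).comp hpair).sub (((c3.tendsto _).comp hpair).div_const 3)
    have := le_of_tendsto_of_tendsto t1 t2 (by
      filter_upwards [hnpos] with k hk
      have h := (hv' (φ k) hk).2.2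
      simp only [hf2, hf3, Function.comp]
      refine le_trans h (le_of_eq ?_)
      ring)
    rw [hf2, hf3] at this
    linarith

end Lim

/-- **Upper bound**: every point of the profile with edge density `p ∈ (0,1)` and triangle density
`t ≥ tstar p` lies below one of the two families. -/
theorem upper_main {p q t : ℝ} (hp0 : 0 < p) (hp1 : p < 1) (h : pt p q t ∈ Profile)
    (ht : tstar p ≤ t) :
    (∃ x a, F1 p t x a ∧ q ≤ q1 x a) ∨ (∃ b z, F2 p t b z ∧ q ≤ q2 b z) := by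
  obtain ⟨⟨α, m, w, Q⟩, hc, e1, e3, e2⟩ := Lim.prof_data h
  obtain ⟨⟨a0, a1⟩, ⟨m0, w0, Q0⟩, ⟨wm, mw, Qm, mQ⟩, hmin, hw, hQ, hm⟩ := hc
  simp only at a0 a1 m0 w0 Q0 wm mw Qm mQ hmin hw hQ hm e1 e2 e3
  have g1 : (pt p q t) 1 = 3 * (p - 2 * q + t) := by simp [pt]
  have g2 : (pt p q t) 2 = 3 * (q - t) := by simp [pt]
  have g3 : (pt p q t) 3 = t := by simp [pt]
  rw [g1, g2, g3] at e1
  rw [g3] at e3
  rw [g2, g3] at e2
  have ep : p = α ^ 2 + 2 * m := by linarith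
  obtain ⟨t', ht', hF⟩ := Fam.real_main (α := α) (m := m) (w := w) (Q := Q)
    ⟨a0, a1, m0, w0, Q0, wm, mw, Qm⟩ mQ
    (by
      rcases min_le_iff.1 hmin with h | h
      · exact Or.inl (by linarith)
      · exact Or.inr (by linarith)) hw hQ hm
  rw [← ep] at hF
  rcases hF with ⟨x, a, h1, h2⟩ | ⟨b, z, h1, h2⟩
  · obtain ⟨x', a', h3, h4⟩ := Fam.slide1 hp1 h1 ht (by linarith)
    exact Or.inl ⟨x', a', h3, by linarith⟩
  · obtain ⟨b', z', h3, h4⟩ := Fam.slide2 hp1 hp0 h1 ht (by linarith)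
    exact Or.inr ⟨b', z', h3, by linarith⟩

end LibProf47
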