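import Mathlib
import Pool.Agent.LibProf47.Base
import Pool.Agent.LibProf47.Counting

set_option autoImplicit false

namespace LibProf47

open Filter Topology

namespace Rev

open Finset Cnt

variable {n : ℕ}

lemma ad_compl (G : SimpleGraph (Fin n)) {x y : Fin n} (h : x ≠ y) :
    ad Gᶜ x y = 1 - ad G x y := by
  by_cases hG : G.Adj x y
  · rw [ad_of_adj hG, ad_of_not_adj]
    · norm_num
    · rw [SimpleGraph.compl_adj]; exact fun h' => h'.2 hG
  · rw [ad_of_not_adj hG, ad_of_adj]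
    · norm_num
    · rw [SimpleGraph.compl_adj]; exact ⟨h, hG⟩

lemma edgesIn_compl (G : SimpleGraph (Fin n)) {s : Finset (Fin n)} (hs : s.card = 3) :
    edgesIn Gᶜ s + edgesIn G s = 3 := by
  obtain ⟨a, b, c, hab, hac, hbc, rfl⟩ := Finset.card_eq_three.mp hs
  have h1 := edgesIn_triple G hab hbc hac
  have h2 := edgesIn_triple Gᶜ hab hbc hac
  rw [ad_compl G hab, ad_compl G hbc, ad_compl G hac] at h2
  have h3 : (edgesIn Gᶜ {a, b, c} : ℝ) + (edgesIn G {a, b, c} : ℝ) = 3 := by
    rw [h1, h2]; ring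
  exact_mod_cast h3

lemma dens_compl (G : SimpleGraph (Fin n)) {i j : ℕ} (hij : i + j = 3) :
    dens Gᶜ i = dens G j := by
  unfold dens
  congr 2
  congr 1
  ext s
  simp only [Set.mem_ofPred_eq]
  constructor
  · rintro ⟨h1, h2⟩
    have := edgesIn_compl G h1
    exact ⟨h1, by omega⟩
  · rintro ⟨h1, h2⟩
    have := edgesIn_compl G h1
    exact ⟨h1, by omega⟩

lemma dens_nonneg (G : SimpleGraph (Fin n)) (i : ℕ) : 0 ≤ dens G i := by
  unfold dens; positivity

lemma S1_sq (G : SimpleGraph (Fin n)) : S1 G ^ 2 ≤ n * S2 G := by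
  have h := sq_sum_le_card_mul_sum_sq (s := (Finset.univ : Finset (Fin n)))
    (f := fun x => ∑ y, ad G x y)
  simpa [S1, S2] using h

/-- the variance inequality for a finite graph -/
lemma var_fin (hn : 3 ≤ n) (G : SimpleGraph (Fin n)) :
    (dens G 1 / 3 + 2 * (dens G 2 / 3) + dens G 3) ^ 2 ≤
      (dens G 2 / 3 + dens G 3) +
        (dens G 1 / 3 + 2 * (dens G 2 / 3) + dens G 3) / ((n : ℝ) - 1) := by
  have hn' : (3 : ℝ) ≤ n := by exact_mod_cast hn
  have hn0 : (0 : ℝ) < n := by linarith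
  have hn1 : (0 : ℝ) < (n : ℝ) - 1 := by linarith
  have hn2 : (0 : ℝ) < (n : ℝ) - 2 := by linarith
  have e1 := dens_one hn G
  have e2 := dens_two hn G
  have e3 := dens_three hn G
  have hS := S1_sq G
  set P := dens G 1 / 3 + 2 * (dens G 2 / 3) + dens G 3 with hP
  set Q := dens G 2 / 3 + dens G 3 with hQ
  have hP' : P = S1 G / (n * (n - 1)) := by
    rw [hP, e1, e2, e3]; field_simp; ring
  have hQ' : Q = (S2 G - S1 G) / (n * (n - 1) * (n - 2)) := by
    rw [hQ, e2, e3]; field_simp; ring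
  have hQ0 : 0 ≤ Q := by
    have := dens_nonneg G 2
    have := dens_nonneg G 3
    rw [hQ]; positivity
  have hS1 : S1 G = P * (n * (n - 1)) := by rw [hP']; field_simp
  have hS2 : S2 G = Q * (n * (n - 1) * (n - 2)) + P * (n * (n - 1)) := by
    rw [← hS1, hQ']; field_simp; ring
  rw [hS1, hS2] at hS
  have h1 : P ^ 2 * ((n : ℝ) ^ 2 * (n - 1) ^ 2) ≤
      (Q * ((n - 2) / (n - 1)) + P / ((n : ℝ) - 1)) * ((n : ℝ) ^ 2 * (n - 1) ^ 2) := by
    have h2 : (Q * ((n - 2) / (n - 1)) + P / ((n : ℝ) - 1)) * ((n : ℝ) ^ 2 * (n - 1) ^ 2)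
        = n * (Q * (n * (n - 1) * (n - 2)) + P * (n * (n - 1))) := by
      field_simp
    rw [h2]
    calc P ^ 2 * ((n : ℝ) ^ 2 * (n - 1) ^ 2) = (P * (n * (n - 1))) ^ 2 := by ring
      _ ≤ _ := hS
  have h3 := le_of_mul_le_mul_right h1 (by positivity)
  have h4 : ((n : ℝ) - 2) / (n - 1) ≤ 1 := by
    rw [div_le_one hn1]; linarith
  nlinarith [mul_le_mul_of_nonneg_left h4 hQ0]

end Rev

open Rev

theorem profile_rev {d : Fin 4 → ℝ} (h : d ∈ Profile) : ![d 3, d 2, d 1, d 0] ∈ Profile := by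
  obtain ⟨n, G, hn, hd⟩ := h
  refine ⟨n, fun k => (G k)ᶜ, hn, fun i => ?_⟩
  fin_cases i
  · have h := hd 3
    refine h.congr fun k => ?_
    exact (dens_compl (G k) (by norm_num)).symm
  · have h := hd 2
    refine h.congr fun k => ?_
    exact (dens_compl (G k) (by norm_num)).symm
  · have h := hd 1
    refine h.congr fun k => ?_
    exact (dens_compl (G k) (by norm_num)).symm
  · have h := hd 0
    refine h.congr fun k => ?_
    exact (dens_compl (G k) (by norm_num)).symm

/-- variance inequality (q ≥ p²) for points of the profile, from `S1^2 ≤ n * S2` -/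
theorem profile_var {p q t : ℝ} (h : pt p q t ∈ Profile) : p ^ 2 ≤ q := by
  obtain ⟨n, G, hn, hd⟩ := h
  have h1 : Tendsto (fun k => dens (G k) 1) atTop (𝓝 (3 * (p - 2 * q + t))) := by
    simpa [pt] using hd 1
  have h2 : Tendsto (fun k => dens (G k) 2) atTop (𝓝 (3 * (q - t))) := by
    simpa [pt] using hd 2
  have h3 : Tendsto (fun k => dens (G k) 3) atTop (𝓝 t) := by
    simpa [pt] using hd 3
  have hP : Tendsto (fun k => dens (G k) 1 / 3 + 2 * (dens (G k) 2 / 3) + dens (G k) 3) atTop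
      (𝓝 p) := by
    have := ((h1.div_const 3).add ((h2.div_const 3).const_mul 2)).add h3
    convert this using 2
    ring
  have hQ : Tendsto (fun k => dens (G k) 2 / 3 + dens (G k) 3) atTop (𝓝 q) := by
    have := (h2.div_const 3).add h3
    convert this using 2
    ring
  have hN : Tendsto (fun k => ((n k : ℕ) : ℝ) - 1) atTop atTop :=
    tendsto_atTop_add_const_right _ _ (tendsto_natCast_atTop_atTop.comp hn)
  have hR := hQ.add (hP.div_atTop hN)
  rw [add_zero] at hR
  refine le_of_tendsto_of_tendsto (hP.pow 2) hR ?_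
  filter_upwards [hn.eventually_ge_atTop 3] with k hk
  exact var_fin hk (G k)

end LibProf47
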