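import Mathlib
import Pool.Agent.LibProf47.BlowMem
import Pool.Agent.LibProf47.Step0

set_option autoImplicit false

/-!
# Task C6 (weighted blow-ups) for MP_096a05_co

The weighted block structure is realised by the 0/1 block structure on `Fin k × ZMod L`, `L` odd,
with `(i,x) ~ (j,y)` iff `x + y` lies in an initial segment of `ZMod L` of `⌊L B i j⌋` elements.
Since `(x,y,z) ↦ (x+y, y+z, x+z)` is a bijection of `(ZMod L)^3`, all three sums are exact.
-/

namespace LibProf47

open Filter Topology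

namespace Wtd

/-- a workable description of the profile -/
theorem mem_profile_iff (d : Fin 4 → ℝ) :
    d ∈ Profile ↔ ∀ N : ℕ, ∃ n, N ≤ n ∧ ∃ G : SimpleGraph (Fin n),
      ∀ i : Fin 4, |dens G (i : ℕ) - d i| < 1 / ((N : ℝ) + 1) := by
  constructor
  · rintro ⟨n, G, hn, hG⟩ N
    have h1 : ∀ᶠ k in atTop, N ≤ n k := hn.eventually_ge_atTop N
    have h2 : ∀ᶠ k in atTop, ∀ i : Fin 4, |dens (G k) (i : ℕ) - d i| < 1 / ((N : ℝ) + 1) := by
      rw [eventually_all]
      intro i
      have := (Metric.tendsto_nhds.1 (hG i)) (1 / ((N : ℝ) + 1)) (by positivity)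
      simpa [Real.dist_eq] using this
    obtain ⟨k, hk1, hk2⟩ := (h1.and h2).exists
    exact ⟨n k, hk1, G k, hk2⟩
  · intro h
    choose n hn G hG using h
    refine ⟨n, G, tendsto_atTop_mono hn tendsto_id, fun i => ?_⟩
    rw [tendsto_iff_dist_tendsto_zero]
    refine squeeze_zero (fun _ => dist_nonneg) (fun N => ?_)
      tendsto_one_div_add_atTop_nhds_zero_nat
    rw [Real.dist_eq]
    exact (hG N i).le

end Wtd

open Wtd

theorem profile_closed : IsClosed Profile := by
  rw [← isSeqClosed_iff_isClosed]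
  intro x d hx hd
  rw [mem_profile_iff]
  intro N
  have hd' := tendsto_pi_nhds.1 hd
  have h2 : ∀ᶠ k in atTop, ∀ i : Fin 4, |x k i - d i| < 1 / ((N : ℝ) + 1) / 2 := by
    rw [eventually_all]
    intro i
    have := (Metric.tendsto_nhds.1 (hd' i)) (1 / ((N : ℝ) + 1) / 2) (by positivity)
    simpa [Real.dist_eq] using this
  obtain ⟨k, hk⟩ := h2.exists
  obtain ⟨n, hn, G, hG⟩ := (mem_profile_iff (x k)).1 (hx k) (2 * N + 1)
  refine ⟨n, by omega, G, fun i => ?_⟩
  have e : (1 : ℝ) / (((2 * N + 1 : ℕ) : ℝ) + 1) = 1 / ((N : ℝ) + 1) / 2 := by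
    push_cast
    field_simp
    ring
  have h3 := hG i
  rw [e] at h3
  have h4 := hk i
  have := abs_sub_le (dens G (i : ℕ)) (x k i) (d i)
  linarith

namespace Wtd

/-- 0/1 blow-ups over any finite index type -/
theorem blow_mem_fintype {ι : Type} [Fintype ι] (B : ι → ι → ℝ)
    (hB : ∀ i j, B i j = 0 ∨ B i j = 1)
    (hs : ∀ i j, B i j = B j i) (l : ι → ℝ) (hl : ∀ i, 0 ≤ l i) (h1 : ∑ i, l i = 1) :
    pt (∑ i, ∑ j, l i * l j * B i j) (∑ i, l i * (∑ j, l j * B i j) ^ 2)
      (∑ i, ∑ j, ∑ m, l i * l j * l m * (B i j * B j m * B i m)) ∈ Profile := by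
  classical
  let e : Fin (Fintype.card ι) ≃ ι := (Fintype.equivFin ι).symm
  have h := blow_mem (Fintype.card ι) (fun i j => B (e i) (e j)) (fun i j => hB _ _)
    (fun i j => hs _ _) (fun i => l (e i)) (fun i => hl _)
    (by rw [Equiv.sum_comp e l]; exact h1)
  have e1 : ∑ i, ∑ j, l (e i) * l (e j) * B (e i) (e j) = ∑ i, ∑ j, l i * l j * B i j := by
    rw [← Equiv.sum_comp e (fun i => ∑ j, l i * l j * B i j)]
    refine Finset.sum_congr rfl fun i _ => ?_
    rw [← Equiv.sum_comp e (fun j => l (e i) * l j * B (e i) j)]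
  have e2 : ∑ i, l (e i) * (∑ j, l (e j) * B (e i) (e j)) ^ 2
      = ∑ i, l i * (∑ j, l j * B i j) ^ 2 := by
    rw [← Equiv.sum_comp e (fun i => l i * (∑ j, l j * B i j) ^ 2)]
    refine Finset.sum_congr rfl fun i _ => ?_
    rw [← Equiv.sum_comp e (fun j => l j * B (e i) j)]
  have e3 : ∑ i, ∑ j, ∑ m, l (e i) * l (e j) * l (e m) *
        (B (e i) (e j) * B (e j) (e m) * B (e i) (e m))
      = ∑ i, ∑ j, ∑ m, l i * l j * l m * (B i j * B j m * B i m) := by
    rw [← Equiv.sum_comp e (fun i => ∑ j, ∑ m, l i * l j * l m * (B i j * B j m * B i m))]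
    refine Finset.sum_congr rfl fun i _ => ?_
    rw [← Equiv.sum_comp e (fun j => ∑ m, l (e i) * l j * l m *
      (B (e i) j * B j m * B (e i) m))]
    refine Finset.sum_congr rfl fun j _ => ?_
    rw [← Equiv.sum_comp e (fun m => l (e i) * l (e j) * l m *
      (B (e i) (e j) * B (e j) m * B (e i) m))]
  rw [e1, e2, e3] at h
  exact h

section Cyc

variable (r : ℕ)

/-- indicator of the initial segment with `c` elements of `ZMod (2 r + 1)` -/
noncomputable def seg (c : ℕ) (u : ZMod (2 * r + 1)) : ℝ := if u.val < c then 1 else 0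

theorem seg_cases (c : ℕ) (u : ZMod (2 * r + 1)) : seg r c u = 0 ∨ seg r c u = 1 := by
  unfold seg
  split_ifs
  · right; rfl
  · left; rfl

theorem sum_seg (c : ℕ) (hc : c ≤ 2 * r + 1) : ∑ u, seg r c u = c := by
  unfold seg
  rw [Finset.sum_boole]
  norm_cast
  have : (Finset.univ.filter fun u : ZMod (2 * r + 1) => u.val < c).card
      = (Finset.univ.filter fun u : Fin (2 * r + 1) => (u : ℕ) < c).card := rfl
  rw [this]
  rw [Fin.card_filter_val_lt]
  exact min_eq_right hc

theorem sum_shift (f : ZMod (2 * r + 1) → ℝ) (x : ZMod (2 * r + 1)) :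
    ∑ y, f (x + y) = ∑ y, f y :=
  Equiv.sum_comp (Equiv.addLeft x) f

theorem sum_triple (f g h : ZMod (2 * r + 1) → ℝ) :
    ∑ x, ∑ y, ∑ z, f (x + y) * g (y + z) * h (x + z)
      = (∑ u, f u) * (∑ u, g u) * (∑ u, h u) := by
  have h1 : ∀ x : ZMod (2 * r + 1), ∑ y, ∑ z, f (x + y) * g (y + z) * h (x + z)
      = ∑ u, ∑ w, f u * g (u + w - 2 * x) * h w := by
    intro x
    rw [← Equiv.sum_comp (Equiv.addLeft x) (fun u => ∑ w, f u * g (u + w - 2 * x) * h w)]
    refine Finset.sum_congr rfl fun y _ => ?_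
    rw [← Equiv.sum_comp (Equiv.addLeft x)
      (fun w => f (Equiv.addLeft x y) * g (Equiv.addLeft x y + w - 2 * x) * h w)]
    refine Finset.sum_congr rfl fun z _ => ?_
    simp only [Equiv.coe_addLeft]
    have : x + y + (x + z) - 2 * x = y + z := by ring
    rw [this]
  simp only [h1]
  have h2 : IsUnit (2 : ZMod (2 * r + 1)) := by
    have : Nat.Coprime 2 (2 * r + 1) := by
      rw [Nat.coprime_mul_left_add_right]
      exact Nat.coprime_one_right 2
    exact_mod_cast (ZMod.isUnit_iff_coprime 2 (2 * r + 1)).2 this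
  have h3 : ∀ a : ZMod (2 * r + 1), ∑ x, g (a - 2 * x) = ∑ x, g x := by
    intro a
    have hb : Function.Bijective (fun x : ZMod (2 * r + 1) => a - 2 * x) := by
      rw [← Finite.injective_iff_bijective]
      intro x y hxy
      have : 2 * x = 2 * y := by simpa using hxy
      exact h2.mul_left_cancel this
    exact hb.sum_comp g
  rw [Finset.sum_comm]
  have h4 : ∀ u, ∑ x, ∑ w, f u * g (u + w - 2 * x) * h w = f u * (∑ v, g v) * ∑ w, h w := by
    intro u
    rw [Finset.sum_comm, Finset.mul_sum]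
    refine Finset.sum_congr rfl fun w _ => ?_
    rw [← Finset.sum_mul, ← Finset.mul_sum, h3]
  simp only [h4]
  rw [← Finset.sum_mul, ← Finset.sum_mul]

end Cyc

/-- exact version for the fractions `c i j / L`, `L` odd -/
theorem frac_mem (k r : ℕ) (c : Fin k → Fin k → ℕ) (hc : ∀ i j, c i j ≤ 2 * r + 1)
    (hs : ∀ i j, c i j = c j i) (l : Fin k → ℝ) (hl : ∀ i, 0 ≤ l i) (h1 : ∑ i, l i = 1)
    (B : Fin k → Fin k → ℝ) (hB : ∀ i j, B i j = (c i j : ℝ) / (2 * r + 1)) :
    pt (∑ i, ∑ j, l i * l j * B i j) (∑ i, l i * (∑ j, l j * B i j) ^ 2)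
      (∑ i, ∑ j, ∑ m, l i * l j * l m * (B i j * B j m * B i m)) ∈ Profile := by
  set L : ℝ := 2 * r + 1 with hL
  have hL0 : L ≠ 0 := by positivity
  have hcard : (Fintype.card (ZMod (2 * r + 1)) : ℝ) = L := by
    rw [ZMod.card]; push_cast; rfl
  let B' : Fin k × ZMod (2 * r + 1) → Fin k × ZMod (2 * r + 1) → ℝ :=
    fun a b => seg r (c a.1 b.1) (a.2 + b.2)
  let l' : Fin k × ZMod (2 * r + 1) → ℝ := fun a => l a.1 / L
  have h := blow_mem_fintype B' (fun a b => seg_cases r _ _)
    (fun a b => by simp only [B']; rw [hs, add_comm a.2 b.2]) l'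
    (fun a => div_nonneg (hl _) (by positivity))
    (by
      simp only [l']
      rw [Fintype.sum_prod_type]
      simp only [Finset.sum_const, Finset.card_univ, nsmul_eq_mul, hcard]
      rw [← h1]
      refine Finset.sum_congr rfl fun i _ => ?_
      field_simp)
  have hin : ∀ a : Fin k × ZMod (2 * r + 1), ∑ b, l' b * B' a b = ∑ j, l j * B a.1 j := by
    intro a
    simp only [l', B']
    rw [Fintype.sum_prod_type]
    refine Finset.sum_congr rfl fun j _ => ?_
    simp only
    rw [← Finset.mul_sum, sum_shift r (seg r (c a.1 j)), sum_seg r _ (hc _ _), hB]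
    field_simp
  have e1 : ∑ a, ∑ b, l' a * l' b * B' a b = ∑ i, ∑ j, l i * l j * B i j := by
    have : ∀ a, ∑ b, l' a * l' b * B' a b = l' a * ∑ j, l j * B a.1 j := by
      intro a
      rw [← hin a, Finset.mul_sum]
      refine Finset.sum_congr rfl fun b _ => ?_
      ring
    simp only [this]
    rw [Fintype.sum_prod_type]
    refine Finset.sum_congr rfl fun i _ => ?_
    simp only [l', Finset.sum_const, Finset.card_univ, nsmul_eq_mul, hcard]
    rw [Finset.mul_sum, Finset.mul_sum]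
    refine Finset.sum_congr rfl fun j _ => ?_
    field_simp
  have e2 : ∑ a, l' a * (∑ b, l' b * B' a b) ^ 2 = ∑ i, l i * (∑ j, l j * B i j) ^ 2 := by
    simp only [hin]
    rw [Fintype.sum_prod_type]
    refine Finset.sum_congr rfl fun i _ => ?_
    simp only [l', Finset.sum_const, Finset.card_univ, nsmul_eq_mul, hcard]
    field_simp
  have e3 : ∑ a, ∑ b, ∑ d, l' a * l' b * l' d * (B' a b * B' b d * B' a d)
      = ∑ i, ∑ j, ∑ m, l i * l j * l m * (B i j * B j m * B i m) := by
    rw [Fintype.sum_prod_type]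
    refine Finset.sum_congr rfl fun i _ => ?_
    have hx : ∀ x : ZMod (2 * r + 1), ∑ b, ∑ d, l' (i, x) * l' b * l' d *
        (B' (i, x) b * B' b d * B' (i, x) d) = ∑ j, ∑ m, ∑ y, ∑ z, l i / L * (l j / L) * (l m / L) *
        (seg r (c i j) (x + y) * seg r (c j m) (y + z) * seg r (c i m) (x + z)) := by
      intro x
      rw [Fintype.sum_prod_type]
      refine Finset.sum_congr rfl fun j _ => ?_
      rw [Finset.sum_comm]
      rw [Fintype.sum_prod_type]
      refine Finset.sum_congr rfl fun m _ => ?_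
      rw [Finset.sum_comm]
    simp only [hx]
    rw [Finset.sum_comm]
    refine Finset.sum_congr rfl fun j _ => ?_
    rw [Finset.sum_comm]
    refine Finset.sum_congr rfl fun m _ => ?_
    simp only [← Finset.mul_sum]
    rw [sum_triple, sum_seg r _ (hc _ _), sum_seg r _ (hc _ _), sum_seg r _ (hc _ _), hB, hB, hB]
    field_simp
  rw [e1, e2, e3] at h
  exact h

theorem pt_mem_of_tendsto {a b c : ℕ → ℝ} {p q t : ℝ} (h : ∀ r, pt (a r) (b r) (c r) ∈ Profile)
    (ha : Tendsto a atTop (𝓝 p)) (hb : Tendsto b atTop (𝓝 q)) (hc : Tendsto c atTop (𝓝 t)) :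
    pt p q t ∈ Profile := by
  have hcont : Continuous (fun u : ℝ × ℝ × ℝ => pt u.1 u.2.1 u.2.2) := by
    refine continuous_pi fun i => ?_
    fin_cases i <;> simp only [pt] <;> simp <;> fun_prop
  have h1 : Tendsto (fun r => (a r, b r, c r)) atTop (𝓝 (p, q, t)) :=
    ha.prodMk_nhds (hb.prodMk_nhds hc)
  have h2 := (hcont.tendsto (p, q, t)).comp h1
  exact profile_closed.mem_of_tendsto h2 (Eventually.of_forall h)

end Wtd

theorem step_mem {p q t : ℝ} (h : StepPt p q t) : pt p q t ∈ Profile := by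
  obtain ⟨k, B, l, hB, hs, hl, h1, rfl, rfl, rfl⟩ := h
  let C : ℕ → Fin k → Fin k → ℝ := fun r i j => (⌊B i j * (2 * r + 1 : ℝ)⌋₊ : ℝ) / (2 * r + 1)
  have hmem : ∀ r : ℕ, pt (∑ i, ∑ j, l i * l j * C r i j) (∑ i, l i * (∑ j, l j * C r i j) ^ 2)
      (∑ i, ∑ j, ∑ m, l i * l j * l m * (C r i j * C r j m * C r i m)) ∈ Profile := by
    intro r
    refine frac_mem k r (fun i j => ⌊B i j * (2 * r + 1 : ℝ)⌋₊) (fun i j => ?_) (fun i j => ?_)
      l hl h1 (C r) (fun i j => rfl)
    · have h2 : B i j * (2 * r + 1 : ℝ) ≤ ((2 * r + 1 : ℕ) : ℝ) := by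
        push_cast
        have := (hB i j).2
        nlinarith [(Nat.cast_nonneg r : (0 : ℝ) ≤ r)]
      calc ⌊B i j * (2 * r + 1 : ℝ)⌋₊ ≤ ⌊((2 * r + 1 : ℕ) : ℝ)⌋₊ := Nat.floor_mono h2
        _ = 2 * r + 1 := Nat.floor_natCast _
    · rw [hs]
  have hC : ∀ i j, Tendsto (fun r => C r i j) atTop (𝓝 (B i j)) := by
    intro i j
    have h2 : Tendsto (fun r : ℕ => (2 * r + 1 : ℝ)) atTop atTop :=
      tendsto_atTop_add_const_right _ _
        (tendsto_natCast_atTop_atTop.const_mul_atTop (by norm_num))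
    exact (tendsto_nat_floor_mul_div_atTop (hB i j).1).comp h2
  refine pt_mem_of_tendsto hmem ?_ ?_ ?_
  · exact tendsto_finsetSum _ fun i _ => tendsto_finsetSum _ fun j _ => (hC i j).const_mul _
  · exact tendsto_finsetSum _ fun i _ =>
      ((tendsto_finsetSum _ fun j _ => (hC i j).const_mul _).pow 2).const_mul _
  · exact tendsto_finsetSum _ fun i _ => tendsto_finsetSum _ fun j _ =>
      tendsto_finsetSum _ fun m _ =>
      (((hC i j).mul (hC j m)).mul (hC i m)).const_mul _

end LibProf47
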