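import Mathlib
import Pool.Agent.LibProf47.Exit
import Pool.Agent.LibProf47.Limit
import Pool.Agent.LibProf47.Rev
import Pool.Agent.LibProf47.Weighted

set_option autoImplicit false

/-!
# Final statements for the 3-profile
-/

namespace LibProf47

open Set Filter Topology

lemma cc_facts {p : ℝ} (hp0 : 0 < p) (hp1 : p ≤ 1) :
    1 ≤ kk p ∧ 0 ≤ 1 - kk p * cc p ∧ 1 - kk p * cc p ≤ cc p ∧
      kk p * cc p + (1 - kk p * cc p) = 1 ∧ kk p * cc p ^ 2 + (1 - kk p * cc p) ^ 2 = p := by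
  have h1 : 1 ≤ 1 / p := by
    rw [le_div_iff₀ hp0]
    linarith
  have hk1 : 1 ≤ kk p := Nat.le_floor (by simpa using h1)
  have hle : (kk p : ℝ) ≤ 1 / p := Nat.floor_le (by positivity)
  have hlt : 1 / p < kk p + 1 := Nat.lt_floor_add_one _
  have hkp : kk p * p ≤ 1 := by
    rw [le_div_iff₀ hp0] at hle
    exact hle
  have hkp' : 1 < (kk p + 1) * p := by
    rw [div_lt_iff₀ hp0] at hlt
    exact hlt
  have hk : (1 : ℝ) ≤ kk p := by exact_mod_cast hk1
  set k : ℝ := (kk p : ℝ) with hkdef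
  set D := √(k * ((k + 1) * p - 1)) with hD
  have hD0 : 0 ≤ D := Real.sqrt_nonneg _
  have hD2 : D ^ 2 = k * ((k + 1) * p - 1) :=
    Real.sq_sqrt (mul_nonneg (by linarith) (by linarith))
  have hD1 : D ≤ 1 := by
    rw [hD, Real.sqrt_le_one]
    nlinarith
  have hc : cc p = (k + D) / (k * (k + 1)) := rfl
  have hk0 : k ≠ 0 := by linarith
  have hk1' : k + 1 ≠ 0 := by linarith
  have hkc : k * cc p = (k + D) / (k + 1) := by
    rw [hc]
    field_simp
  have hr : 1 - k * cc p = (1 - D) / (k + 1) := by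
    rw [hkc]
    field_simp
    ring
  refine ⟨hk1, ?_, ?_, by ring, ?_⟩
  · rw [hr]
    apply div_nonneg <;> linarith
  · rw [hr, hc, div_le_div_iff₀ (by positivity) (by positivity)]
    nlinarith [mul_nonneg hD0 (by positivity : (0:ℝ) ≤ k + 1), mul_nonneg (mul_nonneg hD0 (by positivity : (0:ℝ) ≤ k + 1)) (by positivity : (0:ℝ) ≤ k)]
  · rw [hr, hc]
    have : k * ((k + D) / (k * (k + 1))) ^ 2 + ((1 - D) / (k + 1)) ^ 2 =
        (k + D ^ 2) / (k * (k + 1)) := by
      field_simp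
      ring
    rw [this, hD2]
    field_simp
    ring

/-- **The upper sheet.** -/
theorem upper_sheet {p : ℝ} (hp0 : 0 < p) (hp1 : p < 1) :
    (∀ t, razb p ≤ t → t ≤ tstar p → IsGreatest {q | pt p q t ∈ Profile} ((p + t) / 2)) ∧
    (∀ t, tstar p ≤ t → t ≤ √p ^ 3 →
      (∃! v : ℝ × ℝ, F1 p t v.1 v.2) ∧ (∃! v : ℝ × ℝ, F2 p t v.1 v.2) ∧
      ∀ x a b z, F1 p t x a → F2 p t b z →
        IsGreatest {q | pt p q t ∈ Profile} (max (q1 x a) (q2 b z))) := by
  constructor
  · intro t ht1 ht2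
    constructor
    · obtain ⟨h1, h2, h3, h4, h5⟩ := cc_facts (p := 1 - p) (by linarith) (by linarith)
      exact step_mem (top_step h1 h2 h3 h4 h5 ht1 ht2)
    · intro q hq
      have h1 := Lim.prof_nonneg hq 1
      have e : (pt p q t) 1 = 3 * (p - 2 * q + t) := by simp [pt]
      rw [e] at h1
      linarith
  · intro t ht1 ht2
    refine ⟨F1_unique hp0 hp1 ht1 ht2, F2_unique hp0 hp1 ht1 ht2, ?_⟩
    intro x a b z h1 h2
    constructor
    · rcases le_total (q1 x a) (q2 b z) with h | h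
      · rw [max_eq_right h]
        exact step_mem (step_F2 h2)
      · rw [max_eq_left h]
        exact step_mem (step_F1 h1)
    · intro q hq
      rcases upper_main hp0 hp1 hq ht1 with ⟨x', a', g1, g2⟩ | ⟨b', z', g1, g2⟩
      · have := (F1_unique hp0 hp1 ht1 ht2).unique (y₁ := (x, a)) (y₂ := (x', a')) h1 g1
        simp only [Prod.mk.injEq] at this
        rw [← this.1, ← this.2] at g2
        exact g2.trans (le_max_left _ _)
      · have := (F2_unique hp0 hp1 ht1 ht2).unique (y₁ := (b, z)) (y₂ := (b', z')) h2 g1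
        simp only [Prod.mk.injEq] at this
        rw [← this.1, ← this.2] at g2
        exact g2.trans (le_max_right _ _)

/-- necessary conditions -/
theorem outer {p q t : ℝ} (hp0 : 0 < p) (hp1 : p < 1) (h : pt p q t ∈ Profile) :
    p ^ 2 ≤ q ∧ 0 ≤ t ∧ t ≤ q ∧ Upp p q t := by
  have h1 := Lim.prof_nonneg h 1
  have h2 := Lim.prof_nonneg h 2
  have h3 := Lim.prof_nonneg h 3
  have e1 : (pt p q t) 1 = 3 * (p - 2 * q + t) := by simp [pt]
  have e2 : (pt p q t) 2 = 3 * (q - t) := by simp [pt]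
  have e3 : (pt p q t) 3 = t := by simp [pt]
  rw [e1] at h1
  rw [e2] at h2
  rw [e3] at h3
  refine ⟨profile_var h, h3, by linarith, ?_⟩
  rcases le_total t (tstar p) with ht | ht
  · exact Or.inl ⟨ht, by linarith⟩
  · exact Or.inr ⟨ht, upper_main hp0 hp1 h ht⟩

/-- non-strict version of the direction comparison -/
lemma dir_le {p τ h : ℝ} (hp0 : 0 < p) (hp : p ≤ 1 / 2) (h1 : p ^ 2 ≤ τ) (h2 : τ ≤ h)
    (hτ : τ ≤ p) :
    √(τ - p ^ 2) ^ 3 * (h - 3 * p * h + 2 * p ^ 3) ≤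
      (τ - 3 * p * τ + 2 * p ^ 3) * √(h - p ^ 2) ^ 3 := by
  rcases eq_or_lt_of_le h2 with h | h
  · rw [h, mul_comm]
  · rcases eq_or_lt_of_le h1 with h' | h'
    · rw [← h']
      have e : √(p ^ 2 - p ^ 2) ^ 3 = 0 := by simp
      rw [e, zero_mul]
      apply mul_nonneg
      · have : p ^ 2 - 3 * p * p ^ 2 + 2 * p ^ 3 = p ^ 2 * (1 - p) := by ring
        rw [this]
        exact mul_nonneg (sq_nonneg _) (by linarith)
      · positivity
    · exact (dir_mono hp0 hp h' h hτ).le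

/-- **Description of the profile away from the near regular part.** -/
theorem description {p q t : ℝ} (hp0 : 0 < p) (hp : p ≤ 1 / 2)
    (hdir : hh p ≤ q ∨ t ≤ p ^ 3 ∨ (t - 3 * p * q + 2 * p ^ 3) * √(hh p - p ^ 2) ^ 3 ≤
      √(q - p ^ 2) ^ 3 * (hh p - 3 * p * hh p + 2 * p ^ 3)) :
    pt p q t ∈ Profile ↔ p ^ 2 ≤ q ∧ 0 ≤ t ∧ t ≤ q ∧ Upp p q t := by
  have hp1 : p < 1 := by linarith
  obtain ⟨h1, h2, h3, h4, h5⟩ := cc_facts hp0 hp1.le
  constructor
  · exact outer hp0 hp1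
  · rintro ⟨g1, g2, g3, g4⟩
    apply step_mem
    apply region_step h1 h2 h3 h4 h5 hp0 hp g1 g2 g3 g4
    change (t - 3 * p * q + 2 * p ^ 3) * √(hh p - p ^ 2) ^ 3 ≤
      √(q - p ^ 2) ^ 3 * (hh p - 3 * p * hh p + 2 * p ^ 3)
    have hc0 : 0 ≤ cc p := h2.trans h3
    have hkc : (kk p : ℝ) * cc p ≤ 1 := by linarith
    have hph : p ^ 2 ≤ hh p := by
      set c := cc p
      set r := 1 - kk p * cc p with hr
      have e2 : hh p * (kk p * c + r) - (kk p * c ^ 2 + r ^ 2) ^ 2 =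
          kk p * (c * r * (c - r) ^ 2) := by
        rw [hh]; ring
      have : 0 ≤ kk p * (c * r * (c - r) ^ 2) := by positivity
      rw [h4, h5] at e2
      linarith
    have hhp : hh p ≤ p := by
      have hk0 : (0 : ℝ) ≤ kk p := by positivity
      have hc1 : cc p ≤ 1 := by
        have : (1 : ℝ) ≤ kk p := by exact_mod_cast h1
        nlinarith
      have e : hh p = kk p * cc p ^ 3 + (1 - kk p * cc p) ^ 3 := rfl
      have g5 : kk p * cc p ^ 3 ≤ kk p * cc p ^ 2 :=
        mul_le_mul_of_nonneg_left (pow_le_pow_of_le_one hc0 hc1 (by norm_num)) hk0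
      have g6 : (1 - kk p * cc p) ^ 3 ≤ (1 - kk p * cc p) ^ 2 :=
        pow_le_pow_of_le_one h2 (by nlinarith) (by norm_num)
      linarith
    have hN : 0 ≤ hh p - 3 * p * hh p + 2 * p ^ 3 := by
      rcases le_total p (1 / 3) with h6 | h6
      · have : 0 ≤ hh p * (1 - 3 * p) := mul_nonneg (by nlinarith) (by linarith)
        have : 0 ≤ p ^ 3 := by positivity
        linarith
      · have : hh p * (3 * p - 1) ≤ p * (3 * p - 1) := mul_le_mul_of_nonneg_right hhp (by linarith)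
        have : p * (3 * p - 1) ≤ 2 * p ^ 3 := by
          have := mul_nonneg hp0.le (mul_nonneg (by linarith : (0:ℝ) ≤ 1 - 2 * p)
            (by linarith : (0:ℝ) ≤ 1 - p))
          linarith
        linarith
    rcases hdir with hd | hd | hd
    · have h6 := dir_le hp0 hp hph hd hhp
      have h7 : (t - 3 * p * q + 2 * p ^ 3) * √(hh p - p ^ 2) ^ 3 ≤
          (q - 3 * p * q + 2 * p ^ 3) * √(hh p - p ^ 2) ^ 3 :=
        mul_le_mul_of_nonneg_right (by linarith) (by positivity)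
      linarith
    · have h6 : t - 3 * p * q + 2 * p ^ 3 ≤ 0 := by nlinarith
      have h7 : (t - 3 * p * q + 2 * p ^ 3) * √(hh p - p ^ 2) ^ 3 ≤ 0 :=
        mul_nonpos_of_nonpos_of_nonneg h6 (by positivity)
      have h8 : 0 ≤ √(q - p ^ 2) ^ 3 * (hh p - 3 * p * hh p + 2 * p ^ 3) :=
        mul_nonneg (by positivity) hN
      linarith
    · exact hd

end LibProf47
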